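import Mathlib

/-!
Hard-core measure on a finite simplicial complex: Mecke's formula.
-/

set_option autoImplicit false
set_option linter.unusedSectionVars false
set_option linter.unusedVariables false

namespace Pool.Agent.J6H90.DC

open Finset

/-- indicator -/
noncomputable def ind (p : Prop) : ℝ := @ite ℝ p (Classical.propDecidable p) 1 0

theorem ind_true {p : Prop} (h : p) : ind p = 1 := by unfold ind; rw [if_pos h]
theorem ind_false {p : Prop} (h : ¬ p) : ind p = 0 := by unfold ind; rw [if_neg h]
theorem ind_nonneg (p : Prop) : 0 ≤ ind p := by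
  by_cases h : p
  · rw [ind_true h]; norm_num
  · rw [ind_false h]
theorem ind_le_one (p : Prop) : ind p ≤ 1 := by
  by_cases h : p
  · rw [ind_true h]
  · rw [ind_false h]; norm_num
theorem ind_congr {p q : Prop} (h : p ↔ q) : ind p = ind q := by
  have : p = q := propext h
  rw [this]
theorem ind_mono {p q : Prop} (h : p → q) : ind p ≤ ind q := by
  by_cases hp : p
  · rw [ind_true hp, ind_true (h hp)]
  · rw [ind_false hp]; exact ind_nonneg q
theorem ind_mul (p q : Prop) : ind p * ind q = ind (p ∧ q) := by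
  by_cases hp : p
  · by_cases hq : q
    · rw [ind_true hp, ind_true hq, ind_true ⟨hp, hq⟩]; norm_num
    · rw [ind_false hq, ind_false (p := p ∧ q) (fun h => hq h.2)]; norm_num
  · rw [ind_false hp, ind_false (p := p ∧ q) (fun h => hp h.1)]; norm_num
theorem ind_mul_congr {p : Prop} {a b : ℝ} (h : p → a = b) : ind p * a = ind p * b := by
  by_cases hp : p
  · rw [h hp]
  · rw [ind_false hp]; ring
theorem ind_mul_mono {p : Prop} {a b : ℝ} (h : p → a ≤ b) : ind p * a ≤ ind p * b := by
  by_cases hp : p
  · rw [ind_true hp]; linarith [h hp]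
  · rw [ind_false hp]; linarith
theorem ind_sq (p : Prop) : ind p * ind p = ind p := by
  rw [ind_mul]; exact ind_congr ⟨fun h => h.1, fun h => ⟨h, h⟩⟩

section
variable {V : Type} [Fintype V] [DecidableEq V]

theorem sum_ind_card (P : V → Prop) [DecidablePred P] :
    ∑ x, ind (P x) = ((univ.filter P).card : ℝ) := by
  rw [Finset.card_filter]
  push_cast
  refine Finset.sum_congr rfl fun x _ => ?_
  by_cases h : P x
  · rw [ind_true h, if_pos h]
  · rw [ind_false h, if_neg h]

theorem sum_ind_le_card {P : V → Prop} {A : Finset V} (h : ∀ x, P x → x ∈ A) :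
    ∑ x, ind (P x) ≤ A.card := by
  classical
  rw [sum_ind_card]
  have : univ.filter P ⊆ A := fun x hx => h x (mem_filter.1 hx).2
  exact_mod_cast card_le_card this

theorem card_le_sum_ind {P : V → Prop} {A : Finset V} (h : ∀ x ∈ A, P x) :
    (A.card : ℝ) ≤ ∑ x, ind (P x) := by
  classical
  rw [sum_ind_card]
  have : A ⊆ univ.filter P := fun x hx => mem_filter.2 ⟨mem_univ _, h x hx⟩
  exact_mod_cast card_le_card this

/-- the standing assumptions: `I` is a nonempty downset and its minimal nonmembers over a member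
have `R + 1` elements -/
structure Cx (R : ℕ) (I : Finset V → Prop) : Prop where
  emp : I ∅
  down : ∀ {S T : Finset V}, S ⊆ T → I T → I S
  blk : ∀ {S : Finset V} {v : V}, I S → v ∉ S → ¬ I (insert v S) →
    ∃ A : Finset V, A ⊆ S ∧ A.card = R ∧ ¬ I (insert v A)

variable (I : Finset V → Prop) (z : ℝ)

/-- the unnormalised expectation -/
noncomputable def br (f : Finset V → ℝ) : ℝ := ∑ S : Finset V, ind (I S) * (z ^ S.card * f S)

/-- `y` can be added to `S` -/
def al (S : Finset V) (y : V) : Prop := y ∉ S ∧ I (insert y S)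

/-- `y` is blocked by `S` -/
def bl (S : Finset V) (y : V) : Prop := y ∉ S ∧ ¬ I (insert y S)

/-- both can be added -/
def pr (S : Finset V) (x y : V) : Prop := x ∉ S ∧ y ∉ S ∧ x ≠ y ∧ I (insert x (insert y S))

/-- adjacency -/
def adj (S : Finset V) (x y : V) : Prop :=
  x ≠ y ∧ al I S x ∧ al I S y ∧ ¬ I (insert x (insert y S))

/-- degree -/
noncomputable def dg (S : Finset V) (x : V) : ℝ := ∑ w, ind (adj I S x w)

variable {I} {z}

theorem br_congr {f g : Finset V → ℝ} (h : ∀ S, I S → f S = g S) : br I z f = br I z g := by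
  unfold br
  refine Finset.sum_congr rfl fun S _ => ?_
  exact ind_mul_congr fun hS => by rw [h S hS]

theorem br_mono (hz : 0 ≤ z) {f g : Finset V → ℝ} (h : ∀ S, I S → f S ≤ g S) :
    br I z f ≤ br I z g := by
  unfold br
  refine Finset.sum_le_sum fun S _ => ?_
  exact ind_mul_mono fun hS => mul_le_mul_of_nonneg_left (h S hS) (pow_nonneg hz _)

theorem br_nonneg (hz : 0 ≤ z) {f : Finset V → ℝ} (h : ∀ S, I S → 0 ≤ f S) : 0 ≤ br I z f := by
  unfold br
  refine Finset.sum_nonneg fun S _ => ?_
  by_cases hS : I S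
  · rw [ind_true hS, one_mul]; exact mul_nonneg (pow_nonneg hz _) (h S hS)
  · rw [ind_false hS, zero_mul]

theorem br_add (f g : Finset V → ℝ) : br I z (fun S => f S + g S) = br I z f + br I z g := by
  unfold br
  rw [← Finset.sum_add_distrib]
  exact Finset.sum_congr rfl fun S _ => by ring

theorem br_sub (f g : Finset V → ℝ) : br I z (fun S => f S - g S) = br I z f - br I z g := by
  unfold br
  rw [← Finset.sum_sub_distrib]
  exact Finset.sum_congr rfl fun S _ => by ring

theorem br_smul (c : ℝ) (f : Finset V → ℝ) : br I z (fun S => c * f S) = c * br I z f := by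
  unfold br
  rw [Finset.mul_sum]
  exact Finset.sum_congr rfl fun S _ => by ring

theorem br_sum {ι : Type*} (s : Finset ι) (f : ι → Finset V → ℝ) :
    br I z (fun S => ∑ i ∈ s, f i S) = ∑ i ∈ s, br I z (f i) := by
  unfold br
  rw [Finset.sum_comm]
  refine Finset.sum_congr rfl fun S _ => ?_
  rw [Finset.mul_sum, Finset.mul_sum]

theorem sum_insert_eq (y : V) (G : Finset V → ℝ) (h : ∀ S, y ∉ S → G S = 0) :
    ∑ S, G S = ∑ S, ind (y ∉ S) * G (insert y S) := by
  classical
  have e1 : ∑ S, G S = ∑ S ∈ univ.filter (fun S : Finset V => y ∈ S), G S := by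
    rw [Finset.sum_filter]
    refine Finset.sum_congr rfl fun S _ => ?_
    by_cases hy : y ∈ S
    · rw [if_pos hy]
    · rw [if_neg hy, h S hy]
  have e2 : ∑ S, ind (y ∉ S) * G (insert y S)
      = ∑ S ∈ univ.filter (fun S : Finset V => y ∉ S), G (insert y S) := by
    rw [Finset.sum_filter]
    refine Finset.sum_congr rfl fun S _ => ?_
    by_cases hy : y ∈ S
    · rw [if_neg (not_not.2 hy), ind_false (not_not.2 hy), zero_mul]
    · rw [if_pos hy, ind_true hy, one_mul]
  rw [e1, e2]
  refine Finset.sum_nbij' (fun S => S.erase y) (fun S => insert y S) ?_ ?_ ?_ ?_ ?_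
  · intro S _
    rw [mem_filter]; exact ⟨mem_univ _, Finset.notMem_erase y S⟩
  · intro S _
    rw [mem_filter]; exact ⟨mem_univ _, Finset.mem_insert_self y S⟩
  · intro S hS
    exact Finset.insert_erase (mem_filter.1 hS).2
  · intro S hS
    exact Finset.erase_insert (mem_filter.1 hS).2
  · intro S hS
    rw [Finset.insert_erase (mem_filter.1 hS).2]

variable {R : ℕ}

theorem mecke (hI : Cx R I) (F : Finset V → V → ℝ) :
    br I z (fun S => ∑ y, ind (y ∈ S) * F S y)
      = z * br I z (fun S => ∑ y, ind (al I S y) * F (insert y S) y) := by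
  unfold br
  have e1 : ∑ S, ind (I S) * (z ^ S.card * ∑ y, ind (y ∈ S) * F S y)
      = ∑ y, ∑ S, ind (I S) * (z ^ S.card * (ind (y ∈ S) * F S y)) := by
    rw [Finset.sum_comm]
    refine Finset.sum_congr rfl fun S _ => ?_
    rw [Finset.mul_sum, Finset.mul_sum]
  have e2 : z * ∑ S, ind (I S) * (z ^ S.card * ∑ y, ind (al I S y) * F (insert y S) y)
      = ∑ y, ∑ S, z * (ind (I S) * (z ^ S.card * (ind (al I S y) * F (insert y S) y))) := by
    rw [Finset.sum_comm, Finset.mul_sum]
    refine Finset.sum_congr rfl fun S _ => ?_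
    rw [Finset.mul_sum, Finset.mul_sum, Finset.mul_sum]
  rw [e1, e2]
  refine Finset.sum_congr rfl fun y _ => ?_
  rw [sum_insert_eq y]
  · refine Finset.sum_congr rfl fun S _ => ?_
    by_cases hy : y ∈ S
    · rw [ind_false (not_not.2 hy), ind_false (fun h : al I S y => h.1 hy)]; ring
    · by_cases h2 : I (insert y S)
      · rw [ind_true (show y ∉ S from hy), ind_true h2, ind_true (mem_insert_self y S),
          ind_true (show al I S y from ⟨hy, h2⟩), ind_true (hI.down (subset_insert y S) h2),
          card_insert_of_notMem hy, pow_succ]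
        ring
      · rw [ind_false h2, ind_false (fun h : al I S y => h2 h.2)]; ring
  · intro S hy
    rw [ind_false hy]; ring

theorem mecke2 (hI : Cx R I) (F : Finset V → V → V → ℝ) :
    br I z (fun S => ∑ x, ∑ y, ind (x ∈ S ∧ y ∈ S ∧ x ≠ y) * F S x y)
      = z ^ 2 * br I z (fun S => ∑ x, ∑ y, ind (pr I S x y) * F (insert x (insert y S)) x y) := by
  have h1 : br I z (fun S => ∑ x, ∑ y, ind (x ∈ S ∧ y ∈ S ∧ x ≠ y) * F S x y)
      = br I z (fun S => ∑ x, ind (x ∈ S) *
          (fun (S : Finset V) (x : V) => ∑ y, ind (y ∈ S.erase x) * F S x y) S x) := by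
    refine br_congr fun S _ => Finset.sum_congr rfl fun x _ => ?_
    simp only
    rw [Finset.mul_sum]
    refine Finset.sum_congr rfl fun y _ => ?_
    rw [← mul_assoc, ind_mul]
    congr 1
    refine ind_congr ?_
    rw [mem_erase]
    constructor
    · rintro ⟨a, b, c⟩; exact ⟨a, fun h => c h.symm, b⟩
    · rintro ⟨a, b, c⟩; exact ⟨a, c, fun h => b h.symm⟩
  rw [h1, mecke hI]
  have h2 : br I z (fun S => ∑ x, ind (al I S x) *
        ∑ y, ind (y ∈ (insert x S).erase x) * F (insert x S) x y)
      = br I z (fun S => ∑ y, ind (y ∈ S) *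
          (fun (S : Finset V) (y : V) => ∑ x, ind (al I S x) * F (insert x S) x y) S y) := by
    refine br_congr fun S _ => ?_
    simp only
    have : ∀ x, ind (al I S x) * ∑ y, ind (y ∈ (insert x S).erase x) * F (insert x S) x y
        = ∑ y, ind (y ∈ S) * (ind (al I S x) * F (insert x S) x y) := by
      intro x
      rw [Finset.mul_sum]
      refine Finset.sum_congr rfl fun y _ => ?_
      by_cases hx : al I S x
      · rw [erase_insert hx.1]; ring
      · rw [ind_false hx]; ring
    rw [Finset.sum_congr rfl fun x _ => this x, Finset.sum_comm]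
    refine Finset.sum_congr rfl fun y _ => ?_
    rw [Finset.mul_sum]
  rw [h2, mecke hI]
  rw [← mul_assoc, ← pow_two]
  congr 1
  refine br_congr fun S _ => ?_
  rw [Finset.sum_comm]
  refine Finset.sum_congr rfl fun y _ => ?_
  rw [Finset.mul_sum]
  refine Finset.sum_congr rfl fun x _ => ?_
  rw [← mul_assoc, ind_mul]
  congr 1
  refine ind_congr ?_
  constructor
  · rintro ⟨a, b⟩
    exact ⟨fun h => b.1 (mem_insert_of_mem h), a.1, fun h => b.1 (by rw [h]; exact mem_insert_self _ _), b.2⟩
  · rintro ⟨a, b, c, d⟩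
    refine ⟨⟨b, hI.down (subset_insert _ _) d⟩, ?_, d⟩
    rw [mem_insert]
    rintro (h | h)
    · exact c h
    · exact a h

end

end Pool.Agent.J6H90.DC
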