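import Pool.Agent.J6H90.DC.Ode

/-!
The bound for the number of blocks.
-/

set_option autoImplicit false
set_option linter.unusedSectionVars false
set_option linter.unusedVariables false

namespace Pool.Agent.J6H90.DC

open Finset Filter Topology

section
variable {V : Type} [Fintype V] [DecidableEq V]
variable (I : Finset V → Prop)

/-- the number of blocked vertices of the sets with `R` elements -/
noncomputable def hh (R : ℕ) : ℝ := ∑ S : Finset V, ind (I S ∧ S.card = R) * ∑ v, ind (bl I S v)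

/-- the number of blocked vertices of all sets -/
noncomputable def cc : ℝ := ∑ S : Finset V, ind (I S) * ∑ v, ind (bl I S v)

variable {I} {R : ℕ}

theorem cc_nonneg : 0 ≤ cc I :=
  Finset.sum_nonneg fun _ _ => mul_nonneg (ind_nonneg _) (Finset.sum_nonneg fun _ _ => ind_nonneg _)

theorem hh_nonneg : 0 ≤ hh I R :=
  Finset.sum_nonneg fun _ _ => mul_nonneg (ind_nonneg _) (Finset.sum_nonneg fun _ _ => ind_nonneg _)

theorem bB_le (hI : Cx R I) {z : ℝ} (hz : 0 ≤ z) (hz1 : z ≤ 1) :
    bB I z ≤ z ^ R * (hh I R + z * cc I) := by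
  have e : z ^ R * (hh I R + z * cc I) = ∑ S : Finset V,
      (z ^ R * (ind (I S ∧ S.card = R) * ∑ v, ind (bl I S v))
        + z ^ (R + 1) * (ind (I S) * ∑ v, ind (bl I S v))) := by
    rw [Finset.sum_add_distrib, ← Finset.mul_sum, ← Finset.mul_sum]
    unfold hh cc
    rw [pow_succ]; ring
  rw [e]
  unfold bB br
  refine Finset.sum_le_sum fun S _ => ?_
  beta_reduce
  have h0 : 0 ≤ ∑ v, ind (bl I S v) := Finset.sum_nonneg fun _ _ => ind_nonneg _
  by_cases hS : I S
  swap
  · rw [ind_false hS, ind_false (fun h : I S ∧ S.card = R => hS h.1)]; simp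
  rw [ind_true hS, one_mul, one_mul]
  rcases lt_trichotomy S.card R with h | h | h
  · have : ∑ v, ind (bl I S v) = 0 := by
      refine Finset.sum_eq_zero fun v _ => ind_false fun hv => ?_
      obtain ⟨A, hA, hAc, _⟩ := hI.blk hS hv.1 hv.2
      have := card_le_card hA
      omega
    rw [this]; simp
  · rw [ind_true (show I S ∧ S.card = R from ⟨hS, h⟩), one_mul, h]
    have : 0 ≤ z ^ (R + 1) * ∑ v, ind (bl I S v) := mul_nonneg (pow_nonneg hz _) h0
    linarith
  · rw [ind_false (fun h2 : I S ∧ S.card = R => by omega), zero_mul, mul_zero, zero_add]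
    exact mul_le_mul_of_nonneg_right (pow_le_pow_of_le_one hz hz1 (by omega)) h0

theorem hh_pos (hI : Cx R I) {S : Finset V} {v : V} (hS : I S) (hv : bl I S v) : 1 ≤ hh I R := by
  obtain ⟨A, hA, hAc, hA2⟩ := hI.blk hS hv.1 hv.2
  have hIA : I A := hI.down hA hS
  have hb : bl I A v := ⟨fun h => hv.1 (hA h), hA2⟩
  unfold hh
  have h1 : ind (I A ∧ A.card = R) * ∑ v, ind (bl I A v)
      ≤ ∑ S : Finset V, ind (I S ∧ S.card = R) * ∑ v, ind (bl I S v) :=
    Finset.single_le_sum (f := fun S : Finset V => ind (I S ∧ S.card = R) * ∑ v, ind (bl I S v))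
      (fun S _ => mul_nonneg (ind_nonneg _) (Finset.sum_nonneg fun _ _ => ind_nonneg _)) (mem_univ _)
  have h2 : ind (bl I A v) ≤ ∑ y, ind (bl I A y) :=
    Finset.single_le_sum (f := fun y => ind (bl I A y)) (fun _ _ => ind_nonneg _) (mem_univ v)
  rw [ind_true hb] at h2
  rw [ind_true (show I A ∧ A.card = R from ⟨hIA, hAc⟩), one_mul] at h1
  linarith

theorem ee_le (hI : Cx R I) {z : ℝ} (hz : 0 < z) (hz1 : z ≤ 1) (hn : 0 < Fintype.card V) :
    ee I z ≤ z ^ R * (hh I R + z * cc I) / (Fintype.card V : ℝ) := by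
  have hnr : (0 : ℝ) < (Fintype.card V : ℝ) := by exact_mod_cast hn
  rw [ee_eq hI hz hn]
  have h1 := bB_le hI hz.le hz1
  have h2 := bZ_ge_one hI hz.le
  have h3 : 0 ≤ z ^ R * (hh I R + z * cc I) :=
    mul_nonneg (pow_nonneg hz.le _) (add_nonneg hh_nonneg (mul_nonneg hz.le cc_nonneg))
  rw [div_le_div_iff₀ (by positivity) hnr]
  have h4 : z ^ R * (hh I R + z * cc I) * 1 ≤ z ^ R * (hh I R + z * cc I) * bZ I z :=
    mul_le_mul_of_nonneg_left h2 h3
  have h5 := mul_le_mul_of_nonneg_right h1 hnr.le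
  have h6 := mul_le_mul_of_nonneg_right h4 hnr.le
  linarith

theorem F_low (hI : Cx R I) (hR : 1 ≤ R) (hn : 0 < Fintype.card V) {S : Finset V} {v : V}
    (hS : I S) (hv : bl I S v) {z : ℝ} (hz : 0 < z) (hz1 : z ≤ 1)
    (hE : z ^ R * (hh I R + z * cc I) / (Fintype.card V : ℝ) < 1) :
    R * Real.log ((Fintype.card V : ℝ) * (1 - z ^ R * (hh I R + z * cc I) / (Fintype.card V : ℝ))
        / (1 + z)) + Real.log (Fintype.card V : ℝ) - Real.log (hh I R + z * cc I)
      ≤ R * Real.log (kap I z) - Real.log (ee I z) := by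
  have hnr : (0 : ℝ) < (Fintype.card V : ℝ) := by exact_mod_cast hn
  have hh1 := hh_pos hI hS hv
  have hc := cc_nonneg (I := I)
  have hpos : 0 < hh I R + z * cc I := by
    have := mul_nonneg hz.le hc
    linarith
  have he := ee_pos hI hz hn hS hv
  have hel := ee_le hI hz hz1 hn
  have hk := kap_pos hI hR hz hn
  set E := z ^ R * (hh I R + z * cc I) / (Fintype.card V : ℝ) with hEdef
  have h1 : z * ((Fintype.card V : ℝ) * (1 - E) / (1 + z)) ≤ kap I z := by
    have h2 : kap I z = z * (Fintype.card V : ℝ) * (1 - ee I z) / (1 + z) := by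
      rw [one_sub_ee]; field_simp
    rw [h2]
    have : z * ((Fintype.card V : ℝ) * (1 - E) / (1 + z))
        = z * (Fintype.card V : ℝ) * (1 - E) / (1 + z) := by ring
    rw [this]
    apply div_le_div_of_nonneg_right _ (by linarith)
    exact mul_le_mul_of_nonneg_left (by linarith) (by positivity)
  have hX : 0 < (Fintype.card V : ℝ) * (1 - E) / (1 + z) :=
    div_pos (mul_pos hnr (by linarith)) (by linarith)
  have h3 : Real.log z + Real.log ((Fintype.card V : ℝ) * (1 - E) / (1 + z)) ≤ Real.log (kap I z) := by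
    rw [← Real.log_mul hz.ne' hX.ne']
    exact Real.log_le_log (by positivity) h1
  have h4 : Real.log (ee I z) ≤ R * Real.log z + Real.log (hh I R + z * cc I)
      - Real.log (Fintype.card V : ℝ) := by
    refine le_trans (Real.log_le_log he hel) (le_of_eq ?_)
    rw [hEdef, Real.log_div (by positivity) hnr.ne', Real.log_mul (by positivity) hpos.ne',
      Real.log_pow]
  have h5 : (R : ℝ) * (Real.log z + Real.log ((Fintype.card V : ℝ) * (1 - E) / (1 + z)))
      ≤ R * Real.log (kap I z) := mul_le_mul_of_nonneg_left h3 (Nat.cast_nonneg _)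
  linarith

/-- the lower end -/
theorem F_zero (hI : Cx R I) (hR : 1 ≤ R) (hn : 0 < Fintype.card V) {S : Finset V} {v : V}
    (hS : I S) (hv : bl I S v) {z : ℝ} (hz : 0 < z) :
    (R + 1) * Real.log (Fintype.card V : ℝ) - Real.log (hh I R)
      ≤ R * Real.log (kap I z) - Real.log (ee I z) := by
  have hnr : (0 : ℝ) < (Fintype.card V : ℝ) := by exact_mod_cast hn
  have hh1 := hh_pos hI hS hv
  set g : ℝ → ℝ := fun z => R * Real.log ((Fintype.card V : ℝ) *
      (1 - z ^ R * (hh I R + z * cc I) / (Fintype.card V : ℝ)) / (1 + z))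
      + Real.log (Fintype.card V : ℝ) - Real.log (hh I R + z * cc I) with hg
  have hR0 : R ≠ 0 := by omega
  have c1 : ContinuousAt (fun z : ℝ => (Fintype.card V : ℝ) *
      (1 - z ^ R * (hh I R + z * cc I) / (Fintype.card V : ℝ)) / (1 + z)) 0 := by
    apply ContinuousAt.div
    · fun_prop
    · fun_prop
    · norm_num
  have c2 : ContinuousAt g 0 := by
    refine ((continuousAt_const.mul (c1.log ?_)).add continuousAt_const).sub
      (ContinuousAt.log (by fun_prop) ?_)
    · simp [hR0]; omega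
    · simp; linarith
  have hg0 : g 0 = (R + 1) * Real.log (Fintype.card V : ℝ) - Real.log (hh I R) := by
    simp only [hg]
    simp [hR0]
    ring
  rw [← hg0]
  have ht : Tendsto g (𝓝[>] 0) (𝓝 (g 0)) := c2.tendsto.mono_left nhdsWithin_le_nhds
  refine le_of_tendsto ht ?_
  -- eventually
  have c3 : ContinuousAt (fun z : ℝ => z ^ R * (hh I R + z * cc I) / (Fintype.card V : ℝ)) 0 := by
    fun_prop
  have c4 : ∀ᶠ y in 𝓝 (0 : ℝ), y ^ R * (hh I R + y * cc I) / (Fintype.card V : ℝ) < 1 := by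
    have := c3.tendsto.eventually (gt_mem_nhds (show (fun z : ℝ => z ^ R * (hh I R + z * cc I) /
      (Fintype.card V : ℝ)) 0 < 1 by simp [hR0]))
    exact this
  have c5 : ∀ᶠ y in 𝓝[>] (0 : ℝ), y < min 1 z :=
    (gt_mem_nhds (lt_min one_pos hz)).filter_mono nhdsWithin_le_nhds
  filter_upwards [c4.filter_mono nhdsWithin_le_nhds, c5, self_mem_nhdsWithin] with y h1 h2 h3
  have hy0 : 0 < y := h3
  have h4 := F_low hI hR hn hS hv hy0 (lt_of_lt_of_le h2 (min_le_left _ _)).le h1
  refine le_trans h4 ?_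
  have h5 := mono hI hR hn hS hv hy0 (lt_of_lt_of_le h2 (min_le_right _ _)).le le_rfl
    (fun w hw1 _ => base_norm hI (lt_trans hy0 hw1) hn)
  linarith

/-- **the main inequality** -/
theorem main_cx (hI : Cx R I) (hR : 2 ≤ R) {S : Finset V} {v : V}
    (hS : I S) (hv : bl I S v) {α : ℝ} (hα0 : 0 < α) (hα : ∀ S, I S → (S.card : ℝ) ≤ α)
    (hα8 : 8 * α ≤ (Fintype.card V : ℝ)) :
    (1 + 8 / 10000000000) * ((Fintype.card V : ℝ) ^ R * ((Fintype.card V : ℝ) - 2 * α))
      ≤ hh I R * α ^ R := by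
  have hnr : (0 : ℝ) < (Fintype.card V : ℝ) := by linarith
  have hn : 0 < Fintype.card V := by exact_mod_cast hnr
  have hR1 : 1 ≤ R := by omega
  set n : ℝ := (Fintype.card V : ℝ) with hnn
  have hh1 := hh_pos hI hS hv
  have hc := cc_nonneg (I := I)
  -- kap 1 ≤ α
  have hk1 : kap I 1 ≤ α := by
    have hZ := bZ_pos hI zero_le_one
    unfold kap
    rw [div_le_iff₀ hZ]
    unfold bN bZ
    rw [← br_smul]
    exact br_mono zero_le_one fun S hS => by rw [mul_one]; exact hα S hS
  have hk0 := kap_pos hI hR1 one_pos hn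
  have he1 : 1 - 2 * α / n ≤ ee I 1 := by
    have : 1 - ee I 1 ≤ 2 * α / n := by
      rw [one_sub_ee, one_mul]
      apply div_le_div_of_nonneg_right _ hnr.le
      linarith
    linarith
  have he1' : 3 / 4 ≤ ee I 1 := by
    have : 2 * α / n ≤ 1 / 4 := by
      rw [div_le_iff₀ hnr]; linarith
    linarith
  -- continuity
  have hcont : ContinuousOn (ee I) (Set.Ioi 0) := fun z hz =>
    (ee_hasDeriv hI hz hn).continuousAt.continuousWithinAt
  -- a point with small `ee`
  obtain ⟨z0, hz0, hz01, hez0⟩ : ∃ z0 : ℝ, 0 < z0 ∧ z0 ≤ 1 ∧ ee I z0 ≤ 1 / 4 := by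
    set q : ℝ := n / (8 * (hh I R + cc I)) with hq
    have hq0 : 0 < q := by rw [hq]; positivity
    refine ⟨min 1 q, lt_min one_pos hq0, min_le_left _ _, ?_⟩
    have h1 : 0 < min 1 q := lt_min one_pos hq0
    have h2 : min 1 q ≤ 1 := min_le_left _ _
    refine le_trans (ee_le hI h1 h2 hn) ?_
    rw [div_le_iff₀ hnr]
    have h3 : (min 1 q) ^ R ≤ min 1 q := by
      calc (min 1 q) ^ R ≤ (min 1 q) ^ 1 := pow_le_pow_of_le_one h1.le h2 hR1
        _ = min 1 q := pow_one _
    have h4 : hh I R + min 1 q * cc I ≤ hh I R + cc I := by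
      have := mul_le_mul_of_nonneg_right h2 hc
      linarith
    calc (min 1 q) ^ R * (hh I R + min 1 q * cc I) ≤ q * (hh I R + cc I) :=
          mul_le_mul (le_trans h3 (min_le_right _ _)) h4 (by positivity) hq0.le
      _ = n / 8 := by rw [hq]; field_simp
      _ ≤ 1 / 4 * n := by linarith
  -- the first point with large `ee`
  have hsub1 : Set.Icc z0 1 ⊆ Set.Ioi (0 : ℝ) := fun z hz => lt_of_lt_of_le hz0 hz.1
  have hcl2 : IsClosed (Set.Icc z0 1 ∩ (ee I) ⁻¹' Set.Ici (3 / 4)) :=
    (hcont.mono hsub1).preimage_isClosed_of_isClosed isClosed_Icc isClosed_Ici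
  have hcp2 : IsCompact (Set.Icc z0 1 ∩ (ee I) ⁻¹' Set.Ici (3 / 4)) :=
    isCompact_Icc.of_isClosed_subset hcl2 Set.inter_subset_left
  obtain ⟨z2, hz2, hz2min⟩ := hcp2.exists_isLeast ⟨1, ⟨hz01, le_rfl⟩, he1'⟩
  have hz2e : 3 / 4 ≤ ee I z2 := hz2.2
  have hsub2 : Set.Icc z0 z2 ⊆ Set.Ioi (0 : ℝ) := fun z hz => lt_of_lt_of_le hz0 hz.1
  have hcl1 : IsClosed (Set.Icc z0 z2 ∩ (ee I) ⁻¹' Set.Iic (1 / 4)) :=
    (hcont.mono hsub2).preimage_isClosed_of_isClosed isClosed_Icc isClosed_Iic
  have hcp1 : IsCompact (Set.Icc z0 z2 ∩ (ee I) ⁻¹' Set.Iic (1 / 4)) :=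
    isCompact_Icc.of_isClosed_subset hcl1 Set.inter_subset_left
  obtain ⟨z1, hz1, hz1max⟩ := hcp1.exists_isGreatest ⟨z0, ⟨le_rfl, hz2.1.1⟩, hez0⟩
  have hz1e : ee I z1 ≤ 1 / 4 := hz1.2
  have hz1pos : 0 < z1 := hsub2 hz1.1
  have hz2pos : 0 < z2 := hsub1 hz2.1
  have hep1 := ee_pos hI hz1pos hn hS hv
  have hep2 := ee_pos hI hz2pos hn hS hv
  -- three steps
  have s1 := mono hI hR1 hn hS hv hz2pos hz2.1.2 le_rfl
    (fun w hw1 _ => base_norm hI (lt_trans hz2pos hw1) hn)
  have s2 := mono hI hR1 hn hS hv hz1pos hz1.1.2 (c := 1 + 8 / 10000000000) (by norm_num)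
    (fun w hw1 hw2 => by
      have hw0 : 0 < w := lt_trans hz1pos hw1
      have hwle : w ≤ 1 := (lt_of_lt_of_le hw2 hz2.1.2).le
      have hwz0 : z0 ≤ w := le_trans hz1.1.1 hw1.le
      refine gain_norm hI hR hw0 hwle hn ?_ ?_
      · by_contra hcon
        rw [not_le] at hcon
        exact absurd (hz1max ⟨⟨hwz0, hw2.le⟩, hcon.le⟩) (not_le.2 hw1)
      · by_contra hcon
        rw [not_le] at hcon
        exact absurd (hz2min ⟨⟨hwz0, hwle⟩, hcon.le⟩) (not_le.2 hw2))
  have s3 := F_zero hI hR1 hn hS hv hz1pos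
  -- logarithms
  have l1 : Real.log (ee I z1) + 1 ≤ Real.log (ee I z2) := by
    have a1 : Real.log (ee I z1) ≤ Real.log (1 / 4) := Real.log_le_log hep1 hz1e
    have a2 : Real.log (3 / 4) ≤ Real.log (ee I z2) := Real.log_le_log (by norm_num) hz2e
    have a3 : (1 : ℝ) ≤ Real.log 3 := by
      rw [Real.le_log_iff_exp_le (by norm_num)]
      linarith [Real.exp_one_lt_d9]
    have a4 : Real.log (3 / 4) = Real.log 3 + Real.log (1 / 4) := by
      rw [← Real.log_mul (by norm_num) (by norm_num)]; norm_num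
    linarith
  have l2 : Real.log (kap I 1) ≤ Real.log α := Real.log_le_log hk0 hk1
  have hlow : 0 < 1 - 2 * α / n := by
    have : 2 * α / n ≤ 1 / 4 := by rw [div_le_iff₀ hnr]; linarith
    linarith
  have l3 : Real.log (1 - 2 * α / n) ≤ Real.log (ee I 1) := Real.log_le_log hlow he1
  have l4 : (R : ℝ) * Real.log (kap I 1) ≤ R * Real.log α :=
    mul_le_mul_of_nonneg_left l2 (Nat.cast_nonneg _)
  have l5 : Real.log (1 + 8 / 10000000000) ≤ 8 / 10000000000 := by
    have := Real.log_le_sub_one_of_pos (show (0 : ℝ) < 1 + 8 / 10000000000 by norm_num)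
    linarith
  have tot : Real.log (1 + 8 / 10000000000) + (R * Real.log n + Real.log (n - 2 * α))
      ≤ Real.log (hh I R) + R * Real.log α := by
    have e1 : Real.log (1 - 2 * α / n) = Real.log (n - 2 * α) - Real.log n := by
      rw [← Real.log_div (by linarith) hnr.ne']
      congr 1
      field_simp
    rw [e1] at l3
    linarith
  have hnα : 0 < n - 2 * α := by linarith
  have e2 : Real.log ((1 + 8 / 10000000000) * (n ^ R * (n - 2 * α)))
      = Real.log (1 + 8 / 10000000000) + (R * Real.log n + Real.log (n - 2 * α)) := by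
    rw [Real.log_mul (by norm_num) (by positivity), Real.log_mul (by positivity) hnα.ne',
      Real.log_pow]
  have e3 : Real.log (hh I R * α ^ R) = Real.log (hh I R) + R * Real.log α := by
    rw [Real.log_mul (by linarith) (by positivity), Real.log_pow]
  rw [← e2, ← e3] at tot
  exact (Real.log_le_log_iff (by positivity) (by positivity)).1 tot

end

end Pool.Agent.J6H90.DC
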