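import Pool.Agent.J6H90.DC.Lower

/-!
The gain in the lower bound for the variance.
-/

set_option autoImplicit false
set_option linter.unusedSectionVars false
set_option linter.unusedVariables false

namespace Pool.Agent.J6H90.DC

open Finset

section
variable {V : Type} [Fintype V] [DecidableEq V]
variable {I : Finset V → Prop} {z : ℝ} {R : ℕ}

theorem nonpr_iff (hI : Cx R I) {S : Finset V} {x y : V} :
    (al I S x ∧ al I S y ∧ ¬ pr I S x y) ↔ ((x = y ∧ al I S x) ∨ adj I S x y) := by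
  constructor
  · rintro ⟨h1, h2, h3⟩
    by_cases h : x = y
    · exact Or.inl ⟨h, h1⟩
    · exact Or.inr ⟨h, h1, h2, fun hc => h3 ⟨h1.1, h2.1, h, hc⟩⟩
  · rintro (⟨h1, h2⟩ | h)
    · exact ⟨h2, h1 ▸ h2, fun hc => hc.2.2.1 h1⟩
    · exact ⟨h.2.1, h.2.2.1, fun hc => h.2.2.2 hc.2.2.2⟩

theorem nonpr_sum (hI : Cx R I) (S : Finset V) (f : V → V → ℝ) :
    ∑ x, ∑ y, ind (al I S x ∧ al I S y ∧ ¬ pr I S x y) * f x y
      = ∑ x, ind (al I S x) * f x x + ∑ x, ∑ y, ind (adj I S x y) * f x y := by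
  rw [← Finset.sum_add_distrib]
  refine Finset.sum_congr rfl fun x _ => ?_
  have : ∀ y, ind (al I S x ∧ al I S y ∧ ¬ pr I S x y) * f x y
      = ind (x = y) * (ind (al I S x) * f x x) + ind (adj I S x y) * f x y := by
    intro y
    by_cases hxy : x = y
    · subst hxy
      rw [ind_true (show x = x from rfl), ind_false (fun h : adj I S x x => h.1 rfl),
        ind_congr (show (al I S x ∧ al I S x ∧ ¬ pr I S x x) ↔ al I S x from
          ⟨fun h => h.1, fun h => ⟨h, h, fun hc => hc.2.2.1 rfl⟩⟩)]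
      ring
    · rw [ind_false hxy, ind_congr (nonpr_iff hI (S := S) (x := x) (y := y)),
        ind_congr (show ((x = y ∧ al I S x) ∨ adj I S x y) ↔ adj I S x y from
          ⟨fun h => h.resolve_left (fun h => hxy h.1), Or.inr⟩)]
      ring
  rw [Finset.sum_congr rfl fun y _ => this y, Finset.sum_add_distrib]
  congr 1
  rw [Finset.sum_eq_single x]
  · rw [ind_true rfl, one_mul]
  · intro b _ hb; rw [ind_false (fun h => hb h.symm), zero_mul]
  · intro h; exact absurd (mem_univ x) h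

/-- the change of the degree -/
theorem dg_change (hI : Cx R I) {S : Finset V} {x y : V} (h : pr I S x y) :
    |dg I (insert y S) x - dg I S x| ≤ ∑ w, ind (T I S x y w) + ∑ u, ind (KK I S x u y) := by
  obtain ⟨hx, hy, hxy, hI2⟩ := h
  have hax : al I S x := ⟨hx, hI.down (insert_subset_insert x (subset_insert y S)) hI2⟩
  have hay : al I S y := ⟨hy, hI.down (subset_insert x _) hI2⟩
  have hax' : al I (insert y S) x := ⟨by rw [mem_insert, not_or]; exact ⟨hxy, hx⟩, hI2⟩
  have hna : ¬ adj I S x y := fun hc => hc.2.2.2 hI2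
  unfold dg
  rw [← Finset.sum_sub_distrib, ← Finset.sum_add_distrib]
  refine le_trans (Finset.abs_sum_le_sum_abs _ _) (Finset.sum_le_sum fun w _ => ?_)
  have n1 := ind_nonneg (T I S x y w)
  have n2 := ind_nonneg (KK I S x w y)
  by_cases h1 : adj I (insert y S) x w
  · by_cases h2 : adj I S x w
    · rw [ind_true h1, ind_true h2, sub_self, abs_zero]; linarith
    · have haw : al I S w := by
        refine ⟨fun hc => h1.2.2.1.1 (mem_insert_of_mem hc), ?_⟩
        exact hI.down (insert_subset_insert w (subset_insert y S)) h1.2.2.1.2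
      have hT : T I S x y w := by
        rw [T_iff hI]
        refine ⟨hay, h1, ?_⟩
        by_contra hc
        exact h2 ⟨h1.1, hax, haw, hc⟩
      rw [ind_true h1, ind_false h2, ind_true hT, sub_zero, abs_one]; linarith
  · by_cases h2 : adj I S x w
    · have hK : KK I S x w y := by
        refine ⟨h2, ?_, hxy, hna⟩
        by_contra hc
        apply h1
        have hwy : w ≠ y := by
          intro hwy
          apply h2.2.2.2
          rw [hwy]; exact hI2
        refine ⟨h2.1, hax', ⟨?_, ?_⟩, ?_⟩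
        · rw [mem_insert, not_or]; exact ⟨hwy, h2.2.2.1.1⟩
        · by_contra hc2
          exact hc ⟨hwy, h2.2.2.1, hay, hc2⟩
        · intro hc2
          apply h2.2.2.2
          exact hI.down (insert_subset_insert x (insert_subset_insert w (subset_insert y S))) hc2
      rw [ind_false h1, ind_true h2, ind_true hK, zero_sub, abs_neg, abs_one]; linarith
    · rw [ind_false h1, ind_false h2, sub_self, abs_zero]; linarith

/-- the base inequality -/
theorem base_ineq (hI : Cx R I) (hz : 0 ≤ z) (hZ : 0 < bZ I z) :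
    bN I z ^ 2 ≤ (bQ I z - bN I z ^ 2 / bZ I z) *
      (z * ((Fintype.card V : ℝ) * bZ I z + (R - 1) * bB I z - bD I z R)) := by
  have h := var_ge hI hz hZ (fun _ _ => 1)
  have h1 : z * br I z (fun S => ∑ x, ind (al I S x) * (fun _ _ => (1 : ℝ)) S x) = bN I z := by
    rw [N_eq hI]; unfold bA; simp
  have h2 := dv_sq hI (z := z) (fun _ _ => 1)
  have h3 : br I z (fun S => ∑ x, ∑ y, ind (al I S x ∧ al I S y ∧ ¬ pr I S x y) * ((1 : ℝ) * 1))
      = bA I z + bb I z := by
    unfold bA bb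
    rw [← br_add]
    refine br_congr fun S hS => ?_
    rw [nonpr_sum hI S (fun _ _ => (1 : ℝ) * 1)]
    simp only [mul_one]
    rfl
  have h4 : br I z (fun S => ∑ x, ∑ y, ind (pr I S x y) * (((1 : ℝ) - 1) * (1 - 1))) = 0 := by
    have : br I z (fun S => ∑ x, ∑ y, ind (pr I S x y) * (((1 : ℝ) - 1) * (1 - 1)))
        = br I z (fun _ => 0) := br_congr fun S hS => by simp
    rw [this]; unfold br; simp
  have h5 : br I z (fun S => ∑ x, ind (al I S x) * (1 : ℝ) ^ 2) = bA I z := by
    unfold bA; simp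
  rw [h3, h4, h5] at h2
  rw [h1, h2] at h
  have hN := N_eq hI (z := z)
  have ht := total hI (z := z)
  have hb := zb_eq2 hI (z := z)
  have e : z * bA I z + z ^ 2 * (bA I z + bb I z) + z ^ 2 * 0
      = z * ((Fintype.card V : ℝ) * bZ I z + (R - 1) * bB I z - bD I z R) := by
    rw [ht, hN]
    have : z ^ 2 * bb I z = z * (R * bB I z - bD I z R) := by rw [← hb]; ring
    rw [mul_add, this]; ring
  rw [e] at h
  exact h

/-- the field -/
noncomputable def fld (I : Finset V → Prop) (d θ : ℝ) (S : Finset V) (x : V) : ℝ :=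
  1 - θ * (min (dg I S x) (2 * d) / d)

theorem tau_bd {d a : ℝ} (hd : 0 < d) (ha : 0 ≤ a) : 0 ≤ min a (2 * d) / d ∧ min a (2 * d) / d ≤ 2 := by
  constructor
  · exact div_nonneg (le_min ha (by linarith)) hd.le
  · rw [div_le_iff₀ hd]; exact min_le_right _ _

theorem tau_lip {d a b : ℝ} (hd : 0 < d) (ha : 0 ≤ a) (hb : 0 ≤ b) :
    |min a (2 * d) / d - min b (2 * d) / d| ≤ |a - b| / d := by
  rw [← sub_div, abs_div, abs_of_pos hd]
  apply div_le_div_of_nonneg_right _ hd.le
  have := abs_min_sub_min_le_max a (2 * d) b (2 * d)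
  rwa [sub_self, abs_zero, max_eq_left (abs_nonneg _)] at this

theorem fld_sq_le (hI : Cx R I) (hz : 0 < z) {d θ : ℝ} (hd : 0 < d) (hθ : 0 ≤ θ) :
    br I z (fun S => dv I z (fld I d θ) S ^ 2)
      ≤ z * (1 + z) * (bA I z - 2 * θ * br I z (fun S => ∑ x, ind (al I S x) * (min (dg I S x) (2 * d) / d))
          + 4 * θ ^ 2 * bA I z)
        + z ^ 2 * (bb I z - 2 * θ * br I z (fun S => ∑ x, dg I S x * (min (dg I S x) (2 * d) / d))
          + 4 * θ ^ 2 * bb I z)
        + z ^ 2 * (2 * θ ^ 2 / d * (bt I z + bK I z)) := by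
  rw [dv_sq hI]
  set τ : Finset V → V → ℝ := fun S x => min (dg I S x) (2 * d) / d with hτ
  have hb : ∀ S x, 0 ≤ τ S x ∧ τ S x ≤ 2 := fun S x => tau_bd hd (dg_nonneg S x)
  -- squares
  have hsq : ∀ S, ∑ x, ind (al I S x) * fld I d θ S x ^ 2
      ≤ ∑ x, ind (al I S x) - 2 * θ * ∑ x, ind (al I S x) * τ S x + 4 * θ ^ 2 * ∑ x, ind (al I S x) := by
    intro S
    rw [Finset.mul_sum, Finset.mul_sum, ← Finset.sum_sub_distrib, ← Finset.sum_add_distrib]
    refine Finset.sum_le_sum fun x _ => ?_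
    have h1 : fld I d θ S x = 1 - θ * τ S x := rfl
    have h2 : fld I d θ S x ^ 2 ≤ 1 - 2 * θ * τ S x + 4 * θ ^ 2 := by
      rw [h1]
      have : τ S x ^ 2 ≤ 4 := by nlinarith [(hb S x).1, (hb S x).2]
      nlinarith [mul_nonneg (sq_nonneg θ) (show 0 ≤ 4 - τ S x ^ 2 by linarith)]
    have := mul_le_mul_of_nonneg_left h2 (ind_nonneg (al I S x))
    linarith
  have t1 : br I z (fun S => ∑ x, ind (al I S x) * fld I d θ S x ^ 2)
      ≤ bA I z - 2 * θ * br I z (fun S => ∑ x, ind (al I S x) * τ S x) + 4 * θ ^ 2 * bA I z := by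
    unfold bA
    rw [← br_smul, ← br_smul, ← br_sub, ← br_add]
    exact br_mono hz.le fun S hS => hsq S
  have t2 : br I z (fun S => ∑ x, ∑ y, ind (al I S x ∧ al I S y ∧ ¬ pr I S x y) *
      (fld I d θ S x * fld I d θ S y))
      ≤ (bA I z - 2 * θ * br I z (fun S => ∑ x, ind (al I S x) * τ S x) + 4 * θ ^ 2 * bA I z)
        + (bb I z - 2 * θ * br I z (fun S => ∑ x, dg I S x * τ S x) + 4 * θ ^ 2 * bb I z) := by
    unfold bA bb
    rw [← br_smul, ← br_smul, ← br_smul, ← br_smul, ← br_sub, ← br_add, ← br_sub, ← br_add, ← br_add]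
    refine br_mono hz.le fun S hS => ?_
    rw [nonpr_sum hI S (fun x y => fld I d θ S x * fld I d θ S y)]
    refine add_le_add ?_ ?_
    · refine le_trans (le_of_eq ?_) (hsq S)
      exact Finset.sum_congr rfl fun x _ => by ring
    · have e1 : ∑ x, ∑ y, ind (adj I S x y) * (fld I d θ S x * fld I d θ S y)
          ≤ ∑ x, ∑ y, (ind (adj I S x y) - θ * (ind (adj I S x y) * τ S x)
            - θ * (ind (adj I S x y) * τ S y) + 4 * θ ^ 2 * ind (adj I S x y)) := by
        refine Finset.sum_le_sum fun x _ => Finset.sum_le_sum fun y _ => ?_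
        have h1 : fld I d θ S x = 1 - θ * τ S x := rfl
        have h1' : fld I d θ S y = 1 - θ * τ S y := rfl
        have h2 : fld I d θ S x * fld I d θ S y ≤ 1 - θ * τ S x - θ * τ S y + 4 * θ ^ 2 := by
          rw [h1, h1']
          have : τ S x * τ S y ≤ 2 * 2 :=
            mul_le_mul (hb S x).2 (hb S y).2 (hb S y).1 (by norm_num)
          nlinarith [mul_nonneg (sq_nonneg θ) (show 0 ≤ 4 - τ S x * τ S y by linarith)]
        have := mul_le_mul_of_nonneg_left h2 (ind_nonneg (adj I S x y))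
        linarith
      refine le_trans e1 (le_of_eq ?_)
      have e2 : ∑ x, ∑ y, ind (adj I S x y) * τ S y = ∑ x, dg I S x * τ S x := by
        rw [Finset.sum_comm]
        refine Finset.sum_congr rfl fun y _ => ?_
        unfold dg
        rw [Finset.sum_mul]
        refine Finset.sum_congr rfl fun x _ => ?_
        rw [ind_congr (show adj I S x y ↔ adj I S y x from ⟨adj_symm, adj_symm⟩)]
      have e3 : ∑ x, ∑ y, ind (adj I S x y) * τ S x = ∑ x, dg I S x * τ S x := by
        refine Finset.sum_congr rfl fun y _ => ?_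
        unfold dg
        rw [Finset.sum_mul]
      have e4 : ∑ x, ∑ y, ind (adj I S x y) = ∑ x, dg I S x := rfl
      have e5 : ∑ x, ∑ y, (ind (adj I S x y) - θ * (ind (adj I S x y) * τ S x)
            - θ * (ind (adj I S x y) * τ S y) + 4 * θ ^ 2 * ind (adj I S x y))
          = ∑ x, ∑ y, ind (adj I S x y) - θ * ∑ x, ∑ y, ind (adj I S x y) * τ S x
            - θ * ∑ x, ∑ y, ind (adj I S x y) * τ S y + 4 * θ ^ 2 * ∑ x, ∑ y, ind (adj I S x y) := by
        simp only [Finset.sum_add_distrib, Finset.sum_sub_distrib, Finset.mul_sum]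
      rw [e5, e2, e3, e4]; ring
  have t3 : br I z (fun S => ∑ x, ∑ y, ind (pr I S x y) *
      ((fld I d θ (insert y S) x - fld I d θ S x) * (fld I d θ (insert x S) y - fld I d θ S y)))
      ≤ 2 * θ ^ 2 / d * (bt I z + bK I z) := by
    unfold bt bK
    rw [← br_add, ← br_smul]
    refine br_mono hz.le fun S hS => ?_
    have e6 : ∑ x, ∑ u, ∑ y, ind (KK I S x u y) = ∑ x, ∑ y, ∑ u, ind (KK I S x u y) :=
      Finset.sum_congr rfl fun x _ => Finset.sum_comm
    rw [e6, ← Finset.sum_add_distrib, Finset.mul_sum]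
    refine Finset.sum_le_sum fun x _ => ?_
    rw [← Finset.sum_add_distrib, Finset.mul_sum]
    refine Finset.sum_le_sum fun y _ => ?_
    have hc0 : 0 ≤ 2 * θ ^ 2 / d * (∑ w, ind (T I S x y w) + ∑ u, ind (KK I S x u y)) := by
      have : 0 ≤ ∑ w, ind (T I S x y w) := Finset.sum_nonneg fun _ _ => ind_nonneg _
      have : 0 ≤ ∑ u, ind (KK I S x u y) := Finset.sum_nonneg fun _ _ => ind_nonneg _
      positivity
    by_cases hp : pr I S x y
    · rw [ind_true hp, one_mul]
      have h1 : (fld I d θ (insert y S) x - fld I d θ S x) * (fld I d θ (insert x S) y - fld I d θ S y)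
          = θ ^ 2 * ((τ (insert y S) x - τ S x) * (τ (insert x S) y - τ S y)) := by
        show (1 - θ * τ (insert y S) x - (1 - θ * τ S x)) * (1 - θ * τ (insert x S) y - (1 - θ * τ S y)) = _
        ring
      rw [h1]
      have h2 : |τ (insert y S) x - τ S x| ≤ |dg I (insert y S) x - dg I S x| / d :=
        tau_lip hd (dg_nonneg _ _) (dg_nonneg _ _)
      have h3 : |τ (insert x S) y - τ S y| ≤ 2 := by
        rw [abs_le]
        constructor <;> linarith [(hb (insert x S) y).1, (hb (insert x S) y).2, (hb S y).1, (hb S y).2]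
      have h4 : (τ (insert y S) x - τ S x) * (τ (insert x S) y - τ S y)
          ≤ |dg I (insert y S) x - dg I S x| / d * 2 := by
        refine le_trans (le_abs_self _) ?_
        rw [abs_mul]
        exact mul_le_mul h2 h3 (abs_nonneg _) (div_nonneg (abs_nonneg _) hd.le)
      have h5 := dg_change hI hp
      have h6 : |dg I (insert y S) x - dg I S x| / d * 2
          ≤ (∑ w, ind (T I S x y w) + ∑ u, ind (KK I S x u y)) / d * 2 :=
        mul_le_mul_of_nonneg_right (div_le_div_of_nonneg_right h5 hd.le) (by norm_num)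
      calc θ ^ 2 * ((τ (insert y S) x - τ S x) * (τ (insert x S) y - τ S y))
          ≤ θ ^ 2 * ((∑ w, ind (T I S x y w) + ∑ u, ind (KK I S x u y)) / d * 2) :=
            mul_le_mul_of_nonneg_left (le_trans h4 h6) (sq_nonneg θ)
        _ = 2 * θ ^ 2 / d * (∑ w, ind (T I S x y w) + ∑ u, ind (KK I S x u y)) := by ring
    · rw [ind_false hp, zero_mul]; exact hc0
  have u1 := mul_le_mul_of_nonneg_left t1 hz.le
  have u2 := mul_le_mul_of_nonneg_left t2 (sq_nonneg z)
  have u3 := mul_le_mul_of_nonneg_left t3 (sq_nonneg z)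
  have e : z * (1 + z) * (bA I z - 2 * θ * br I z (fun S => ∑ x, ind (al I S x) * τ S x)
          + 4 * θ ^ 2 * bA I z)
      = z * (bA I z - 2 * θ * br I z (fun S => ∑ x, ind (al I S x) * τ S x) + 4 * θ ^ 2 * bA I z)
      + z ^ 2 * (bA I z - 2 * θ * br I z (fun S => ∑ x, ind (al I S x) * τ S x)
          + 4 * θ ^ 2 * bA I z) := by ring
  rw [e]
  rw [mul_add (z ^ 2) _ (bb I z - _ + _)] at u2
  linarith

/-- the arithmetic of the gain -/
theorem arith_gain {z R A B b D K t d T1 T2 C X Q N M : ℝ} (hz : 0 < z) (hz1 : z ≤ 1) (hR : 2 ≤ R)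
    (hA : 0 < A) (hd : 0 < d) (hb : b = d * A) (hzb : z * b = R * B - D)
    (hD0 : 0 ≤ D) (hD : D ≤ R * B / 1000000) (hAB : A ≤ 3 * B)
    (hK0 : 0 ≤ K) (hK : z ^ 2 * K ≤ 2 * R * D) (ht2 : z * t ≤ (R - 1) * b)
    (hT0 : 0 ≤ T1) (hT1 : T1 ≤ A) (hT2 : T2 = d * T1 + C / d) (hC : d ^ 2 * A / 2000 ≤ C)
    (hN : N = z * A) (hM : M = A + N + R * B) (hQ : 0 ≤ Q)
    (hX : X ≤ z * (1 + z) * (A - 2 * (1 / 110000) * T1 + 4 * (1 / 110000) ^ 2 * A)
      + z ^ 2 * (b - 2 * (1 / 110000) * T2 + 4 * (1 / 110000) ^ 2 * b)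
      + z ^ 2 * (2 * (1 / 110000) ^ 2 / d * (t + K)))
    (hvar : (z * (A - 1 / 110000 * T1)) ^ 2 ≤ Q * X) :
    N ^ 2 * (1 + 8 / 10000000000) ≤ Q * (z * M) := by
  obtain ⟨θ, hθ⟩ : ∃ θ : ℝ, θ = 1 / 110000 := ⟨_, rfl⟩
  rw [← hθ] at hX hvar
  obtain ⟨ρ, hρ⟩ : ∃ ρ, ρ = z * d := ⟨_, rfl⟩
  have hρ0 : 0 < ρ := by rw [hρ]; positivity
  have hρA : ρ * A = R * B - D := by rw [hρ, ← hzb, hb]; ring
  have hB0 : 0 < B := by linarith
  have hRB : 0 < R * B := by positivity
  have hN0 : 0 < N := by rw [hN]; positivity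
  -- R ≤ 3.04 ρ
  have hRρ : R ≤ 304 / 100 * ρ := by
    have h1 : R * A ≤ 304 / 100 * ρ * A := by
      have e2 : 304 / 100 * ρ * A = 304 / 100 * (R * B - D) := by rw [← hρA]; ring
      rw [e2]
      have h3 := mul_le_mul_of_nonneg_left hAB (show 0 ≤ R by linarith)
      linarith
    exact le_of_mul_le_mul_right h1 hA
  -- the last term
  have hlast : z ^ 2 * (2 * θ ^ 2 / d * (t + K)) ≤ θ ^ 2 * (62 / 10 * ρ * N) := by
    have h1 : z ^ 2 * t / d ≤ (R - 1) * N := by
      rw [div_le_iff₀ hd]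
      have := mul_le_mul_of_nonneg_left ht2 hz.le
      rw [hN]; rw [hb] at this; linarith
    have h2 : z ^ 2 * K / d ≤ R * N / 100 := by
      rw [div_le_iff₀ hd]
      -- z²K ≤ 2RD ≤ 2R·RB/10^6, RB ≤ 1.01 ρA
      have h3 : R * B ≤ 101 / 100 * (ρ * A) := by rw [hρA]; linarith
      have h4 : R * D ≤ R * (R * B / 1000000) := mul_le_mul_of_nonneg_left hD (by linarith)
      have h5 : R * (R * B) ≤ R * (101 / 100 * (ρ * A)) := mul_le_mul_of_nonneg_left h3 (by linarith)
      have h6 : R * N / 100 * d = R * (ρ * A) / 100 := by rw [hN, hρ]; ring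
      have h7 : 0 < R * (ρ * A) := by positivity
      rw [h6]; linarith
    have e : z ^ 2 * (2 * θ ^ 2 / d * (t + K)) = θ ^ 2 * (2 * (z ^ 2 * t / d) + 2 * (z ^ 2 * K / d)) := by
      field_simp
    rw [e]
    refine mul_le_mul_of_nonneg_left ?_ (sq_nonneg θ)
    have h8 := mul_le_mul_of_nonneg_right hRρ hN0.le
    have h9 : 0 ≤ ρ * N := by positivity
    linarith
  -- the main terms
  have hCd : d * A / 2000 ≤ C / d := by
    rw [le_div_iff₀ hd]; linarith
  have hmain : X ≤ N * ((1 + z + ρ) * (1 - 2 * θ * (T1 / A) + 4 * θ ^ 2) - 2 * θ * (1 / 2000) * ρ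
      + θ ^ 2 * (62 / 10) * ρ) := by
    have e1 : z * (1 + z) * (A - 2 * θ * T1 + 4 * θ ^ 2 * A)
        = N * ((1 + z) * (1 - 2 * θ * (T1 / A) + 4 * θ ^ 2)) := by
      rw [hN]; field_simp
    have h2 : z ^ 2 * (b - 2 * θ * T2 + 4 * θ ^ 2 * b)
        ≤ N * (ρ * (1 - 2 * θ * (T1 / A) + 4 * θ ^ 2) - 2 * θ * (1 / 2000) * ρ) := by
      have e2 : N * (ρ * (1 - 2 * θ * (T1 / A) + 4 * θ ^ 2) - 2 * θ * (1 / 2000) * ρ)
          = z ^ 2 * (b - 2 * θ * (d * T1 + d * A / 2000) + 4 * θ ^ 2 * b) := by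
        rw [hN, hρ, hb]; field_simp; ring
      rw [e2]
      refine mul_le_mul_of_nonneg_left ?_ (sq_nonneg z)
      have hθ0 : 0 ≤ θ := by rw [hθ]; norm_num
      have : 2 * θ * (d * T1 + d * A / 2000) ≤ 2 * θ * T2 := by
        apply mul_le_mul_of_nonneg_left _ (by linarith)
        rw [hT2]; linarith
      linarith
    have e3 : N * ((1 + z + ρ) * (1 - 2 * θ * (T1 / A) + 4 * θ ^ 2) - 2 * θ * (1 / 2000) * ρ
      + θ ^ 2 * (62 / 10) * ρ)
        = N * ((1 + z) * (1 - 2 * θ * (T1 / A) + 4 * θ ^ 2))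
        + N * (ρ * (1 - 2 * θ * (T1 / A) + 4 * θ ^ 2) - 2 * θ * (1 / 2000) * ρ)
        + θ ^ 2 * (62 / 10 * ρ * N) := by ring
    rw [e3, ← e1]
    linarith
  -- compare with zM
  obtain ⟨τ, hτ⟩ : ∃ τ, τ = T1 / A := ⟨_, rfl⟩
  rw [← hτ] at hmain
  have hτ0 : 0 ≤ τ := by rw [hτ]; positivity
  have hτ1 : τ ≤ 1 := by rw [hτ, div_le_one hA]; exact hT1
  obtain ⟨m, hm⟩ : ∃ m, m = 1 + z + ρ := ⟨_, rfl⟩
  have hm0 : 0 < m := by rw [hm]; positivity
  have hρm : m ≤ 5 * ρ := by
    rw [hm]; linarith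
  have hX2 : X ≤ N * m * (1 - 2 * θ * τ - 8 / 10000000000) := by
    refine le_trans hmain ?_
    rw [← hm]
    have : (m * (1 - 2 * θ * τ + 4 * θ ^ 2) - 2 * θ * (1 / 2000) * ρ + θ ^ 2 * (62 / 10) * ρ)
        ≤ m * (1 - 2 * θ * τ - 8 / 10000000000) := by
      rw [hθ]
      have hρm2 : ρ ≤ m := by rw [hm]; linarith
      linarith
    calc _ ≤ N * (m * (1 - 2 * θ * τ - 8 / 10000000000)) := mul_le_mul_of_nonneg_left this hN0.le
      _ = _ := by ring
  have hNm : N * m ≤ z * M := by
    have e1 : N * m = z * (A + N + (R * B - D)) := by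
      rw [← hρA, hm, hN, hρ]; ring
    rw [e1, hM]
    exact mul_le_mul_of_nonneg_left (by linarith) hz.le
  have hnum : N ^ 2 * (1 - 2 * θ * τ) ≤ (z * (A - θ * T1)) ^ 2 := by
    have e1 : z * (A - θ * T1) = N * (1 - θ * τ) := by
      rw [hN, hτ]; field_simp
    rw [e1]
    have : N ^ 2 * (1 - 2 * θ * τ) ≤ N ^ 2 * (1 - θ * τ) ^ 2 :=
      mul_le_mul_of_nonneg_left (by nlinarith [sq_nonneg (θ * τ)]) (sq_nonneg N)
    calc _ ≤ _ := this
      _ = _ := by ring
  have hpos : 0 < 1 - 2 * θ * τ := by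
    have : θ * τ ≤ θ * 1 := mul_le_mul_of_nonneg_left hτ1 (by rw [hθ]; norm_num)
    rw [hθ] at this ⊢
    linarith
  have hfin : N ^ 2 * (1 - 2 * θ * τ) ≤ Q * (z * M) * ((1 - 2 * θ * τ) * (1 - 8 / 10000000000)) := by
    have h1 : Q * X ≤ Q * (N * m * (1 - 2 * θ * τ - 8 / 10000000000)) :=
      mul_le_mul_of_nonneg_left hX2 hQ
    have h2 : N * m * (1 - 2 * θ * τ - 8 / 10000000000)
        ≤ z * M * ((1 - 2 * θ * τ) * (1 - 8 / 10000000000)) := by
      have hzM : 0 ≤ z * M := le_trans (by positivity) hNm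
      have hs : 1 - 2 * θ * τ - 8 / 10000000000 ≤ (1 - 2 * θ * τ) * (1 - 8 / 10000000000) := by
        have : 0 ≤ θ * τ := mul_nonneg (by rw [hθ]; norm_num) hτ0
        linarith
      have hs0 : 0 ≤ (1 - 2 * θ * τ) * (1 - 8 / 10000000000) := mul_nonneg hpos.le (by norm_num)
      calc N * m * (1 - 2 * θ * τ - 8 / 10000000000)
          ≤ N * m * ((1 - 2 * θ * τ) * (1 - 8 / 10000000000)) :=
            mul_le_mul_of_nonneg_left hs (by positivity)
        _ ≤ _ := mul_le_mul_of_nonneg_right hNm hs0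
    have h3 := mul_le_mul_of_nonneg_left h2 hQ
    calc _ ≤ _ := hnum
      _ ≤ _ := hvar
      _ ≤ _ := h1
      _ ≤ _ := h3
      _ = _ := by ring
  have hfin2 : N ^ 2 ≤ Q * (z * M) * (1 - 8 / 10000000000) := by
    have : (1 - 2 * θ * τ) * N ^ 2 ≤ (1 - 2 * θ * τ) * (Q * (z * M) * (1 - 8 / 10000000000)) := by
      linarith
    exact le_of_mul_le_mul_left this hpos
  have hN2 : 0 ≤ N ^ 2 := sq_nonneg N
  linarith

/-- **the gain** -/
theorem gain (hI : Cx R I) (hR : 2 ≤ R) (hz : 0 < z) (hz1 : z ≤ 1) (hZ : 0 < bZ I z)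
    (h1 : (Fintype.card V : ℝ) * bZ I z ≤ 4 * bB I z)
    (h2 : 4 * bB I z ≤ 3 * ((Fintype.card V : ℝ) * bZ I z))
    (hn : 0 < (Fintype.card V : ℝ)) :
    bN I z ^ 2 * (1 + 8 / 10000000000) ≤ (bQ I z - bN I z ^ 2 / bZ I z) *
      (z * ((Fintype.card V : ℝ) * bZ I z + (R - 1) * bB I z)) := by
  have hRr : (2 : ℝ) ≤ R := by exact_mod_cast hR
  have hnZ : 0 < (Fintype.card V : ℝ) * bZ I z := mul_pos hn hZ
  have hB : 0 < bB I z := by linarith
  have ht := total hI (z := z)
  have hN := N_eq hI (z := z)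
  have hQ : 0 ≤ bQ I z - bN I z ^ 2 / bZ I z := by
    have h := br_cs (I := I) hz.le (fun S => (S.card : ℝ)) (fun _ => 1)
    have e1 : br I z (fun S => (S.card : ℝ) * 1) = bN I z := by unfold bN; simp
    have e2 : br I z (fun S => (1 : ℝ) ^ 2) = bZ I z := by unfold bZ; simp
    rw [e1, e2] at h
    rw [sub_nonneg, div_le_iff₀ hZ]
    exact h
  have hD0 := bD_nonneg hI hz.le
  by_cases hD : bD I z R ≤ R * bB I z / 1000000
  · have hA : 0 < bA I z := by
      have : (1 + z) * bA I z = (Fintype.card V : ℝ) * bZ I z - bB I z := by rw [ht, hN]; ring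
      by_contra hc
      rw [not_lt] at hc
      have := mul_nonpos_of_nonneg_of_nonpos (show 0 ≤ 1 + z by linarith) hc
      linarith
    have hNle : bN I z ≤ bA I z := by
      rw [hN]
      have := mul_le_mul_of_nonneg_right hz1 hA.le
      linarith
    have hN0 : 0 ≤ bN I z := by rw [hN]; positivity
    have hBA : bB I z ≤ 6 * bA I z := by linarith
    have hAB : bA I z ≤ 3 * bB I z := by linarith
    have hcov := cov_ge hI hR hz hz1 hA hB hBA hAB hD
    have hzb := zb_eq2 hI (z := z)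
    have hRB : 0 < (R : ℝ) * bB I z := by positivity
    have hbpos : 0 < bb I z := by
      by_contra hc
      rw [not_lt] at hc
      have := mul_nonpos_of_nonneg_of_nonpos hz.le hc
      linarith
    set d : ℝ := bb I z / bA I z with hd
    have hd0 : 0 < d := div_pos hbpos hA
    have hbd : bb I z = d * bA I z := by rw [hd]; field_simp
    have hfs := fld_sq_le hI hz (d := d) (θ := 1 / 110000) hd0 (by norm_num)
    have hvar := var_ge hI hz.le hZ (fld I d (1 / 110000))
    set T1 : ℝ := br I z (fun S => ∑ x, ind (al I S x) * (min (dg I S x) (2 * d) / d)) with hT1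
    set T2 : ℝ := br I z (fun S => ∑ x, dg I S x * (min (dg I S x) (2 * d) / d)) with hT2
    have e1 : br I z (fun S => ∑ x, ind (al I S x) * fld I d (1 / 110000) S x)
        = bA I z - 1 / 110000 * T1 := by
      rw [hT1]
      unfold bA
      rw [← br_smul, ← br_sub]
      refine br_congr fun S hS => ?_
      rw [Finset.mul_sum, ← Finset.sum_sub_distrib]
      refine Finset.sum_congr rfl fun x _ => ?_
      unfold fld; ring
    rw [e1] at hvar
    refine arith_gain (z := z) (R := R) (A := bA I z) (B := bB I z) (b := bb I z) (D := bD I z R)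
      (K := bK I z) (t := bt I z) (d := d) (T1 := T1) (T2 := T2) (C := bC I z d) hz hz1 hRr hA hd0
      hbd hzb hD0 hD hAB ?_ (K_le hI hz.le) (t_le hI hz.le) ?_ ?_ ?_ hcov hN ?_ hQ hfs hvar
    · exact br_nonneg hz.le fun S hS => Finset.sum_nonneg fun _ _ => Finset.sum_nonneg fun _ _ =>
        Finset.sum_nonneg fun _ _ => ind_nonneg _
    · exact br_nonneg hz.le fun S hS => Finset.sum_nonneg fun x _ =>
        mul_nonneg (ind_nonneg _) (tau_bd hd0 (dg_nonneg S x)).1
    · -- T1 ≤ A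
      have h3 : T1 ≤ br I z (fun S => (1 / d) * ∑ x, dg I S x) := by
        rw [hT1]
        refine br_mono hz.le fun S hS => ?_
        rw [Finset.mul_sum]
        refine Finset.sum_le_sum fun x _ => ?_
        have h4 : min (dg I S x) (2 * d) / d ≤ 1 / d * dg I S x := by
          rw [one_div_mul_eq_div]
          exact div_le_div_of_nonneg_right (min_le_left _ _) hd0.le
        have h5 : 0 ≤ 1 / d * dg I S x := by
          have := dg_nonneg (I := I) S x
          positivity
        have h6 := ind_le_one (al I S x)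
        have h7 := ind_nonneg (al I S x)
        nlinarith
      rw [br_smul] at h3
      have h4 : br I z (fun S => ∑ x, dg I S x) = bb I z := rfl
      rw [h4, hbd] at h3
      have : 1 / d * (d * bA I z) = bA I z := by field_simp
      linarith
    · -- T2
      have h3 : bC I z d = d * (T2 - d * T1) := by
        have h4 : bC I z d = br I z (fun S => ∑ x, ind (al I S x) * ((dg I S x - d) *
            min (dg I S x) (2 * d))) - d * (bb I z - d * bA I z) := by
          unfold bC bb bA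
          rw [← br_smul, ← br_sub, ← br_smul, ← br_sub]
          refine br_congr fun S hS => ?_
          rw [Finset.mul_sum, ← Finset.sum_sub_distrib, Finset.mul_sum, ← Finset.sum_sub_distrib]
          refine Finset.sum_congr rfl fun x _ => ?_
          by_cases hx : al I S x
          · rw [ind_true hx]; ring
          · rw [ind_false hx, dg_zero hx]; ring
        rw [h4, hbd, sub_self, mul_zero, sub_zero, hT1, hT2, ← br_smul, ← br_sub, ← br_smul]
        refine br_congr fun S hS => ?_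
        rw [Finset.mul_sum, ← Finset.sum_sub_distrib, Finset.mul_sum]
        refine Finset.sum_congr rfl fun x _ => ?_
        by_cases hx : al I S x
        · rw [ind_true hx]; field_simp
        · rw [ind_false hx, dg_zero hx]; ring
      rw [h3]; field_simp; ring
    · rw [ht]; ring
  · rw [not_le] at hD
    have h := base_ineq hI hz.le hZ
    set Q := bQ I z - bN I z ^ 2 / bZ I z with hQdef
    set M := (Fintype.card V : ℝ) * bZ I z + (R - 1) * bB I z with hM
    have hM2 : 2 / 5 * M ≤ R * bB I z := by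
      rw [hM]
      have : 2 * bB I z ≤ R * bB I z := mul_le_mul_of_nonneg_right hRr hB.le
      linarith
    have hM0 : 0 < M := by
      rw [hM]
      have : 0 ≤ ((R : ℝ) - 1) * bB I z := mul_nonneg (by linarith) hB.le
      linarith
    have h3 : M - bD I z R ≤ M * (1 - 4 / 10000000) := by linarith
    have h4 : bN I z ^ 2 ≤ Q * (z * (M * (1 - 4 / 10000000))) :=
      le_trans h (mul_le_mul_of_nonneg_left (mul_le_mul_of_nonneg_left h3 hz.le) hQ)
    have h5 : 0 ≤ Q * (z * M) := by positivity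
    linarith [sq_nonneg (bN I z)]

end

end Pool.Agent.J6H90.DC
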