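import Pool.Agent.J6H90.DC.Quant

/-!
Good triples.
-/

set_option autoImplicit false
set_option linter.unusedSectionVars false
set_option linter.unusedVariables false

namespace Pool.Agent.J6H90.DC

open Finset

section
variable {V : Type} [Fintype V] [DecidableEq V]

variable (I : Finset V → Prop) (z : ℝ)

/-- the base condition -/
def g0 (d : ℝ) (S : Finset V) (x y w : V) : Prop :=
  dg I (insert y S) x ≤ 5 / 4 * d ∧ ∑ u, ind (KK I S x u y) ≤ d / 100 ∧
    ∑ u, ind (KK I (insert y S) x w u) ≤ d / 100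

/-- good triples -/
def VG (d : ℝ) (S : Finset V) (x y w : V) : Prop :=
  T I S x y w ∧ g0 I d S x y w ∧ g0 I d S x w y ∧ g0 I d S y x w ∧ g0 I d S y w x ∧
    g0 I d S w x y ∧ g0 I d S w y x

variable {I} {z} {R : ℕ}

theorem VG_swap {d : ℝ} {S : Finset V} {x y w : V} (h : VG I d S x y w) : VG I d S w y x := by
  obtain ⟨h1, h2, h3, h4, h5, h6, h7⟩ := h
  exact ⟨T_swap2 (T_swap (T_swap2 h1)), h7, h6, h5, h4, h3, h2⟩

/-- symmetric relabelling of a triple sum -/
theorem sum3_swap23 (f : V → V → V → ℝ) : ∑ x, ∑ y, ∑ w, f x w y = ∑ x, ∑ y, ∑ w, f x y w := by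
  refine Finset.sum_congr rfl fun x _ => ?_
  exact Finset.sum_comm

theorem sum3_swap12 (f : V → V → V → ℝ) : ∑ x, ∑ y, ∑ w, f y x w = ∑ x, ∑ y, ∑ w, f x y w :=
  Finset.sum_comm

theorem sum3_perm (f : V → V → V → ℝ) :
    ∑ x, ∑ y, ∑ w, (f x y w + f x w y + f y x w + f y w x + f w x y + f w y x)
      = 6 * ∑ x, ∑ y, ∑ w, f x y w := by
  have e : ∑ x, ∑ y, ∑ w, (f x y w + f x w y + f y x w + f y w x + f w x y + f w y x)
      = ∑ x, ∑ y, ∑ w, f x y w + ∑ x, ∑ y, ∑ w, f x w y + ∑ x, ∑ y, ∑ w, f y x w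
        + ∑ x, ∑ y, ∑ w, f y w x + ∑ x, ∑ y, ∑ w, f w x y + ∑ x, ∑ y, ∑ w, f w y x := by
    simp only [Finset.sum_add_distrib]
  rw [e]
  have h1 : ∑ x, ∑ y, ∑ w, f x w y = ∑ x, ∑ y, ∑ w, f x y w := sum3_swap23 f
  have h2 : ∑ x, ∑ y, ∑ w, f y x w = ∑ x, ∑ y, ∑ w, f x y w := sum3_swap12 f
  have h3 : ∑ x, ∑ y, ∑ w, f y w x = ∑ x, ∑ y, ∑ w, f x y w := by
    rw [sum3_swap12 (fun a b c => f a c b)]; exact h1
  have h4 : ∑ x, ∑ y, ∑ w, f w x y = ∑ x, ∑ y, ∑ w, f x y w := by
    rw [sum3_swap23 (fun a b c => f b a c)]; exact h2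
  have h5 : ∑ x, ∑ y, ∑ w, f w y x = ∑ x, ∑ y, ∑ w, f x y w := by
    rw [sum3_swap12 (fun a b c => f c a b)]; exact h4
  rw [h1, h2, h3, h4, h5]; ring

/-- the number of bad triples -/
theorem bad_le (hI : Cx R I) (hz : 0 ≤ z) (d : ℝ) :
    bt I z - br I z (fun S => ∑ x, ∑ y, ∑ w, ind (VG I d S x y w))
      ≤ 6 * br I z (fun S => ∑ x, ∑ y, ∑ w, ind (T I S x y w ∧ ¬ g0 I d S x y w)) := by
  unfold bt
  rw [← br_sub, ← br_smul]
  refine br_mono hz fun S hS => ?_
  rw [← sum3_perm, ← Finset.sum_sub_distrib]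
  refine Finset.sum_le_sum fun x _ => ?_
  rw [← Finset.sum_sub_distrib]
  refine Finset.sum_le_sum fun y _ => ?_
  rw [← Finset.sum_sub_distrib]
  refine Finset.sum_le_sum fun w _ => ?_
  have n1 := ind_nonneg (T I S x y w ∧ ¬ g0 I d S x y w)
  have n2 := ind_nonneg (T I S x w y ∧ ¬ g0 I d S x w y)
  have n3 := ind_nonneg (T I S y x w ∧ ¬ g0 I d S y x w)
  have n4 := ind_nonneg (T I S y w x ∧ ¬ g0 I d S y w x)
  have n5 := ind_nonneg (T I S w x y ∧ ¬ g0 I d S w x y)
  have n6 := ind_nonneg (T I S w y x ∧ ¬ g0 I d S w y x)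
  by_cases hT : T I S x y w
  · by_cases hV : VG I d S x y w
    · rw [ind_true hT, ind_true hV]; linarith
    · rw [ind_true hT, ind_false hV]
      by_cases c1 : g0 I d S x y w
      · by_cases c2 : g0 I d S x w y
        · by_cases c3 : g0 I d S y x w
          · by_cases c4 : g0 I d S y w x
            · by_cases c5 : g0 I d S w x y
              · by_cases c6 : g0 I d S w y x
                · exact absurd ⟨hT, c1, c2, c3, c4, c5, c6⟩ hV
                · rw [ind_true (show T I S w y x ∧ ¬ g0 I d S w y x from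
                    ⟨T_swap2 (T_swap (T_swap2 hT)), c6⟩)]; linarith
              · rw [ind_true (show T I S w x y ∧ ¬ g0 I d S w x y from
                    ⟨T_swap (T_swap2 hT), c5⟩)]; linarith
            · rw [ind_true (show T I S y w x ∧ ¬ g0 I d S y w x from
                    ⟨T_swap2 (T_swap hT), c4⟩)]; linarith
          · rw [ind_true (show T I S y x w ∧ ¬ g0 I d S y x w from ⟨T_swap hT, c3⟩)]; linarith
        · rw [ind_true (show T I S x w y ∧ ¬ g0 I d S x w y from ⟨T_swap2 hT, c2⟩)]; linarith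
      · rw [ind_true (show T I S x y w ∧ ¬ g0 I d S x y w from ⟨hT, c1⟩)]; linarith
  · rw [ind_false hT, ind_false (fun h : VG I d S x y w => hT h.1)]; linarith

theorem row_T (hI : Cx R I) (S : Finset V) (x y : V) :
    ∑ w, ind (T I S x y w) ≤ dg I (insert y S) x := by
  unfold dg
  exact Finset.sum_le_sum fun w _ => ind_mono fun h => ((T_iff hI).1 h).2.1

/-- Markov -/
theorem ind_markov {a c : ℝ} (hc : 0 < c) (ha : 0 ≤ a) : ind (¬ a ≤ c) ≤ a / c := by
  by_cases h : a ≤ c
  · rw [ind_false (not_not.2 h)]; positivity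
  · rw [ind_true h]
    rw [le_div_iff₀ hc, one_mul]
    exact le_of_lt (not_le.1 h)

theorem bad0_le (hI : Cx R I) (hz : 0 ≤ z) (hR : 1 ≤ R) {d : ℝ} (hd : 0 < d) :
    z * br I z (fun S => ∑ x, ∑ y, ∑ w, ind (T I S x y w ∧ ¬ g0 I d S x y w))
      ≤ (R - 1) * br I z (fun S => ∑ x, dg I S x * ind (¬ dg I S x ≤ 5 / 4 * d))
        + 125 * z * bK I z + (R - 1) * (100 / d) * bK I z := by
  have hR1 : (0 : ℝ) ≤ (R : ℝ) - 1 := by
    have : (1 : ℝ) ≤ R := by exact_mod_cast hR
    linarith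
  have hd100 : (0 : ℝ) < d / 100 := by linarith
  -- split
  have hsplit : br I z (fun S => ∑ x, ∑ y, ∑ w, ind (T I S x y w ∧ ¬ g0 I d S x y w))
      ≤ br I z (fun S => ∑ x, ∑ y, ∑ w, ind (T I S x y w) * ind (¬ dg I (insert y S) x ≤ 5 / 4 * d))
      + br I z (fun S => ∑ x, ∑ y, ∑ w, ind (T I S x y w ∧ dg I (insert y S) x ≤ 5 / 4 * d ∧
          ¬ (∑ u, ind (KK I S x u y)) ≤ d / 100))
      + br I z (fun S => ∑ x, ∑ y, ∑ w, ind (T I S x y w) *
          ind (¬ (∑ u, ind (KK I (insert y S) x w u)) ≤ d / 100)) := by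
    rw [← br_add, ← br_add]
    refine br_mono hz fun S hS => ?_
    rw [← Finset.sum_add_distrib, ← Finset.sum_add_distrib]
    refine Finset.sum_le_sum fun x _ => ?_
    rw [← Finset.sum_add_distrib, ← Finset.sum_add_distrib]
    refine Finset.sum_le_sum fun y _ => ?_
    rw [← Finset.sum_add_distrib, ← Finset.sum_add_distrib]
    refine Finset.sum_le_sum fun w _ => ?_
    rw [ind_mul, ind_mul]
    by_cases hT : T I S x y w
    · by_cases c1 : dg I (insert y S) x ≤ 5 / 4 * d
      · by_cases c2 : (∑ u, ind (KK I S x u y)) ≤ d / 100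
        · by_cases c3 : (∑ u, ind (KK I (insert y S) x w u)) ≤ d / 100
          · rw [ind_false (fun h : T I S x y w ∧ ¬ g0 I d S x y w => h.2 ⟨c1, c2, c3⟩)]
            have := ind_nonneg (T I S x y w ∧ ¬ dg I (insert y S) x ≤ 5 / 4 * d)
            have := ind_nonneg (T I S x y w ∧ dg I (insert y S) x ≤ 5 / 4 * d ∧
              ¬ (∑ u, ind (KK I S x u y)) ≤ d / 100)
            have := ind_nonneg (T I S x y w ∧ ¬ (∑ u, ind (KK I (insert y S) x w u)) ≤ d / 100)
            linarith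
          · rw [ind_true (show T I S x y w ∧ ¬ (∑ u, ind (KK I (insert y S) x w u)) ≤ d / 100
              from ⟨hT, c3⟩)]
            have := ind_nonneg (T I S x y w ∧ ¬ dg I (insert y S) x ≤ 5 / 4 * d)
            have := ind_nonneg (T I S x y w ∧ dg I (insert y S) x ≤ 5 / 4 * d ∧
              ¬ (∑ u, ind (KK I S x u y)) ≤ d / 100)
            have := ind_le_one (T I S x y w ∧ ¬ g0 I d S x y w)
            linarith
        · rw [ind_true (show T I S x y w ∧ dg I (insert y S) x ≤ 5 / 4 * d ∧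
              ¬ (∑ u, ind (KK I S x u y)) ≤ d / 100 from ⟨hT, c1, c2⟩)]
          have := ind_nonneg (T I S x y w ∧ ¬ dg I (insert y S) x ≤ 5 / 4 * d)
          have := ind_nonneg (T I S x y w ∧ ¬ (∑ u, ind (KK I (insert y S) x w u)) ≤ d / 100)
          have := ind_le_one (T I S x y w ∧ ¬ g0 I d S x y w)
          linarith
      · rw [ind_true (show T I S x y w ∧ ¬ dg I (insert y S) x ≤ 5 / 4 * d from ⟨hT, c1⟩)]
        have := ind_nonneg (T I S x y w ∧ dg I (insert y S) x ≤ 5 / 4 * d ∧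
              ¬ (∑ u, ind (KK I S x u y)) ≤ d / 100)
        have := ind_nonneg (T I S x y w ∧ ¬ (∑ u, ind (KK I (insert y S) x w u)) ≤ d / 100)
        have := ind_le_one (T I S x y w ∧ ¬ g0 I d S x y w)
        linarith
    · rw [ind_false (fun h : T I S x y w ∧ ¬ g0 I d S x y w => hT h.1)]
      have := ind_nonneg (T I S x y w ∧ ¬ dg I (insert y S) x ≤ 5 / 4 * d)
      have := ind_nonneg (T I S x y w ∧ dg I (insert y S) x ≤ 5 / 4 * d ∧
              ¬ (∑ u, ind (KK I S x u y)) ≤ d / 100)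
      have := ind_nonneg (T I S x y w ∧ ¬ (∑ u, ind (KK I (insert y S) x w u)) ≤ d / 100)
      linarith
  have h1 : z * br I z (fun S => ∑ x, ∑ y, ∑ w,
      ind (T I S x y w) * ind (¬ dg I (insert y S) x ≤ 5 / 4 * d))
      ≤ (R - 1) * br I z (fun S => ∑ x, dg I S x * ind (¬ dg I S x ≤ 5 / 4 * d)) := by
    have := T_mecke_le hI hz (fun S x _ => ind (¬ dg I S x ≤ 5 / 4 * d)) (fun _ _ _ => ind_nonneg _)
    refine le_trans this (le_of_eq ?_)
    congr 1
    refine br_congr fun S hS => Finset.sum_congr rfl fun x _ => ?_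
    rw [← Finset.sum_mul]; rfl
  have h2 : br I z (fun S => ∑ x, ∑ y, ∑ w, ind (T I S x y w ∧ dg I (insert y S) x ≤ 5 / 4 * d ∧
          ¬ (∑ u, ind (KK I S x u y)) ≤ d / 100)) ≤ 125 * bK I z := by
    unfold bK
    rw [← br_smul]
    refine br_mono hz fun S hS => ?_
    rw [Finset.mul_sum]
    refine Finset.sum_le_sum fun x _ => ?_
    rw [Finset.sum_comm (f := fun u y => ind (KK I S x u y)), Finset.mul_sum]
    refine Finset.sum_le_sum fun y _ => ?_
    have hk : 0 ≤ ∑ u, ind (KK I S x u y) := Finset.sum_nonneg fun _ _ => ind_nonneg _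
    by_cases c1 : dg I (insert y S) x ≤ 5 / 4 * d
    · have e1 : ∑ w, ind (T I S x y w ∧ dg I (insert y S) x ≤ 5 / 4 * d ∧
          ¬ (∑ u, ind (KK I S x u y)) ≤ d / 100)
          ≤ ∑ w, ind (T I S x y w) * ind (¬ (∑ u, ind (KK I S x u y)) ≤ d / 100) :=
        Finset.sum_le_sum fun w _ => by
          rw [ind_mul]; exact ind_mono fun h => ⟨h.1, h.2.2⟩
      rw [← Finset.sum_mul] at e1
      refine le_trans e1 ?_
      calc (∑ w, ind (T I S x y w)) * ind (¬ (∑ u, ind (KK I S x u y)) ≤ d / 100)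
          ≤ (5 / 4 * d) * ((∑ u, ind (KK I S x u y)) / (d / 100)) := by
            apply mul_le_mul (le_trans (row_T hI S x y) c1) (ind_markov hd100 hk) (ind_nonneg _)
            linarith
        _ = 125 * ∑ u, ind (KK I S x u y) := by field_simp; ring
    · have e1 : ∑ w, ind (T I S x y w ∧ dg I (insert y S) x ≤ 5 / 4 * d ∧
          ¬ (∑ u, ind (KK I S x u y)) ≤ d / 100) = 0 :=
        Finset.sum_eq_zero fun w _ => ind_false fun h => c1 h.2.1
      rw [e1]; linarith
  have h3 : z * br I z (fun S => ∑ x, ∑ y, ∑ w, ind (T I S x y w) *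
          ind (¬ (∑ u, ind (KK I (insert y S) x w u)) ≤ d / 100))
      ≤ (R - 1) * (100 / d) * bK I z := by
    have := T_mecke_le hI hz (fun S x w => ind (¬ (∑ u, ind (KK I S x w u)) ≤ d / 100))
      (fun _ _ _ => ind_nonneg _)
    refine le_trans this ?_
    rw [mul_assoc]
    refine mul_le_mul_of_nonneg_left ?_ hR1
    unfold bK
    rw [← br_smul]
    refine br_mono hz fun S hS => ?_
    rw [Finset.mul_sum]
    refine Finset.sum_le_sum fun x _ => ?_
    rw [Finset.mul_sum]
    refine Finset.sum_le_sum fun w _ => ?_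
    have hk : 0 ≤ ∑ u, ind (KK I S x w u) := Finset.sum_nonneg fun _ _ => ind_nonneg _
    calc ind (adj I S x w) * ind (¬ (∑ u, ind (KK I S x w u)) ≤ d / 100)
        ≤ 1 * ((∑ u, ind (KK I S x w u)) / (d / 100)) :=
          mul_le_mul (ind_le_one _) (ind_markov hd100 hk) (ind_nonneg _) zero_le_one
      _ = 100 / d * ∑ u, ind (KK I S x w u) := by field_simp
  have h2' : z * br I z (fun S => ∑ x, ∑ y, ∑ w, ind (T I S x y w ∧
      dg I (insert y S) x ≤ 5 / 4 * d ∧ ¬ (∑ u, ind (KK I S x u y)) ≤ d / 100))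
      ≤ 125 * z * bK I z := by
    have := mul_le_mul_of_nonneg_left h2 hz
    linarith
  have := mul_le_mul_of_nonneg_left hsplit hz
  rw [mul_add, mul_add] at this
  linarith

/-- sizes in a triple -/
theorem size_le (hI : Cx R I) {S : Finset V} {x y w : V} (h : T I S x y w) :
    dg I S x + dg I S w ≤ dg I (insert y S) x + ∑ u, ind (KK I S x u y) + ∑ u, ind (KK I S w u y)
      + ∑ u, ind (KK I S x u w) + ∑ u, ind (KK I (insert y S) x w u) := by
  have hT := (T_iff hI).1 h
  obtain ⟨hy, hxw, hxwS⟩ := hT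
  obtain ⟨h1, h2, h3, h4, h5, h6, h7, h8, h9, h10⟩ := h
  unfold dg
  rw [← Finset.sum_add_distrib, ← Finset.sum_add_distrib, ← Finset.sum_add_distrib,
    ← Finset.sum_add_distrib, ← Finset.sum_add_distrib]
  refine Finset.sum_le_sum fun u _ => ?_
  -- the passage to `insert y S`
  have key : ∀ p : V, al I (insert y S) p → I (insert p (insert y S)) → adj I S p u →
      adj I S u y ∨ adj I (insert y S) p u := by
    intro p hp hpI hpu
    by_cases hc : adj I S u y
    · exact Or.inl hc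
    · refine Or.inr ⟨hpu.1, hp, ⟨?_, ?_⟩, ?_⟩
      · rw [mem_insert, not_or]
        refine ⟨?_, hpu.2.2.1.1⟩
        intro huy
        apply hpu.2.2.2
        rw [huy]; exact hpI
      · by_contra hc2
        apply hc
        refine ⟨?_, hpu.2.2.1, hy, hc2⟩
        intro huy
        apply hpu.2.2.2
        rw [huy]; exact hpI
      · intro hc2
        apply hpu.2.2.2
        refine hI.down ?_ hc2
        exact insert_subset_insert p (insert_subset_insert u (subset_insert y S))
  have hnxy : ¬ adj I S x y := fun hc => hc.2.2.2 h7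
  have hnwy : ¬ adj I S w y := fun hc => hc.2.2.2 (by rw [Finset.insert_comm]; exact h9)
  have hnxw : ¬ adj I S x w := fun hc => hc.2.2.2 h8
  have m1 := ind_nonneg (adj I (insert y S) x u)
  have m2 := ind_nonneg (KK I S x u y)
  have m3 := ind_nonneg (KK I S w u y)
  have m4 := ind_nonneg (KK I S x u w)
  have m5 := ind_nonneg (KK I (insert y S) x w u)
  have hx' : adj I S x u → 1 ≤ ind (adj I (insert y S) x u) + ind (KK I S x u y) := by
    intro hxu
    rcases key x hxw.2.1 h7 hxu with c | c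
    · rw [ind_true (show KK I S x u y from ⟨hxu, c, h4, hnxy⟩)]; linarith
    · rw [ind_true c]; linarith
  by_cases c1 : adj I S x u
  · by_cases c2 : adj I S w u
    · rw [ind_true c1, ind_true c2, ind_true (show KK I S x u w from ⟨c1, adj_symm c2, h5, hnxw⟩)]
      have := hx' c1
      linarith
    · rw [ind_true c1, ind_false c2]
      have := hx' c1
      linarith
  · rw [ind_false c1]
    by_cases c2 : adj I S w u
    · rw [ind_true c2]
      rcases key w hxw.2.2.1 hxw.2.2.1.2 c2 with c | c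
      · rw [ind_true (show KK I S w u y from ⟨c2, c, h6.symm, hnwy⟩)]; linarith
      · by_cases c3 : adj I (insert y S) x u
        · rw [ind_true c3]; linarith
        · have hxu : x ≠ u := by
            intro hxu
            apply hnxw
            rw [← hxu] at c2
            exact adj_symm c2
          rw [ind_true (show KK I (insert y S) x w u from ⟨hxw, c, hxu, c3⟩)]; linarith
    · rw [ind_false c2]; linarith

theorem VG_size (hI : Cx R I) {d : ℝ} (hd : 0 < d) {S : Finset V} {x y w : V}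
    (h : VG I d S x y w) : dg I S x ≤ 2 / 3 * d ∨ dg I S w ≤ 2 / 3 * d := by
  have h1 := size_le hI h.1
  have a1 := h.2.1.1
  have a2 := h.2.1.2.1
  have a3 := h.2.2.2.2.2.2.2.1
  have a4 := h.2.2.1.2.1
  have a5 := h.2.1.2.2
  by_contra hc
  rw [not_or, not_le, not_le] at hc
  linarith [hc.1, hc.2]

theorem row_VG (hI : Cx R I) {d : ℝ} (hd : 0 < d) (S : Finset V) (x y : V) :
    ∑ w, ind (VG I d S x y w) ≤ 5 / 4 * d := by
  by_cases h : ∃ w, VG I d S x y w
  · obtain ⟨w, hw⟩ := h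
    refine le_trans (le_trans (Finset.sum_le_sum fun w _ => ind_mono fun h => h.1)
      (row_T hI S x y)) hw.2.1.1
  · rw [Finset.sum_eq_zero fun w _ => ind_false fun hw => h ⟨w, hw⟩]
    linarith

end

end Pool.Agent.J6H90.DC
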