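import Pool.Agent.J6H90.DC.Quant

/-!
A lower bound for the variance of the number of points by a test field.
-/

set_option autoImplicit false
set_option linter.unusedSectionVars false
set_option linter.unusedVariables false

namespace Pool.Agent.J6H90.DC

open Finset

section
variable {V : Type} [Fintype V] [DecidableEq V]

variable (I : Finset V → Prop) (z : ℝ)

/-- the divergence of a field -/
noncomputable def dv (η : Finset V → V → ℝ) (S : Finset V) : ℝ :=
  ∑ x, ind (x ∈ S) * η (S.erase x) x - z * ∑ x, ind (al I S x) * η S x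

noncomputable def bN : ℝ := br I z (fun S => (S.card : ℝ))
noncomputable def bQ : ℝ := br I z (fun S => (S.card : ℝ) ^ 2)

variable {I} {z} {R : ℕ}

theorem br_cs (hz : 0 ≤ z) (f g : Finset V → ℝ) :
    (br I z (fun S => f S * g S)) ^ 2 ≤ br I z (fun S => f S ^ 2) * br I z (fun S => g S ^ 2) := by
  unfold br
  apply Finset.sum_sq_le_sum_mul_sum_of_sq_le_mul
  · intro S _
    exact mul_nonneg (ind_nonneg _) (mul_nonneg (pow_nonneg hz _) (sq_nonneg _))
  · intro S _
    exact mul_nonneg (ind_nonneg _) (mul_nonneg (pow_nonneg hz _) (sq_nonneg _))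
  · intro S _
    exact le_of_eq (by ring)

theorem sum_ind_mem (S : Finset V) : ∑ x, ind (x ∈ S) = (S.card : ℝ) := by
  classical
  rw [sum_ind_card]
  congr 2
  ext x
  simp

theorem N_eq (hI : Cx R I) : bN I z = z * bA I z := by
  have h := mecke hI (z := z) (fun _ _ => 1)
  simp only [mul_one] at h
  unfold bN bA
  rw [← h]
  exact br_congr fun S hS => (sum_ind_mem S).symm

theorem total (hI : Cx R I) : (Fintype.card V : ℝ) * bZ I z = bN I z + bA I z + bB I z := by
  unfold bZ bN bA bB
  rw [← br_smul, ← br_add, ← br_add]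
  refine br_congr fun S hS => ?_
  rw [← sum_ind_mem, ← Finset.sum_add_distrib, ← Finset.sum_add_distrib]
  have : ∀ x, ind (x ∈ S) + ind (al I S x) + ind (bl I S x) = 1 := by
    intro x
    by_cases hx : x ∈ S
    · rw [ind_true hx, ind_false (fun h : al I S x => h.1 hx),
        ind_false (fun h : bl I S x => h.1 hx)]; norm_num
    · by_cases h2 : I (insert x S)
      · rw [ind_false hx, ind_true (show al I S x from ⟨hx, h2⟩),
          ind_false (fun h : bl I S x => h.2 h2)]; norm_num
      · rw [ind_false hx, ind_false (fun h : al I S x => h2 h.2),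
          ind_true (show bl I S x from ⟨hx, h2⟩)]; norm_num
  rw [Finset.sum_congr rfl fun x _ => this x]
  simp

theorem dv_mean (hI : Cx R I) (η : Finset V → V → ℝ) : br I z (dv I z η) = 0 := by
  have h := mecke hI (z := z) (fun S x => η (S.erase x) x)
  have e : br I z (dv I z η) = br I z (fun S => ∑ x, ind (x ∈ S) * η (S.erase x) x)
      - z * br I z (fun S => ∑ x, ind (al I S x) * η S x) := by
    rw [← br_smul, ← br_sub]; rfl
  rw [e, h, ← mul_sub, ← br_sub]
  have : br I z (fun S => ∑ y, ind (al I S y) * η ((insert y S).erase y) y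
      - ∑ x, ind (al I S x) * η S x) = br I z (fun _ => 0) := by
    refine br_congr fun S hS => ?_
    rw [← Finset.sum_sub_distrib]
    refine Finset.sum_eq_zero fun x _ => ?_
    by_cases hx : al I S x
    · rw [erase_insert hx.1]; ring
    · rw [ind_false hx]; ring
  rw [this]
  have h0 : br I z (fun _ => (0 : ℝ)) = 0 := by unfold br; simp
  rw [h0]; ring

theorem dv_card (hI : Cx R I) (η : Finset V → V → ℝ) :
    br I z (fun S => (S.card : ℝ) * dv I z η S) = z * br I z (fun S => ∑ x, ind (al I S x) * η S x) := by
  have h := mecke hI (z := z) (fun S x => (S.card : ℝ) * η (S.erase x) x)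
  have e : br I z (fun S => (S.card : ℝ) * dv I z η S)
      = br I z (fun S => ∑ x, ind (x ∈ S) * ((S.card : ℝ) * η (S.erase x) x))
      - z * br I z (fun S => (S.card : ℝ) * ∑ x, ind (al I S x) * η S x) := by
    rw [← br_smul, ← br_sub]
    refine br_congr fun S hS => ?_
    unfold dv
    rw [mul_sub, Finset.mul_sum]
    congr 1
    · exact Finset.sum_congr rfl fun x _ => by ring
    · ring
  rw [e, h, ← mul_sub, ← br_sub]
  congr 1
  refine br_congr fun S hS => ?_
  rw [Finset.mul_sum, ← Finset.sum_sub_distrib]
  refine Finset.sum_congr rfl fun x _ => ?_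
  by_cases hx : al I S x
  · rw [erase_insert hx.1, card_insert_of_notMem hx.1]
    push_cast; ring
  · rw [ind_false hx]; ring

/-- the lower bound for the variance -/
theorem var_ge (hI : Cx R I) (hz : 0 ≤ z) (hZ : 0 < bZ I z) (η : Finset V → V → ℝ) :
    (z * br I z (fun S => ∑ x, ind (al I S x) * η S x)) ^ 2
      ≤ (bQ I z - bN I z ^ 2 / bZ I z) * br I z (fun S => dv I z η S ^ 2) := by
  set c : ℝ := bN I z / bZ I z with hc
  have h := br_cs (I := I) hz (fun S => (S.card : ℝ) - c) (dv I z η)
  have e1 : br I z (fun S => ((S.card : ℝ) - c) * dv I z η S)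
      = z * br I z (fun S => ∑ x, ind (al I S x) * η S x) := by
    rw [← dv_card hI η]
    have : br I z (fun S => ((S.card : ℝ) - c) * dv I z η S)
        = br I z (fun S => (S.card : ℝ) * dv I z η S) - c * br I z (dv I z η) := by
      rw [← br_smul, ← br_sub]
      exact br_congr fun S hS => by ring
    rw [this, dv_mean hI]; ring
  have e2 : br I z (fun S => ((S.card : ℝ) - c) ^ 2) = bQ I z - bN I z ^ 2 / bZ I z := by
    have : br I z (fun S => ((S.card : ℝ) - c) ^ 2)
        = bQ I z - 2 * c * bN I z + c ^ 2 * bZ I z := by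
      unfold bQ bN bZ
      rw [← br_smul, ← br_smul, ← br_sub, ← br_add]
      exact br_congr fun S hS => by ring
    rw [this, hc]
    field_simp
    ring
  rw [e1, e2] at h
  exact h

theorem dv_sq (hI : Cx R I) (η : Finset V → V → ℝ) :
    br I z (fun S => dv I z η S ^ 2)
      = z * br I z (fun S => ∑ x, ind (al I S x) * η S x ^ 2)
      + z ^ 2 * br I z (fun S => ∑ x, ∑ y,
          ind (al I S x ∧ al I S y ∧ ¬ pr I S x y) * (η S x * η S y))
      + z ^ 2 * br I z (fun S => ∑ x, ∑ y, ind (pr I S x y) *
          ((η (insert y S) x - η S x) * (η (insert x S) y - η S y))) := by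
  classical
  set P : Finset V → ℝ := fun S => ∑ x, ind (x ∈ S) * η (S.erase x) x with hP
  set M : Finset V → ℝ := fun S => ∑ x, ind (al I S x) * η S x with hM
  have prs : ∀ (S : Finset V) (x y : V), pr I S x y → pr I S y x := by
    rintro S x y ⟨a, b, c, d⟩
    exact ⟨b, a, c.symm, by rw [Finset.insert_comm]; exact d⟩
  have pral : ∀ (S : Finset V) (x y : V), pr I S x y → al I S x := by
    rintro S x y ⟨a, b, c, d⟩
    exact ⟨a, hI.down (insert_subset_insert x (subset_insert y S)) d⟩
  -- the square of P
  have hPP : br I z (fun S => P S ^ 2) = z * br I z (fun S => ∑ x, ind (al I S x) * η S x ^ 2)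
      + z ^ 2 * br I z (fun S => ∑ x, ∑ y, ind (pr I S x y) * (η (insert y S) x * η (insert x S) y)) := by
    have h1 := mecke hI (z := z) (fun S x => η (S.erase x) x ^ 2)
    have h2 := mecke2 hI (z := z) (fun S x y => η (S.erase x) x * η (S.erase y) y)
    have h1' : br I z (fun S => ∑ y, ind (al I S y) * η ((insert y S).erase y) y ^ 2)
        = br I z (fun S => ∑ x, ind (al I S x) * η S x ^ 2) := by
      refine br_congr fun S hS => Finset.sum_congr rfl fun x _ => ind_mul_congr fun hx => ?_
      rw [erase_insert hx.1]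
    have h2' : br I z (fun S => ∑ x, ∑ y, ind (pr I S x y) *
        (η ((insert x (insert y S)).erase x) x * η ((insert x (insert y S)).erase y) y))
        = br I z (fun S => ∑ x, ∑ y, ind (pr I S x y) * (η (insert y S) x * η (insert x S) y)) := by
      refine br_congr fun S hS => Finset.sum_congr rfl fun x _ => Finset.sum_congr rfl fun y _ =>
        ind_mul_congr fun hx => ?_
      obtain ⟨a, b, c, d⟩ := hx
      have e1 : (insert x (insert y S)).erase x = insert y S :=
        erase_insert (by rw [mem_insert, not_or]; exact ⟨c, a⟩)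
      have e2 : (insert x (insert y S)).erase y = insert x S := by
        rw [erase_insert_of_ne c, erase_insert b]
      rw [e1, e2]
    rw [h1'] at h1
    rw [h2'] at h2
    rw [← h1, ← h2, ← br_add]
    refine br_congr fun S hS => ?_
    simp only [hP]
    rw [pow_two, Finset.sum_mul_sum, ← Finset.sum_add_distrib]
    refine Finset.sum_congr rfl fun x _ => ?_
    have : ∀ y, ind (x ∈ S) * η (S.erase x) x * (ind (y ∈ S) * η (S.erase y) y)
        = ind (x = y) * (ind (x ∈ S) * η (S.erase x) x ^ 2)
          + ind (x ∈ S ∧ y ∈ S ∧ x ≠ y) * (η (S.erase x) x * η (S.erase y) y) := by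
      intro y
      by_cases hxy : x = y
      · subst hxy
        rw [ind_true (show x = x from rfl), ind_false (fun h : x ∈ S ∧ x ∈ S ∧ x ≠ x => h.2.2 rfl)]
        have := ind_sq (x ∈ S)
        calc ind (x ∈ S) * η (S.erase x) x * (ind (x ∈ S) * η (S.erase x) x)
            = (ind (x ∈ S) * ind (x ∈ S)) * η (S.erase x) x ^ 2 := by ring
          _ = _ := by rw [this]; ring
      · rw [ind_false hxy]
        have : ind (x ∈ S ∧ y ∈ S ∧ x ≠ y) = ind (x ∈ S) * ind (y ∈ S) := by
          rw [ind_mul]; exact ind_congr ⟨fun h => ⟨h.1, h.2.1⟩, fun h => ⟨h.1, h.2, hxy⟩⟩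
        rw [this]; ring
    rw [Finset.sum_congr rfl fun y _ => this y, Finset.sum_add_distrib]
    congr 1
    rw [Finset.sum_eq_single x]
    · rw [ind_true rfl, one_mul]
    · intro b _ hb; rw [ind_false (fun h => hb h.symm), zero_mul]
    · intro h; exact absurd (mem_univ x) h
  -- the product of P and M
  have hPM : br I z (fun S => P S * M S)
      = z * br I z (fun S => ∑ x, ∑ y, ind (pr I S x y) * (η S x * η (insert x S) y)) := by
    have h1 := mecke hI (z := z) (fun S x => η (S.erase x) x * M S)
    have e1 : br I z (fun S => P S * M S)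
        = br I z (fun S => ∑ y, ind (y ∈ S) * (η (S.erase y) y * M S)) := by
      refine br_congr fun S hS => ?_
      simp only [hP]
      rw [Finset.sum_mul]
      exact Finset.sum_congr rfl fun x _ => by ring
    rw [e1, h1]
    congr 1
    refine br_congr fun S hS => Finset.sum_congr rfl fun x _ => ?_
    by_cases hx : al I S x
    · rw [erase_insert hx.1, ind_true hx, one_mul]
      simp only [hM]
      rw [Finset.mul_sum]
      refine Finset.sum_congr rfl fun y _ => ?_
      have : ind (al I (insert x S) y) = ind (pr I S x y) := by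
        refine ind_congr ?_
        constructor
        · rintro ⟨a, b⟩
          rw [mem_insert, not_or] at a
          exact ⟨hx.1, a.2, fun h => a.1 h.symm, by rw [Finset.insert_comm]; exact b⟩
        · rintro ⟨a, b, c, d⟩
          refine ⟨?_, by rw [Finset.insert_comm]; exact d⟩
          rw [mem_insert, not_or]; exact ⟨fun h => c h.symm, b⟩
      rw [this]; ring
    · rw [ind_false hx, zero_mul]
      symm
      refine Finset.sum_eq_zero fun y _ => ?_
      rw [ind_false (fun h => hx (pral S x y h)), zero_mul]
  -- the square of M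
  have hMM : ∀ S, M S ^ 2 = ∑ x, ∑ y, ind (pr I S x y) * (η S x * η S y)
      + ∑ x, ∑ y, ind (al I S x ∧ al I S y ∧ ¬ pr I S x y) * (η S x * η S y) := by
    intro S
    simp only [hM]
    rw [pow_two, Finset.sum_mul_sum, ← Finset.sum_add_distrib]
    refine Finset.sum_congr rfl fun x _ => ?_
    rw [← Finset.sum_add_distrib]
    refine Finset.sum_congr rfl fun y _ => ?_
    by_cases hp : pr I S x y
    · rw [ind_true hp, ind_true (pral S x y hp), ind_true (pral S y x (prs S x y hp)),
        ind_false (fun h : al I S x ∧ al I S y ∧ ¬ pr I S x y => h.2.2 hp)]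
      ring
    · rw [ind_false hp]
      have : ind (al I S x ∧ al I S y ∧ ¬ pr I S x y) = ind (al I S x) * ind (al I S y) := by
        rw [ind_mul]; exact ind_congr ⟨fun h => ⟨h.1, h.2.1⟩, fun h => ⟨h.1, h.2, hp⟩⟩
      rw [this]; ring
  have e0 : br I z (fun S => dv I z η S ^ 2) = br I z (fun S => P S ^ 2)
      - 2 * z * br I z (fun S => P S * M S) + z ^ 2 * br I z (fun S => M S ^ 2) := by
    rw [← br_smul, ← br_smul, ← br_sub, ← br_add]
    refine br_congr fun S hS => ?_
    show (P S - z * M S) ^ 2 = _
    ring
  have eM : br I z (fun S => M S ^ 2)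
      = br I z (fun S => ∑ x, ∑ y, ind (pr I S x y) * (η S x * η S y))
      + br I z (fun S => ∑ x, ∑ y, ind (al I S x ∧ al I S y ∧ ¬ pr I S x y) * (η S x * η S y)) := by
    rw [← br_add]
    exact br_congr fun S hS => hMM S
  have esw : br I z (fun S => ∑ x, ∑ y, ind (pr I S x y) * (η S x * η (insert x S) y))
      = br I z (fun S => ∑ x, ∑ y, ind (pr I S x y) * (η S y * η (insert y S) x)) := by
    refine br_congr fun S hS => ?_
    rw [Finset.sum_comm]
    refine Finset.sum_congr rfl fun x _ => Finset.sum_congr rfl fun y _ => ?_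
    rw [ind_congr (show pr I S y x ↔ pr I S x y from ⟨prs S y x, prs S x y⟩)]
  have e4 : br I z (fun S => ∑ x, ∑ y, ind (pr I S x y) *
          ((η (insert y S) x - η S x) * (η (insert x S) y - η S y)))
      = br I z (fun S => ∑ x, ∑ y, ind (pr I S x y) * (η (insert y S) x * η (insert x S) y))
        - br I z (fun S => ∑ x, ∑ y, ind (pr I S x y) * (η S x * η (insert x S) y))
        - br I z (fun S => ∑ x, ∑ y, ind (pr I S x y) * (η S y * η (insert y S) x))
        + br I z (fun S => ∑ x, ∑ y, ind (pr I S x y) * (η S x * η S y)) := by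
    rw [← br_sub, ← br_sub, ← br_add]
    refine br_congr fun S hS => ?_
    rw [← Finset.sum_sub_distrib, ← Finset.sum_sub_distrib, ← Finset.sum_add_distrib]
    refine Finset.sum_congr rfl fun x _ => ?_
    rw [← Finset.sum_sub_distrib, ← Finset.sum_sub_distrib, ← Finset.sum_add_distrib]
    exact Finset.sum_congr rfl fun y _ => by ring
  rw [e0, hPP, hPM, eM, e4, ← esw]
  ring

end

end Pool.Agent.J6H90.DC
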