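import Pool.Agent.J6H90.DC.Second
import Pool.Agent.J6H90.DC.Var

/-!
The degrees cannot be nearly constant.
-/

set_option autoImplicit false
set_option linter.unusedSectionVars false
set_option linter.unusedVariables false

namespace Pool.Agent.J6H90.DC

open Finset

/-- the arithmetic of the contradiction -/
theorem arith_contra {z R A B b D K t d U s G Y W2 C g : ℝ} (hz : 0 < z) (hz1 : z ≤ 1) (hR : 2 ≤ R)
    (hA : 0 < A) (hB : 0 < B) (hd : 0 < d) (hb : b = d * A) (hzb : z * b = R * B - D)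
    (hD0 : 0 ≤ D) (hD : D ≤ R * B / 1000000) (hBA : B ≤ 6 * A) (hAB : A ≤ 3 * B)
    (hK0 : 0 ≤ K) (hK : z ^ 2 * K ≤ 2 * R * D)
    (ht1 : z * ((R - 1) * b) - R * D ≤ z * (z * t)) (ht2 : z * t ≤ (R - 1) * b)
    (hbad : t - G ≤ 6 * g)
    (hg : z * g ≤ (R - 1) * U + 125 * z * K + (R - 1) * (100 / d) * K)
    (hU : d * U ≤ 20 * C) (hs0 : 0 ≤ s) (hs : d ^ 2 * s ≤ 9 * C) (hC : C < d ^ 2 * A / 2000)
    (hG : G ≤ 2 * Y) (hG0 : 0 ≤ G) (hGt : G ≤ t)
    (hY : ∀ l : ℝ, 0 < l → Y ≤ l / 2 * s + W2 / (2 * l))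
    (hW : z ^ 2 * W2 ≤ z ^ 2 * ((5 / 4 * d) * (1 + 129 / 100 * d) * G)
      + 16 * (R - 1) ^ 2 * d ^ 2 * A) : False := by
  obtain ⟨q, hq⟩ : ∃ q, q = (R - 1) * d := ⟨_, rfl⟩
  obtain ⟨P, hP⟩ : ∃ P, P = z * (q * A) := ⟨_, rfl⟩
  have hR1 : 1 ≤ R - 1 := by linarith
  have hq0 : 0 < q := by rw [hq]; positivity
  have hP0 : 0 < P := by rw [hP]; positivity
  have hPb : P = (R - 1) * (z * b) := by rw [hP, hq, hb]; ring
  have hdq : d ≤ q := by
    have := mul_nonneg (show 0 ≤ R - 1 - 1 by linarith) hd.le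
    rw [hq]; linarith
  -- comparison of R²B and P
  have hRB : 0 < R * B := by positivity
  have hPlow : R ^ 2 * B ≤ 201 / 100 * P := by
    rw [hPb, hzb]
    have h1 : R * B * (999999 / 1000000) ≤ R * B - D := by linarith
    have h2 : (R - 1) * (R * B * (999999 / 1000000)) ≤ (R - 1) * (R * B - D) :=
      mul_le_mul_of_nonneg_left h1 (by linarith)
    have h3 : R / 2 * (R * B) ≤ (R - 1) * (R * B) :=
      mul_le_mul_of_nonneg_right (by linarith) hRB.le
    have h4 : 0 ≤ (R - 1) * (R * B) := mul_nonneg (by linarith) hRB.le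
    linarith
  -- zd bounds
  have hzd : z * d ≤ 12 * (R - 1) := by
    have h1 : z * d * A ≤ 6 * R * A := by
      have : z * d * A = R * B - D := by rw [← hzb, hb]; ring
      rw [this]
      have := mul_le_mul_of_nonneg_left hBA (show 0 ≤ R by linarith)
      linarith
    have h2 : z * d ≤ 6 * R := le_of_mul_le_mul_right h1 hA
    linarith
  have hzd2 : R - 1 ≤ 304 / 100 * (z * d) := by
    have h1 : (R - 1) * A ≤ 304 / 100 * (z * d) * A := by
      have e : z * d * A = R * B - D := by rw [← hzb, hb]; ring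
      have e2 : 304 / 100 * (z * d) * A = 304 / 100 * (R * B - D) := by rw [← e]; ring
      rw [e2]
      have h3 := mul_le_mul_of_nonneg_left hAB (show 0 ≤ R by linarith)
      have h4 : 0 ≤ R * A := by positivity
      linarith
    exact le_of_mul_le_mul_right h1 hA
  -- K
  have hK2 : z ^ 2 * K ≤ 5 / 1000000 * P := by
    have : 2 * R * D ≤ 2 * R * (R * B / 1000000) := by
      apply mul_le_mul_of_nonneg_left hD; linarith
    linarith
  -- t
  have ht1' : z ^ 2 * t ≤ P := by
    have := mul_le_mul_of_nonneg_left ht2 hz.le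
    rw [hPb]; linarith
  have ht2' : P - 3 / 1000000 * P ≤ z ^ 2 * t := by
    have e : z * ((R - 1) * b) = P := by rw [hPb]; ring
    have h1 : R * D ≤ R * (R * B / 1000000) := mul_le_mul_of_nonneg_left hD (by linarith)
    linarith
  -- U
  have hU2 : z * ((R - 1) * U) ≤ P / 100 := by
    have h1 : d * U ≤ d * (d * A / 100) := by linarith
    have h2 : U ≤ d * A / 100 := le_of_mul_le_mul_left h1 hd
    have h3 : z * ((R - 1) * U) ≤ z * ((R - 1) * (d * A / 100)) :=
      mul_le_mul_of_nonneg_left (mul_le_mul_of_nonneg_left h2 (by linarith)) hz.le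
    have h4 : z * ((R - 1) * (d * A / 100)) = P / 100 := by rw [hP, hq]; ring
    linarith
  -- g
  have hg2 : z ^ 2 * g ≤ P / 100 + 125 * (5 / 1000000 * P) + 304 * (5 / 1000000 * P) := by
    have h1 := mul_le_mul_of_nonneg_left hg hz.le
    have h2 : z * ((R - 1) * (100 / d) * K) ≤ 304 * (z ^ 2 * K) := by
      have e : z * ((R - 1) * (100 / d) * K) = (R - 1) * (100 * z * K / d) := by field_simp
      rw [e]
      have h5 : 0 ≤ 100 * z * K / d := by positivity
      have h6 := mul_le_mul_of_nonneg_right hzd2 h5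
      have h7 : 304 / 100 * (z * d) * (100 * z * K / d) = 304 * (z ^ 2 * K) := by
        field_simp
      linarith
    have h3 : z * ((R - 1) * U + 125 * z * K + (R - 1) * (100 / d) * K)
        = z * ((R - 1) * U) + 125 * (z ^ 2 * K) + z * ((R - 1) * (100 / d) * K) := by ring
    rw [h3] at h1
    have h4 : z ^ 2 * g = z * (z * g) := by ring
    rw [h4]
    linarith
  -- W2
  have hW3 : z ^ 2 * W2 ≤ 37 * (q ^ 2 * A) := by
    have hq2A : 0 < q ^ 2 * A := by positivity
    have h1 : z ^ 2 * G ≤ z * (q * A) := by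
      rw [← hP]; exact le_trans (mul_le_mul_of_nonneg_left hGt (sq_nonneg z)) ht1'
    have hc0 : 0 ≤ (5 / 4 * d) * (1 + 129 / 100 * d) := by positivity
    have h2 : z ^ 2 * ((5 / 4 * d) * (1 + 129 / 100 * d) * G)
        ≤ (5 / 4 * d) * (1 + 129 / 100 * d) * (z * (q * A)) := by
      have := mul_le_mul_of_nonneg_left h1 hc0
      linarith
    have h3 : z * d ≤ q := by
      have := mul_le_mul_of_nonneg_right hz1 hd.le
      linarith
    have h4 : (5 / 4 * d) * (1 + 129 / 100 * d) * (z * (q * A))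
        = 5 / 4 * ((z * d) * (q * A)) + 645 / 400 * ((z * d) * (d * (q * A))) := by ring
    have h5 : (z * d) * (q * A) ≤ q * (q * A) := mul_le_mul_of_nonneg_right h3 (by positivity)
    have h6 : (z * d) * (d * (q * A)) ≤ 12 * (R - 1) * (d * (q * A)) :=
      mul_le_mul_of_nonneg_right hzd (by positivity)
    have h7 : 12 * (R - 1) * (d * (q * A)) = 12 * (q ^ 2 * A) := by rw [hq]; ring
    have h8 : 16 * (R - 1) ^ 2 * d ^ 2 * A = 16 * (q ^ 2 * A) := by rw [hq]; ring
    have h9 : q * (q * A) = q ^ 2 * A := by ring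
    rw [h8] at hW
    rw [h7] at h6
    rw [h9] at h5
    rw [h4] at h2
    linarith
  -- s
  have hs2 : s ≤ 9 * A / 2000 := by
    have h1 : d ^ 2 * s ≤ d ^ 2 * (9 * A / 2000) := by linarith
    exact le_of_mul_le_mul_left h1 (by positivity)
  -- Y
  have hY2 : z ^ 2 * Y ≤ 41 / 100 * P := by
    have h1 := hY (100 * (q / z)) (by positivity)
    have h2 := mul_le_mul_of_nonneg_left h1 (sq_nonneg z)
    have e1 : z ^ 2 * (100 * (q / z) / 2 * s + W2 / (2 * (100 * (q / z))))
        = 50 * (z * (q * s)) + z * (z ^ 2 * W2) / (200 * q) := by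
      field_simp
      ring
    rw [e1] at h2
    have h3 : z * (q * s) ≤ 9 / 2000 * P := by
      have : z * (q * s) ≤ z * (q * (9 * A / 2000)) :=
        mul_le_mul_of_nonneg_left (mul_le_mul_of_nonneg_left hs2 hq0.le) hz.le
      rw [hP]; linarith
    have h4 : z * (z ^ 2 * W2) / (200 * q) ≤ 37 / 200 * P := by
      rw [div_le_iff₀ (by positivity)]
      have : z * (z ^ 2 * W2) ≤ z * (37 * (q ^ 2 * A)) := mul_le_mul_of_nonneg_left hW3 hz.le
      rw [hP]
      linarith
    linarith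
  have hG2 : z ^ 2 * G ≤ 2 * (z ^ 2 * Y) := by
    have := mul_le_mul_of_nonneg_left hG (sq_nonneg z)
    linarith
  have hb2 : z ^ 2 * t - z ^ 2 * G ≤ 6 * (z ^ 2 * g) := by
    have := mul_le_mul_of_nonneg_left hbad (sq_nonneg z)
    linarith
  linarith

section
variable {V : Type} [Fintype V] [DecidableEq V]

variable (I : Finset V → Prop) (z : ℝ)

/-- the covariance of the degree and the truncated degree -/
noncomputable def bC (d : ℝ) : ℝ :=
  br I z (fun S => ∑ x, ind (al I S x) * ((dg I S x - d) * (min (dg I S x) (2 * d) - d)))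

variable {I} {z} {R : ℕ}

theorem dg_zero {S : Finset V} {x : V} (h : ¬ al I S x) : dg I S x = 0 :=
  Finset.sum_eq_zero fun w _ => ind_false fun h2 => h h2.2.1

theorem cov_pt1 {d a : ℝ} (hd : 0 < d) (ha : 0 ≤ a) :
    d * (a * ind (¬ a ≤ 5 / 4 * d)) ≤ 20 * ((a - d) * (min a (2 * d) - d)) := by
  by_cases h : a ≤ 2 * d
  · rw [min_eq_left h]
    by_cases h2 : a ≤ 5 / 4 * d
    · rw [ind_false (not_not.2 h2)]; nlinarith [sq_nonneg (a - d)]
    · rw [ind_true h2, mul_one]
      rw [not_le] at h2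
      nlinarith [mul_pos hd hd, mul_nonneg (show 0 ≤ a - 5 / 4 * d by linarith) hd.le,
        sq_nonneg (a - 5 / 4 * d)]
  · rw [not_le] at h
    rw [min_eq_right h.le]
    have h2 : ind (¬ a ≤ 5 / 4 * d) ≤ 1 := ind_le_one _
    have h3 : d * (a * ind (¬ a ≤ 5 / 4 * d)) ≤ d * (a * 1) :=
      mul_le_mul_of_nonneg_left (mul_le_mul_of_nonneg_left h2 ha) hd.le
    nlinarith

theorem cov_pt2 {d a : ℝ} (hd : 0 < d) (ha : 0 ≤ a) :
    d ^ 2 * ind (a ≤ 2 / 3 * d) ≤ 9 * ((a - d) * (min a (2 * d) - d)) := by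
  by_cases h : a ≤ 2 * d
  · rw [min_eq_left h]
    by_cases h2 : a ≤ 2 / 3 * d
    · rw [ind_true h2]; nlinarith [sq_nonneg (2 / 3 * d - a)]
    · rw [ind_false h2]; nlinarith [sq_nonneg (a - d)]
  · rw [not_le] at h
    rw [min_eq_right h.le, ind_false (fun h2 : a ≤ 2 / 3 * d => by linarith)]
    nlinarith

theorem cov_ge (hI : Cx R I) (hR : 2 ≤ R) (hz : 0 < z) (hz1 : z ≤ 1) (hA : 0 < bA I z)
    (hB : 0 < bB I z) (hBA : bB I z ≤ 6 * bA I z) (hAB : bA I z ≤ 3 * bB I z)
    (hD : bD I z R ≤ R * bB I z / 1000000) :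
    (bb I z / bA I z) ^ 2 * bA I z / 2000 ≤ bC I z (bb I z / bA I z) := by
  have hRr : (2 : ℝ) ≤ R := by exact_mod_cast hR
  have hD0 := bD_nonneg hI hz.le
  have hzb := zb_eq2 hI (z := z)
  have hRB : 0 < (R : ℝ) * bB I z := by positivity
  have hzbpos : 0 < z * bb I z := by rw [hzb]; linarith
  have hbpos : 0 < bb I z := by
    by_contra hc
    rw [not_lt] at hc
    have := mul_nonpos_of_nonneg_of_nonpos hz.le hc
    linarith
  set d : ℝ := bb I z / bA I z with hd
  have hd0 : 0 < d := div_pos hbpos hA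
  by_contra hC
  rw [not_le] at hC
  set G : ℝ := br I z (fun S => ∑ x, W I d S x) with hG
  set s : ℝ := br I z (fun S => ∑ x, ind (al I S x) * ind (dg I S x ≤ 2 / 3 * d)) with hs
  set Y : ℝ := br I z (fun S => ∑ x, ind (al I S x) * ind (dg I S x ≤ 2 / 3 * d) * W I d S x) with hY
  set W2 : ℝ := br I z (fun S => ∑ x, W I d S x ^ 2) with hW2
  set U : ℝ := br I z (fun S => ∑ x, dg I S x * ind (¬ dg I S x ≤ 5 / 4 * d)) with hU
  set g : ℝ := br I z (fun S => ∑ x, ∑ y, ∑ w, ind (T I S x y w ∧ ¬ g0 I d S x y w)) with hg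
  have hW0 : ∀ S x, 0 ≤ W I d S x := fun S x =>
    Finset.sum_nonneg fun _ _ => Finset.sum_nonneg fun _ _ => ind_nonneg _
  refine arith_contra (z := z) (R := R) (A := bA I z) (B := bB I z) (b := bb I z)
    (D := bD I z R) (K := bK I z) (t := bt I z) (d := d) (U := U) (s := s) (G := G) (Y := Y)
    (W2 := W2) (C := bC I z d) (g := g) hz hz1 hRr hA hB hd0 ?_ hzb hD0 hD hBA hAB ?_ (K_le hI hz.le)
    (t_ge hI hz.le) (t_le hI hz.le) ?_ ?_ ?_ ?_ ?_ hC ?_ ?_ ?_ ?_ ?_
  · rw [hd]; field_simp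
  · exact br_nonneg hz.le fun S hS => Finset.sum_nonneg fun _ _ => Finset.sum_nonneg fun _ _ =>
      Finset.sum_nonneg fun _ _ => ind_nonneg _
  · exact bad_le hI hz.le d
  · exact bad0_le hI hz.le (by omega) hd0
  · rw [hU]
    unfold bC
    rw [← br_smul, ← br_smul]
    refine br_mono hz.le fun S hS => ?_
    rw [Finset.mul_sum, Finset.mul_sum]
    refine Finset.sum_le_sum fun x _ => ?_
    by_cases hx : al I S x
    · rw [ind_true hx, one_mul]
      exact cov_pt1 hd0 (dg_nonneg S x)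
    · rw [ind_false hx, dg_zero hx]; simp
  · exact br_nonneg hz.le fun S hS => Finset.sum_nonneg fun _ _ =>
      mul_nonneg (ind_nonneg _) (ind_nonneg _)
  · rw [hs]
    unfold bC
    rw [← br_smul, ← br_smul]
    refine br_mono hz.le fun S hS => ?_
    rw [Finset.mul_sum, Finset.mul_sum]
    refine Finset.sum_le_sum fun x _ => ?_
    have := mul_le_mul_of_nonneg_left (cov_pt2 hd0 (dg_nonneg (I := I) S x)) (ind_nonneg (al I S x))
    linarith
  · -- G ≤ 2 Y
    rw [hG, hY, ← br_smul]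
    refine br_mono hz.le fun S hS => ?_
    have h1 : ∑ x, W I d S x ≤ ∑ x, ∑ y, ∑ w, (ind (VG I d S x y w) * ind (dg I S x ≤ 2 / 3 * d)
        + ind (VG I d S w y x) * ind (dg I S w ≤ 2 / 3 * d)) := by
      unfold W
      refine Finset.sum_le_sum fun x _ => Finset.sum_le_sum fun y _ => Finset.sum_le_sum fun w _ => ?_
      by_cases hV : VG I d S x y w
      · rw [ind_true hV, ind_true (VG_swap hV), one_mul, one_mul]
        rcases VG_size hI hd0 hV with h | h
        · rw [ind_true h]; linarith [ind_nonneg (dg I S w ≤ 2 / 3 * d)]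
        · rw [ind_true h]; linarith [ind_nonneg (dg I S x ≤ 2 / 3 * d)]
      · rw [ind_false hV, zero_mul]
        have := mul_nonneg (ind_nonneg (VG I d S w y x)) (ind_nonneg (dg I S w ≤ 2 / 3 * d))
        linarith
    refine le_trans h1 ?_
    have h2 : ∑ x, ∑ y, ∑ w, (ind (VG I d S x y w) * ind (dg I S x ≤ 2 / 3 * d)
        + ind (VG I d S w y x) * ind (dg I S w ≤ 2 / 3 * d))
        = ∑ x, ∑ y, ∑ w, ind (VG I d S x y w) * ind (dg I S x ≤ 2 / 3 * d)
        + ∑ x, ∑ y, ∑ w, ind (VG I d S w y x) * ind (dg I S w ≤ 2 / 3 * d) := by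
      simp only [Finset.sum_add_distrib]
    have h3 : ∑ x, ∑ y, ∑ w, ind (VG I d S w y x) * ind (dg I S w ≤ 2 / 3 * d)
        = ∑ x, ∑ y, ∑ w, ind (VG I d S x y w) * ind (dg I S x ≤ 2 / 3 * d) := by
      set f : V → V → V → ℝ := fun a b c => ind (VG I d S a b c) * ind (dg I S a ≤ 2 / 3 * d)
      show ∑ x, ∑ y, ∑ w, f w y x = ∑ x, ∑ y, ∑ w, f x y w
      rw [sum3_swap12 (fun a b c => f c a b), sum3_swap23 (fun a b c => f b a c),
        sum3_swap12 f]
    have h4 : ∑ x, ∑ y, ∑ w, ind (VG I d S x y w) * ind (dg I S x ≤ 2 / 3 * d)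
        = ∑ x, ind (al I S x) * ind (dg I S x ≤ 2 / 3 * d) * W I d S x := by
      refine Finset.sum_congr rfl fun x _ => ?_
      unfold W
      rw [Finset.mul_sum]
      refine Finset.sum_congr rfl fun y _ => ?_
      rw [Finset.mul_sum]
      refine Finset.sum_congr rfl fun w _ => ?_
      by_cases hV : VG I d S x y w
      · have hx : al I S x := by
          have := hV.1
          exact ⟨this.1, hI.down (insert_subset_insert x (subset_insert y S)) this.2.2.2.2.2.2.1⟩
        rw [ind_true hV, ind_true hx]; ring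
      · rw [ind_false hV]; ring
    rw [h2, h3, h4]
    linarith
  · exact br_nonneg hz.le fun S hS => Finset.sum_nonneg fun x _ => hW0 S x
  · rw [hG]
    unfold bt W
    refine br_mono hz.le fun S hS => ?_
    exact Finset.sum_le_sum fun x _ => Finset.sum_le_sum fun y _ => Finset.sum_le_sum fun w _ =>
      ind_mono fun h => h.1
  · intro l hl
    rw [hY, hs, hW2]
    have e : l / 2 * br I z (fun S => ∑ x, ind (al I S x) * ind (dg I S x ≤ 2 / 3 * d))
        + br I z (fun S => ∑ x, W I d S x ^ 2) / (2 * l)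
        = br I z (fun S => l / 2 * (∑ x, ind (al I S x) * ind (dg I S x ≤ 2 / 3 * d))
          + (1 / (2 * l)) * ∑ x, W I d S x ^ 2) := by
      rw [br_add, br_smul, br_smul]
      ring
    rw [e]
    refine br_mono hz.le fun S hS => ?_
    rw [Finset.mul_sum, Finset.mul_sum, ← Finset.sum_add_distrib]
    refine Finset.sum_le_sum fun x _ => ?_
    obtain ⟨i, hi⟩ : ∃ i, i = ind (al I S x) * ind (dg I S x ≤ 2 / 3 * d) := ⟨_, rfl⟩
    have hi2 : i = 0 ∨ i = 1 := by
      rw [hi]
      by_cases h1 : al I S x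
      · by_cases h2 : dg I S x ≤ 2 / 3 * d
        · right; rw [ind_true h1, ind_true h2]; norm_num
        · left; rw [ind_false h2]; ring
      · left; rw [ind_false h1]; ring
    rw [← hi]
    rcases hi2 with h | h
    · rw [h]
      have : 0 ≤ 1 / (2 * l) * W I d S x ^ 2 := by positivity
      linarith
    · rw [h, one_mul, mul_one]
      have h5 : l / 2 + 1 / (2 * l) * W I d S x ^ 2 - W I d S x
          = (W I d S x - l) ^ 2 / (2 * l) := by field_simp; ring
      have h6 : 0 ≤ (W I d S x - l) ^ 2 / (2 * l) := by positivity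
      linarith
  · exact W2_le hI hz (by omega) hd0

end

end Pool.Agent.J6H90.DC
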