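import Pool.Agent.J6H90.DC.Gain

/-!
Integration of the differential inequality.
-/

set_option autoImplicit false
set_option linter.unusedSectionVars false
set_option linter.unusedVariables false

namespace Pool.Agent.J6H90.DC

open Finset

section
variable {V : Type} [Fintype V] [DecidableEq V]
variable (I : Finset V → Prop)

noncomputable def kap (z : ℝ) : ℝ := bN I z / bZ I z
noncomputable def ee (z : ℝ) : ℝ := 1 - kap I z * (1 + z) / (z * (Fintype.card V : ℝ))
noncomputable def vr (z : ℝ) : ℝ := bQ I z / bZ I z - kap I z ^ 2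

variable {I} {R : ℕ}

theorem br_hasDeriv {z : ℝ} (hz : z ≠ 0) (f : Finset V → ℝ) :
    HasDerivAt (fun z => br I z f) (br I z (fun S => (S.card : ℝ) * f S) / z) z := by
  unfold br
  rw [Finset.sum_div]
  apply HasDerivAt.fun_sum
  intro S _
  have h := ((hasDerivAt_pow S.card z).mul_const (f S)).const_mul (ind (I S))
  refine h.congr_deriv ?_
  rcases Nat.eq_zero_or_pos S.card with h0 | h0
  · simp [h0]
  · have : z ^ S.card = z ^ (S.card - 1) * z := by
      rw [← pow_succ]; congr 1; omega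
    rw [this]; field_simp

theorem bZ_ge_one (hI : Cx R I) {z : ℝ} (hz : 0 ≤ z) : 1 ≤ bZ I z := by
  unfold bZ br
  have h : ind (I ∅) * (z ^ (∅ : Finset V).card * 1) ≤ ∑ S : Finset V, ind (I S) * (z ^ S.card * 1) :=
    Finset.single_le_sum (f := fun S : Finset V => ind (I S) * (z ^ S.card * 1))
      (fun S _ => mul_nonneg (ind_nonneg _) (mul_nonneg (pow_nonneg hz _) zero_le_one)) (mem_univ _)
  rw [ind_true hI.emp] at h
  simpa using h

theorem bZ_pos (hI : Cx R I) {z : ℝ} (hz : 0 ≤ z) : 0 < bZ I z :=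
  lt_of_lt_of_le zero_lt_one (bZ_ge_one hI hz)

theorem sing (hI : Cx R I) (hR : 1 ≤ R) (x : V) : al I ∅ x := by
  refine ⟨notMem_empty x, ?_⟩
  by_contra h
  obtain ⟨A, hA, hAc, _⟩ := hI.blk hI.emp (notMem_empty x) h
  rw [subset_empty] at hA
  rw [hA, card_empty] at hAc
  omega

theorem bA_pos (hI : Cx R I) (hR : 1 ≤ R) {z : ℝ} (hz : 0 ≤ z) (hn : 0 < Fintype.card V) :
    0 < bA I z := by
  obtain ⟨x⟩ : Nonempty V := Fintype.card_pos_iff.1 hn
  unfold bA br
  have h : ind (I ∅) * (z ^ (∅ : Finset V).card * ∑ y, ind (al I ∅ y))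
      ≤ ∑ S : Finset V, ind (I S) * (z ^ S.card * ∑ y, ind (al I S y)) :=
    Finset.single_le_sum (f := fun S : Finset V => ind (I S) * (z ^ S.card * ∑ y, ind (al I S y)))
      (fun S _ => mul_nonneg (ind_nonneg _) (mul_nonneg (pow_nonneg hz _)
        (Finset.sum_nonneg fun _ _ => ind_nonneg _))) (mem_univ _)
  have h2 : ind (al I ∅ x) ≤ ∑ y, ind (al I ∅ y) :=
    Finset.single_le_sum (f := fun y => ind (al I ∅ y)) (fun _ _ => ind_nonneg _) (mem_univ x)
  rw [ind_true (sing hI hR x)] at h2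
  rw [ind_true hI.emp, card_empty, pow_zero, one_mul, one_mul] at h
  linarith

theorem bB_pos (hI : Cx R I) {z : ℝ} (hz : 0 < z) {S : Finset V} {v : V} (hS : I S)
    (hv : bl I S v) : 0 < bB I z := by
  unfold bB br
  have h : ind (I S) * (z ^ S.card * ∑ y, ind (bl I S y))
      ≤ ∑ S : Finset V, ind (I S) * (z ^ S.card * ∑ y, ind (bl I S y)) :=
    Finset.single_le_sum (f := fun S : Finset V => ind (I S) * (z ^ S.card * ∑ y, ind (bl I S y)))
      (fun S _ => mul_nonneg (ind_nonneg _) (mul_nonneg (pow_nonneg hz.le _)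
        (Finset.sum_nonneg fun _ _ => ind_nonneg _))) (mem_univ _)
  have h2 : ind (bl I S v) ≤ ∑ y, ind (bl I S y) :=
    Finset.single_le_sum (f := fun y => ind (bl I S y)) (fun _ _ => ind_nonneg _) (mem_univ v)
  rw [ind_true hv] at h2
  rw [ind_true hS, one_mul] at h
  have : 0 < z ^ S.card * ∑ y, ind (bl I S y) := mul_pos (pow_pos hz _) (by linarith)
  linarith

theorem kap_pos (hI : Cx R I) (hR : 1 ≤ R) {z : ℝ} (hz : 0 < z) (hn : 0 < Fintype.card V) :
    0 < kap I z := by
  unfold kap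
  rw [N_eq hI]
  exact div_pos (mul_pos hz (bA_pos hI hR hz.le hn)) (bZ_pos hI hz.le)

theorem ee_eq (hI : Cx R I) {z : ℝ} (hz : 0 < z) (hn : 0 < Fintype.card V) :
    ee I z = bB I z / ((Fintype.card V : ℝ) * bZ I z) := by
  have hnr : (0 : ℝ) < (Fintype.card V : ℝ) := by exact_mod_cast hn
  have hZ := bZ_pos hI hz.le
  have ht := total hI (z := z)
  have hN := N_eq hI (z := z)
  unfold ee kap
  rw [eq_div_iff (by positivity)]
  have : bB I z = (Fintype.card V : ℝ) * bZ I z - bN I z - bA I z := by linarith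
  rw [this, hN]
  field_simp
  ring

theorem ee_pos (hI : Cx R I) {z : ℝ} (hz : 0 < z) (hn : 0 < Fintype.card V) {S : Finset V} {v : V}
    (hS : I S) (hv : bl I S v) : 0 < ee I z := by
  have hnr : (0 : ℝ) < (Fintype.card V : ℝ) := by exact_mod_cast hn
  rw [ee_eq hI hz hn]
  exact div_pos (bB_pos hI hz hS hv) (mul_pos hnr (bZ_pos hI hz.le))

theorem kap_hasDeriv (hI : Cx R I) {z : ℝ} (hz : 0 < z) :
    HasDerivAt (kap I) (vr I z / z) z := by
  have h1 : HasDerivAt (fun z => bN I z) (bQ I z / z) z := by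
    have := br_hasDeriv (I := I) hz.ne' (fun S => (S.card : ℝ))
    refine this.congr_deriv ?_
    unfold bQ
    congr 1
    exact br_congr fun S hS => by ring
  have h2 : HasDerivAt (fun z => bZ I z) (bN I z / z) z := by
    have := br_hasDeriv (I := I) hz.ne' (fun _ => (1 : ℝ))
    refine this.congr_deriv ?_
    unfold bN
    congr 1
    exact br_congr fun S hS => by ring
  have hZ := bZ_pos hI hz.le
  refine (h1.div h2 hZ.ne').congr_deriv ?_
  unfold vr kap
  field_simp

theorem ee_hasDeriv (hI : Cx R I) {z : ℝ} (hz : 0 < z) (hn : 0 < Fintype.card V) :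
    HasDerivAt (ee I) ((kap I z - (1 + z) * vr I z) / (z ^ 2 * (Fintype.card V : ℝ))) z := by
  have hnr : (0 : ℝ) < (Fintype.card V : ℝ) := by exact_mod_cast hn
  have h1 := kap_hasDeriv hI hz
  have h2 : HasDerivAt (fun z : ℝ => 1 + z) 1 z := (hasDerivAt_id z).const_add 1
  have h3 : HasDerivAt (fun z : ℝ => z * (Fintype.card V : ℝ)) (1 * (Fintype.card V : ℝ)) z :=
    (hasDerivAt_id z).mul_const _
  have h4 := ((h1.mul h2).div h3 (by positivity)).const_sub 1
  refine h4.congr_deriv ?_
  simp only [Pi.mul_apply]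
  field_simp
  ring

theorem one_sub_ee {z : ℝ} : 1 - ee I z = kap I z * (1 + z) / (z * (Fintype.card V : ℝ)) := by
  unfold ee; ring

theorem vr_nonneg (hI : Cx R I) {z : ℝ} (hz : 0 ≤ z) : 0 ≤ vr I z := by
  have hZ := bZ_pos hI hz
  have h := br_cs (I := I) hz (fun S => (S.card : ℝ)) (fun _ => 1)
  have e1 : br I z (fun S => (S.card : ℝ) * 1) = bN I z := by unfold bN; simp
  have e2 : br I z (fun S => (1 : ℝ) ^ 2) = bZ I z := by unfold bZ; simp
  rw [e1, e2] at h
  unfold vr kap
  rw [div_pow, sub_nonneg, div_le_div_iff₀ (by positivity) hZ]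
  have h3 : bN I z ^ 2 ≤ bQ I z * bZ I z := h
  nlinarith

/-- monotonicity -/
theorem mono (hI : Cx R I) (hR : 1 ≤ R) (hn : 0 < Fintype.card V) {S : Finset V} {v : V}
    (hS : I S) (hv : bl I S v) {a b c : ℝ} (ha : 0 < a) (hab : a ≤ b) (hc : 1 ≤ c)
    (h : ∀ z, a < z → z < b → c * kap I z ^ 2
      ≤ vr I z * (z * (Fintype.card V : ℝ) * (1 + (R - 1) * ee I z))) :
    R * Real.log (kap I a) - c * Real.log (ee I a)
      ≤ R * Real.log (kap I b) - c * Real.log (ee I b) := by
  have hnr : (0 : ℝ) < (Fintype.card V : ℝ) := by exact_mod_cast hn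
  have hd : ∀ z, 0 < z → HasDerivAt (fun z => R * Real.log (kap I z) - c * Real.log (ee I z))
      (R * ((vr I z / z) / kap I z)
        - c * (((kap I z - (1 + z) * vr I z) / (z ^ 2 * (Fintype.card V : ℝ))) / ee I z)) z := by
    intro z hz
    have h1 := ((kap_hasDeriv hI hz).log (kap_pos hI hR hz hn).ne').const_mul (R : ℝ)
    have h2 := ((ee_hasDeriv hI hz hn).log (ee_pos hI hz hn hS hv).ne').const_mul c
    exact h1.sub h2
  have hm : MonotoneOn (fun z => R * Real.log (kap I z) - c * Real.log (ee I z)) (Set.Icc a b) := by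
    apply monotoneOn_of_deriv_nonneg (convex_Icc a b)
    · intro z hz
      exact (hd z (lt_of_lt_of_le ha hz.1)).continuousAt.continuousWithinAt
    · intro z hz
      rw [interior_Icc] at hz
      exact (hd z (lt_trans ha hz.1)).differentiableAt.differentiableWithinAt
    · intro z hz
      rw [interior_Icc] at hz
      have hz0 : 0 < z := lt_trans ha hz.1
      rw [(hd z hz0).deriv]
      have hk := kap_pos hI hR hz0 hn
      have he := ee_pos hI hz0 hn hS hv
      have hv0 := vr_nonneg hI hz0.le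
      have hh := h z hz.1 hz.2
      have h1e : kap I z * (1 + z) = z * (Fintype.card V : ℝ) * (1 - ee I z) := by
        rw [one_sub_ee]; field_simp
      have h1e0 : 0 ≤ 1 - ee I z := by rw [one_sub_ee]; positivity
      rw [sub_nonneg]
      have key : c * (kap I z ^ 2 - kap I z * (1 + z) * vr I z)
          ≤ R * (ee I z * (vr I z * (z * (Fintype.card V : ℝ)))) := by
        rw [h1e]
        have : 0 ≤ (c - 1) * (vr I z * (z * (Fintype.card V : ℝ)) * (1 - ee I z)) := by
          apply mul_nonneg (by linarith); positivity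
        linarith
      have e1 : c * (((kap I z - (1 + z) * vr I z) / (z ^ 2 * (Fintype.card V : ℝ))) / ee I z)
          = c * (kap I z ^ 2 - kap I z * (1 + z) * vr I z) /
            (kap I z * (z ^ 2 * (Fintype.card V : ℝ)) * ee I z) := by
        field_simp
      have e2 : R * ((vr I z / z) / kap I z) = R * (ee I z * (vr I z * (z * (Fintype.card V : ℝ)))) /
            (kap I z * (z ^ 2 * (Fintype.card V : ℝ)) * ee I z) := by
        field_simp
      rw [e1, e2]
      exact div_le_div_of_nonneg_right key (by positivity)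
  exact hm (Set.left_mem_Icc.2 hab) (Set.right_mem_Icc.2 hab) hab

/-- the base inequality, normalised -/
theorem base_norm (hI : Cx R I) {z : ℝ} (hz : 0 < z) (hn : 0 < Fintype.card V) :
    1 * kap I z ^ 2 ≤ vr I z * (z * (Fintype.card V : ℝ) * (1 + (R - 1) * ee I z)) := by
  have hnr : (0 : ℝ) < (Fintype.card V : ℝ) := by exact_mod_cast hn
  have hZ := bZ_pos hI hz.le
  have h := base_ineq hI hz.le hZ
  have hD := bD_nonneg hI hz.le
  have hv0 := vr_nonneg hI hz.le
  have e1 : bQ I z - bN I z ^ 2 / bZ I z = vr I z * bZ I z := by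
    unfold vr kap; field_simp
  have e2 : z * ((Fintype.card V : ℝ) * bZ I z + (R - 1) * bB I z)
      = bZ I z * (z * (Fintype.card V : ℝ) * (1 + (R - 1) * ee I z)) := by
    rw [ee_eq hI hz hn]; field_simp
  have e3 : bN I z = kap I z * bZ I z := by unfold kap; field_simp
  rw [e1] at h
  have h2 : bN I z ^ 2 ≤ vr I z * bZ I z *
      (z * ((Fintype.card V : ℝ) * bZ I z + (R - 1) * bB I z)) := by
    refine le_trans h (mul_le_mul_of_nonneg_left ?_ (by positivity))
    exact mul_le_mul_of_nonneg_left (by linarith) hz.le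
  rw [e2, e3] at h2
  have h3 : bZ I z ^ 2 * (1 * kap I z ^ 2) ≤ bZ I z ^ 2 *
      (vr I z * (z * (Fintype.card V : ℝ) * (1 + (R - 1) * ee I z))) := by linarith
  exact le_of_mul_le_mul_left h3 (by positivity)

theorem gain_norm (hI : Cx R I) (hR : 2 ≤ R) {z : ℝ} (hz : 0 < z) (hz1 : z ≤ 1)
    (hn : 0 < Fintype.card V) (h1 : 1 / 4 ≤ ee I z) (h2 : ee I z ≤ 3 / 4) :
    (1 + 8 / 10000000000) * kap I z ^ 2
      ≤ vr I z * (z * (Fintype.card V : ℝ) * (1 + (R - 1) * ee I z)) := by
  have hnr : (0 : ℝ) < (Fintype.card V : ℝ) := by exact_mod_cast hn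
  have hZ := bZ_pos hI hz.le
  have he := ee_eq hI hz hn
  have hnZ : 0 < (Fintype.card V : ℝ) * bZ I z := by positivity
  have hB : bB I z = ee I z * ((Fintype.card V : ℝ) * bZ I z) := by
    rw [he]; field_simp
  have h := gain hI hR hz hz1 hZ (by rw [hB]; nlinarith) (by rw [hB]; nlinarith) hnr
  have e1 : bQ I z - bN I z ^ 2 / bZ I z = vr I z * bZ I z := by
    unfold vr kap; field_simp
  have e2 : z * ((Fintype.card V : ℝ) * bZ I z + (R - 1) * bB I z)
      = bZ I z * (z * (Fintype.card V : ℝ) * (1 + (R - 1) * ee I z)) := by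
    rw [he]; field_simp
  have e3 : bN I z = kap I z * bZ I z := by unfold kap; field_simp
  rw [e1, e2, e3] at h
  have h3 : bZ I z ^ 2 * ((1 + 8 / 10000000000) * kap I z ^ 2) ≤ bZ I z ^ 2 *
      (vr I z * (z * (Fintype.card V : ℝ) * (1 + (R - 1) * ee I z))) := by linarith
  exact le_of_mul_le_mul_left h3 (by positivity)

end

end Pool.Agent.J6H90.DC
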