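import Pool.Agent.J6H90.DC.Basic

/-!
The basic counts.
-/

set_option autoImplicit false
set_option linter.unusedSectionVars false
set_option linter.unusedVariables false

namespace Pool.Agent.J6H90.DC

open Finset

section
variable {V : Type} [Fintype V] [DecidableEq V]

variable (I : Finset V → Prop) (z : ℝ)

/-- the number of elements of `S` whose deletion frees `v` -/
noncomputable def fc (S : Finset V) (v : V) : ℝ := ∑ x, ind (x ∈ S ∧ I (insert v (S.erase x)))

/-- the number of elements of `S` whose deletion separates `x` and `w` -/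
noncomputable def gc (S : Finset V) (x w : V) : ℝ :=
  ∑ y, ind (y ∈ S ∧ I (insert x (insert w (S.erase y))))

/-- a violation of transitivity -/
def KK (S : Finset V) (x u y : V) : Prop := adj I S x u ∧ adj I S u y ∧ x ≠ y ∧ ¬ adj I S x y

/-- a triple completing a block -/
def T (S : Finset V) (x y w : V) : Prop :=
  x ∉ S ∧ y ∉ S ∧ w ∉ S ∧ x ≠ y ∧ x ≠ w ∧ y ≠ w ∧ I (insert x (insert y S)) ∧
    I (insert x (insert w S)) ∧ I (insert y (insert w S)) ∧ ¬ I (insert x (insert y (insert w S)))

noncomputable def bZ : ℝ := br I z (fun _ => 1)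
noncomputable def bA : ℝ := br I z (fun S => ∑ x, ind (al I S x))
noncomputable def bB : ℝ := br I z (fun S => ∑ x, ind (bl I S x))
noncomputable def bD (R : ℕ) : ℝ := br I z (fun S => ∑ x, ind (bl I S x) * (R - fc I S x))
noncomputable def bb : ℝ := br I z (fun S => ∑ x, dg I S x)
noncomputable def bK : ℝ := br I z (fun S => ∑ x, ∑ u, ∑ y, ind (KK I S x u y))
noncomputable def bt : ℝ := br I z (fun S => ∑ x, ∑ y, ∑ w, ind (T I S x y w))

variable {I} {z} {R : ℕ}

theorem al_I (hI : Cx R I) {S : Finset V} {x : V} (h : al I S x) : I S :=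
  hI.down (subset_insert x S) h.2

theorem adj_symm {S : Finset V} {x w : V} (h : adj I S x w) : adj I S w x :=
  ⟨h.1.symm, h.2.2.1, h.2.1, by rw [Finset.insert_comm]; exact h.2.2.2⟩

theorem fc_nonneg (S : Finset V) (v : V) : 0 ≤ fc I S v :=
  Finset.sum_nonneg fun _ _ => ind_nonneg _

theorem gc_nonneg (S : Finset V) (x w : V) : 0 ≤ gc I S x w :=
  Finset.sum_nonneg fun _ _ => ind_nonneg _

theorem dg_nonneg (S : Finset V) (x : V) : 0 ≤ dg I S x :=
  Finset.sum_nonneg fun _ _ => ind_nonneg _

/-- an element whose deletion frees `v` lies in every obstruction -/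
theorem mem_of_free (hI : Cx R I) {S A : Finset V} {v x : V} (hA : A ⊆ S)
    (hA2 : ¬ I (insert v A)) (h : I (insert v (S.erase x))) : x ∈ A := by
  by_contra hx
  apply hA2
  refine hI.down (insert_subset_insert v ?_) h
  intro a ha
  rw [mem_erase]
  exact ⟨fun h => hx (h ▸ ha), hA ha⟩

theorem fc_le (hI : Cx R I) {S : Finset V} {v : V} (hS : I S) (h : bl I S v) : fc I S v ≤ R := by
  obtain ⟨A, hA, hAc, hA2⟩ := hI.blk hS h.1 h.2
  have := sum_ind_le_card (P := fun x => x ∈ S ∧ I (insert v (S.erase x))) (A := A)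
    (fun x hx => mem_of_free hI hA hA2 hx.2)
  rw [hAc] at this
  exact this

theorem adj_blk (hI : Cx R I) {S : Finset V} {x w : V} (h : adj I S x w) :
    ∃ A : Finset V, A ⊆ insert x S ∧ A.card = R ∧ x ∈ A ∧ ¬ I (insert w A) := by
  have h1 : w ∉ insert x S := by
    rw [mem_insert]
    rintro (h2 | h2)
    · exact h.1 h2.symm
    · exact h.2.2.1.1 h2
  have h2 : ¬ I (insert w (insert x S)) := by
    rw [Finset.insert_comm]; exact h.2.2.2
  obtain ⟨A, hA, hAc, hA2⟩ := hI.blk h.2.1.2 h1 h2
  refine ⟨A, hA, hAc, ?_, hA2⟩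
  by_contra hx
  apply hA2
  refine hI.down (insert_subset_insert w ?_) h.2.2.1.2
  intro a ha
  have := hA ha
  rw [mem_insert] at this
  rcases this with h3 | h3
  · exact absurd (h3 ▸ ha) hx
  · exact h3

theorem gc_le (hI : Cx R I) {S : Finset V} {x w : V} (h : adj I S x w) :
    gc I S x w ≤ (R : ℝ) - 1 := by
  obtain ⟨A, hA, hAc, hxA, hA2⟩ := adj_blk hI h
  have hxS : x ∉ S := h.2.1.1
  have := sum_ind_le_card (P := fun y => y ∈ S ∧ I (insert x (insert w (S.erase y))))
    (A := A.erase x) (fun y hy => by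
      have hyx : y ≠ x := fun h => hxS (h ▸ hy.1)
      rw [mem_erase]
      refine ⟨hyx, ?_⟩
      refine mem_of_free hI hA hA2 ?_
      have e : insert w ((insert x S).erase y) = insert x (insert w (S.erase y)) := by
        rw [erase_insert_of_ne (fun h => hyx h.symm), Finset.insert_comm]
      rw [e]; exact hy.2)
  rw [card_erase_of_mem hxA, hAc] at this
  have hR : 1 ≤ R := by rw [← hAc]; exact card_pos.2 ⟨x, hxA⟩
  rw [Nat.cast_sub hR] at this
  push_cast at this
  exact this

/-- `z b = Σ f` -/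
theorem zb_eq (hI : Cx R I) : z * bb I z = br I z (fun S => ∑ v, ind (bl I S v) * fc I S v) := by
  have h := mecke hI (z := z) (fun S x => ∑ w, ind (w ∉ S ∧ ¬ I (insert w S) ∧ I (insert w (S.erase x))))
  have h1 : br I z (fun S => ∑ y, ind (al I S y) *
      ∑ w, ind (w ∉ insert y S ∧ ¬ I (insert w (insert y S)) ∧ I (insert w ((insert y S).erase y))))
      = bb I z := by
    unfold bb
    refine br_congr fun S hS => Finset.sum_congr rfl fun y _ => ?_
    unfold dg
    rw [Finset.mul_sum]
    refine Finset.sum_congr rfl fun w _ => ?_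
    rw [ind_mul]
    refine ind_congr ?_
    constructor
    · rintro ⟨a, b, c, d⟩
      rw [erase_insert a.1] at d
      rw [mem_insert, not_or] at b
      exact ⟨fun h => b.1 h.symm, a, ⟨b.2, d⟩, by rw [Finset.insert_comm]; exact c⟩
    · rintro ⟨a, b, c, d⟩
      refine ⟨b, ?_, ?_, ?_⟩
      · rw [mem_insert, not_or]; exact ⟨fun h => a h.symm, c.1⟩
      · rw [Finset.insert_comm]; exact d
      · rw [erase_insert b.1]; exact c.2
  rw [h1] at h
  rw [← h]
  refine br_congr fun S hS => ?_
  have e1 : ∀ x, ind (x ∈ S) * ∑ w, ind (w ∉ S ∧ ¬ I (insert w S) ∧ I (insert w (S.erase x)))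
      = ∑ w, ind (bl I S w) * ind (x ∈ S ∧ I (insert w (S.erase x))) := by
    intro x
    rw [Finset.mul_sum]
    refine Finset.sum_congr rfl fun w _ => ?_
    rw [ind_mul, ind_mul]
    refine ind_congr ?_
    unfold bl
    tauto
  rw [Finset.sum_congr rfl fun x _ => e1 x, Finset.sum_comm]
  refine Finset.sum_congr rfl fun w _ => ?_
  unfold fc
  rw [Finset.mul_sum]

theorem zb_eq2 (hI : Cx R I) : z * bb I z = R * bB I z - bD I z R := by
  rw [zb_eq hI]
  unfold bB bD
  rw [← br_smul, ← br_sub]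
  refine br_congr fun S hS => ?_
  rw [Finset.mul_sum, ← Finset.sum_sub_distrib]
  exact Finset.sum_congr rfl fun v _ => by ring

theorem bD_nonneg (hI : Cx R I) (hz : 0 ≤ z) : 0 ≤ bD I z R := by
  refine br_nonneg hz fun S hS => Finset.sum_nonneg fun v _ => ?_
  by_cases h : bl I S v
  · rw [ind_true h]; linarith [fc_le hI hS h]
  · rw [ind_false h]; linarith

theorem pair_count (hI : Cx R I) {S : Finset V} {u : V} (hS : I S) (hu : bl I S u) :
    ∑ x, ∑ y, ind (x ∈ S ∧ y ∈ S ∧ x ≠ y ∧ I (insert u ((S.erase x).erase y)) ∧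
      ¬ I (insert u (S.erase y)) ∧ ¬ I (insert u (S.erase x)))
      ≤ 2 * R * (R - fc I S u) := by
  classical
  set Q : V → V → Prop := fun x y => x ∈ S ∧ y ∈ S ∧ x ≠ y ∧ I (insert u ((S.erase x).erase y)) ∧
      ¬ I (insert u (S.erase y)) ∧ ¬ I (insert u (S.erase x)) with hQ
  have hQs : ∀ x y, Q x y → Q y x := by
    rintro x y ⟨a, b, c, d, e, f⟩
    exact ⟨b, a, c.symm, by rw [erase_right_comm]; exact d, f, e⟩
  obtain ⟨A, hA, hAc, hA2⟩ := hI.blk hS hu.1 hu.2
  set F : Finset V := univ.filter (fun x => x ∈ S ∧ I (insert u (S.erase x))) with hF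
  have hFA : F ⊆ A := fun x hx => mem_of_free hI hA hA2 (mem_filter.1 hx).2.2
  have hFc : (F.card : ℝ) = fc I S u := by
    unfold fc; rw [sum_ind_card]
  have hi0 : 0 ≤ (R : ℝ) - fc I S u := by linarith [fc_le hI hS hu]
  have hiR : (R : ℝ) - fc I S u ≤ R := by linarith [fc_nonneg (I := I) S u]
  -- each row
  have hrow : ∀ x, ∑ y, ind (Q x y) ≤ R - fc I S u := by
    intro x
    by_cases hx : ∃ y, Q x y
    · obtain ⟨y0, hy0⟩ := hx
      have hxS := hy0.1
      have hb : ¬ I (insert u (S.erase x)) := hy0.2.2.2.2.2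
      obtain ⟨B, hB, hBc, hB2⟩ := hI.blk (hI.down (erase_subset x S) hS)
        (fun h => hu.1 (mem_of_mem_erase h)) hb
      have hFB : F ⊆ B := by
        intro a ha
        have ha2 := (mem_filter.1 ha).2.2
        refine mem_of_free hI (subset_trans hB (erase_subset x S)) hB2 ha2
      have h1 := sum_ind_le_card (P := fun y => Q x y) (A := B \ F) (fun y hy => by
        rw [mem_sdiff]
        constructor
        · exact mem_of_free hI hB hB2 hy.2.2.2.1
        · intro h
          exact hy.2.2.2.2.1 (mem_filter.1 h).2.2)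
      rw [card_sdiff_of_subset hFB, hBc, Nat.cast_sub (by rw [← hBc]; exact card_le_card hFB), hFc] at h1
      exact h1
    · have : ∀ y, ind (Q x y) = 0 := fun y => ind_false fun h => hx ⟨y, h⟩
      rw [Finset.sum_congr rfl fun y _ => this y, Finset.sum_const_zero]
      exact hi0
  have hAF : ∑ x, ind (x ∈ A \ F) ≤ R - fc I S u := by
    have h1 := sum_ind_le_card (P := fun y => y ∈ A \ F) (A := A \ F) (fun y hy => hy)
    rw [card_sdiff_of_subset hFA, hAc, Nat.cast_sub (by rw [← hAc]; exact card_le_card hFA), hFc] at h1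
    exact h1
  have hpart : ∑ x, ∑ y, ind (x ∈ A ∧ Q x y) ≤ R * (R - fc I S u) := by
    calc ∑ x, ∑ y, ind (x ∈ A ∧ Q x y) ≤ ∑ x, ind (x ∈ A \ F) * ∑ y, ind (Q x y) := by
          refine Finset.sum_le_sum fun x _ => ?_
          rw [Finset.mul_sum]
          refine Finset.sum_le_sum fun y _ => ?_
          rw [ind_mul]
          refine ind_mono ?_
          rintro ⟨a, b⟩
          exact ⟨mem_sdiff.2 ⟨a, fun h => b.2.2.2.2.2 (mem_filter.1 h).2.2⟩, b⟩
      _ ≤ ∑ x, ind (x ∈ A \ F) * (R - fc I S u) :=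
          Finset.sum_le_sum fun x _ => mul_le_mul_of_nonneg_left (hrow x) (ind_nonneg _)
      _ = (∑ x, ind (x ∈ A \ F)) * (R - fc I S u) := by rw [Finset.sum_mul]
      _ ≤ (R - fc I S u) * (R - fc I S u) := mul_le_mul_of_nonneg_right hAF hi0
      _ ≤ R * (R - fc I S u) := mul_le_mul_of_nonneg_right hiR hi0
  have hpart2 : ∑ x, ∑ y, ind (y ∈ A ∧ Q x y) ≤ R * (R - fc I S u) := by
    rw [Finset.sum_comm]
    refine le_trans (le_of_eq ?_) hpart
    refine Finset.sum_congr rfl fun x _ => Finset.sum_congr rfl fun y _ => ind_congr ?_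
    exact ⟨fun h => ⟨h.1, hQs _ _ h.2⟩, fun h => ⟨h.1, hQs _ _ h.2⟩⟩
  have hcov : ∀ x y, Q x y → x ∈ A ∨ y ∈ A := by
    intro x y h
    by_contra hc
    rw [not_or] at hc
    apply hA2
    refine hI.down (insert_subset_insert u ?_) h.2.2.2.1
    intro a ha
    rw [mem_erase, mem_erase]
    exact ⟨fun h => hc.2 (h ▸ ha), fun h => hc.1 (h ▸ ha), hA ha⟩
  have : ∑ x, ∑ y, ind (Q x y) ≤ ∑ x, ∑ y, ind (x ∈ A ∧ Q x y) + ∑ x, ∑ y, ind (y ∈ A ∧ Q x y) := by
    rw [← Finset.sum_add_distrib]
    refine Finset.sum_le_sum fun x _ => ?_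
    rw [← Finset.sum_add_distrib]
    refine Finset.sum_le_sum fun y _ => ?_
    by_cases h : Q x y
    · rw [ind_true h]
      rcases hcov x y h with h1 | h1
      · rw [ind_true (show x ∈ A ∧ Q x y from ⟨h1, h⟩)]
        linarith [ind_nonneg (y ∈ A ∧ Q x y)]
      · rw [ind_true (show y ∈ A ∧ Q x y from ⟨h1, h⟩)]
        linarith [ind_nonneg (x ∈ A ∧ Q x y)]
    · rw [ind_false h]
      linarith [ind_nonneg (y ∈ A ∧ Q x y), ind_nonneg (x ∈ A ∧ Q x y)]
  linarith

theorem KK_iff (hI : Cx R I) {S : Finset V} {x u y : V} : KK I S x u y ↔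
    pr I S x y ∧ (u ∉ insert x (insert y S) ∧
      I (insert u (((insert x (insert y S)).erase x).erase y)) ∧
      ¬ I (insert u ((insert x (insert y S)).erase y)) ∧
      ¬ I (insert u ((insert x (insert y S)).erase x))) := by
  constructor
  · rintro ⟨h1, h2, h3, h4⟩
    have hx := h1.2.1
    have hy := h2.2.2.1
    have hu := h2.2.1
    have hI2 : I (insert x (insert y S)) := by
      by_contra hc
      exact h4 ⟨h3, hx, hy, hc⟩
    have hxyS : x ∉ insert y S := by
      rw [mem_insert, not_or]; exact ⟨h3, hx.1⟩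
    have e1 : (insert x (insert y S)).erase x = insert y S := erase_insert hxyS
    have e2 : (insert x (insert y S)).erase y = insert x S := by
      rw [erase_insert_of_ne h3, erase_insert hy.1]
    refine ⟨⟨hx.1, hy.1, h3, hI2⟩, ?_, ?_, ?_, ?_⟩
    · rw [mem_insert, mem_insert, not_or, not_or]
      exact ⟨fun h => h1.1 h.symm, h2.1, hu.1⟩
    · rw [e1, erase_insert hy.1]; exact hu.2
    · rw [e2, Finset.insert_comm]; exact h1.2.2.2
    · rw [e1]; exact h2.2.2.2
  · rintro ⟨⟨hx, hy, hxy, hI2⟩, hu, h1, h2, h3⟩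
    have hxyS : x ∉ insert y S := by
      rw [mem_insert, not_or]; exact ⟨hxy, hx⟩
    have e1 : (insert x (insert y S)).erase x = insert y S := erase_insert hxyS
    have e2 : (insert x (insert y S)).erase y = insert x S := by
      rw [erase_insert_of_ne hxy, erase_insert hy]
    rw [e1, erase_insert hy] at h1
    rw [e2] at h2
    rw [e1] at h3
    rw [mem_insert, mem_insert, not_or, not_or] at hu
    have hax : al I S x := ⟨hx, hI.down (insert_subset_insert x (subset_insert y S)) hI2⟩
    have hay : al I S y := ⟨hy, hI.down (subset_insert x _) hI2⟩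
    have hau : al I S u := ⟨hu.2.2, h1⟩
    refine ⟨⟨fun h => hu.1 h.symm, hax, hau, ?_⟩, ⟨hu.2.1, hau, hay, h3⟩, hxy, ?_⟩
    · rw [Finset.insert_comm]; exact h2
    · intro h; exact h.2.2.2 hI2

theorem K_le (hI : Cx R I) (hz : 0 ≤ z) : z ^ 2 * bK I z ≤ 2 * R * bD I z R := by
  have h := mecke2 hI (z := z) (fun S x y => ∑ u, ind (u ∉ S ∧
      I (insert u ((S.erase x).erase y)) ∧ ¬ I (insert u (S.erase y)) ∧ ¬ I (insert u (S.erase x))))
  have h1 : br I z (fun S => ∑ x, ∑ y, ind (pr I S x y) * ∑ u, ind (u ∉ insert x (insert y S) ∧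
      I (insert u (((insert x (insert y S)).erase x).erase y)) ∧
      ¬ I (insert u ((insert x (insert y S)).erase y)) ∧
      ¬ I (insert u ((insert x (insert y S)).erase x)))) = bK I z := by
    unfold bK
    refine br_congr fun S hS => Finset.sum_congr rfl fun x _ => ?_
    rw [Finset.sum_comm]
    refine Finset.sum_congr rfl fun y _ => ?_
    rw [Finset.mul_sum]
    refine Finset.sum_congr rfl fun u _ => ?_
    rw [ind_mul]
    exact ind_congr (KK_iff hI).symm
  rw [h1] at h
  rw [← h]
  unfold bD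
  rw [← br_smul]
  refine br_mono hz fun S hS => ?_
  have e1 : ∀ x, ∑ y, ind (x ∈ S ∧ y ∈ S ∧ x ≠ y) * ∑ u, ind (u ∉ S ∧
      I (insert u ((S.erase x).erase y)) ∧ ¬ I (insert u (S.erase y)) ∧ ¬ I (insert u (S.erase x)))
      = ∑ u, ∑ y, ind (u ∉ S) * ind (x ∈ S ∧ y ∈ S ∧ x ≠ y ∧ I (insert u ((S.erase x).erase y)) ∧
      ¬ I (insert u (S.erase y)) ∧ ¬ I (insert u (S.erase x))) := by
    intro x
    rw [Finset.sum_comm]
    refine Finset.sum_congr rfl fun y _ => ?_
    rw [Finset.mul_sum]
    refine Finset.sum_congr rfl fun u _ => ?_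
    rw [ind_mul, ind_mul]
    refine ind_congr ?_
    tauto
  rw [Finset.sum_congr rfl fun x _ => e1 x, Finset.sum_comm, Finset.mul_sum]
  refine Finset.sum_le_sum fun u _ => ?_
  by_cases hu : bl I S u
  · rw [ind_true hu, one_mul]
    have := pair_count hI hS hu
    rw [ind_true hu.1]
    simp only [one_mul]
    exact this
  · rw [ind_false hu]
    have : ∀ x y, ind (u ∉ S) * ind (x ∈ S ∧ y ∈ S ∧ x ≠ y ∧ I (insert u ((S.erase x).erase y)) ∧
      ¬ I (insert u (S.erase y)) ∧ ¬ I (insert u (S.erase x))) = 0 := by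
      intro x y
      rw [ind_mul]
      apply ind_false
      rintro ⟨a, b, c, d, e, f, g⟩
      apply hu
      exact ⟨a, fun h => f (hI.down (insert_subset_insert u (erase_subset y S)) h)⟩
    simp only [this, Finset.sum_const_zero]
    linarith

theorem T_iff (hI : Cx R I) {S : Finset V} {x y w : V} : T I S x y w ↔
    al I S y ∧ (adj I (insert y S) x w ∧ I (insert x (insert w S))) := by
  constructor
  · rintro ⟨h1, h2, h3, h4, h5, h6, h7, h8, h9, h10⟩
    refine ⟨⟨h2, hI.down (subset_insert x _) h7⟩, ⟨h5, ⟨?_, h7⟩, ⟨?_, ?_⟩, ?_⟩, h8⟩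
    · rw [mem_insert, not_or]; exact ⟨h4, h1⟩
    · rw [mem_insert, not_or]; exact ⟨fun h => h6 h.symm, h3⟩
    · rw [Finset.insert_comm]; exact h9
    · rw [Finset.insert_comm w y]; exact h10
  · rintro ⟨⟨h1, h2⟩, ⟨h3, h4, h5, h6⟩, h7⟩
    have h8 := h4.1
    have h9 := h5.1
    rw [mem_insert, not_or] at h8 h9
    refine ⟨h8.2, h1, h9.2, h8.1, h3, fun h => h9.1 h.symm, h4.2, h7, ?_, ?_⟩
    · rw [Finset.insert_comm]; exact h5.2
    · rw [Finset.insert_comm y w]; exact h6

theorem T_swap {S : Finset V} {x y w : V} (h : T I S x y w) : T I S y x w := by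
  obtain ⟨h1, h2, h3, h4, h5, h6, h7, h8, h9, h10⟩ := h
  refine ⟨h2, h1, h3, h4.symm, h6, h5, ?_, h9, h8, ?_⟩
  · rw [Finset.insert_comm]; exact h7
  · rw [Finset.insert_comm]; exact h10

theorem T_swap2 {S : Finset V} {x y w : V} (h : T I S x y w) : T I S x w y := by
  obtain ⟨h1, h2, h3, h4, h5, h6, h7, h8, h9, h10⟩ := h
  refine ⟨h1, h3, h2, h5, h4, h6.symm, h8, h7, ?_, ?_⟩
  · rw [Finset.insert_comm]; exact h9
  · rw [Finset.insert_comm w y]; exact h10

/-- the main principle for triples -/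
theorem T_mecke (hI : Cx R I) (φ : Finset V → V → V → ℝ) :
    z * br I z (fun S => ∑ x, ∑ y, ∑ w, ind (T I S x y w) * φ (insert y S) x w)
      = br I z (fun S => ∑ x, ∑ w, ind (adj I S x w) * (gc I S x w * φ S x w)) := by
  have h := mecke hI (z := z) (fun S y => ∑ x, ∑ w,
    ind (adj I S x w ∧ I (insert x (insert w (S.erase y)))) * φ S x w)
  have h1 : br I z (fun S => ∑ y, ind (al I S y) * ∑ x, ∑ w,
      ind (adj I (insert y S) x w ∧ I (insert x (insert w ((insert y S).erase y)))) *
        φ (insert y S) x w)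
      = br I z (fun S => ∑ x, ∑ y, ∑ w, ind (T I S x y w) * φ (insert y S) x w) := by
    refine br_congr fun S hS => ?_
    rw [Finset.sum_comm (f := fun x y => ∑ w, ind (T I S x y w) * φ (insert y S) x w)]
    refine Finset.sum_congr rfl fun y _ => ?_
    rw [Finset.mul_sum]
    refine Finset.sum_congr rfl fun x _ => ?_
    rw [Finset.mul_sum]
    refine Finset.sum_congr rfl fun w _ => ?_
    rw [← mul_assoc, ind_mul]
    congr 1
    by_cases hy : y ∈ S
    · rw [ind_false (fun h => h.1.1 hy), ind_false (fun h : T I S x y w => h.2.1 hy)]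
    · rw [erase_insert hy]
      exact ind_congr (T_iff hI).symm
  rw [h1] at h
  rw [← h]
  refine br_congr fun S hS => ?_
  have e1 : ∀ y, ind (y ∈ S) * ∑ x, ∑ w,
      ind (adj I S x w ∧ I (insert x (insert w (S.erase y)))) * φ S x w
      = ∑ x, ∑ w, ind (adj I S x w) * (ind (y ∈ S ∧ I (insert x (insert w (S.erase y)))) *
        φ S x w) := by
    intro y
    rw [Finset.mul_sum]
    refine Finset.sum_congr rfl fun x _ => ?_
    rw [Finset.mul_sum]
    refine Finset.sum_congr rfl fun w _ => ?_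
    rw [← mul_assoc, ← mul_assoc, ind_mul, ind_mul]
    congr 1
    refine ind_congr ?_
    tauto
  rw [Finset.sum_congr rfl fun y _ => e1 y, Finset.sum_comm]
  refine Finset.sum_congr rfl fun x _ => ?_
  rw [Finset.sum_comm]
  refine Finset.sum_congr rfl fun w _ => ?_
  rw [← Finset.mul_sum, ← Finset.sum_mul]
  rfl

theorem T_mecke_le (hI : Cx R I) (hz : 0 ≤ z) (φ : Finset V → V → V → ℝ)
    (hφ : ∀ S x w, 0 ≤ φ S x w) :
    z * br I z (fun S => ∑ x, ∑ y, ∑ w, ind (T I S x y w) * φ (insert y S) x w)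
      ≤ (R - 1) * br I z (fun S => ∑ x, ∑ w, ind (adj I S x w) * φ S x w) := by
  rw [T_mecke hI, ← br_smul]
  refine br_mono hz fun S hS => ?_
  rw [Finset.mul_sum]
  refine Finset.sum_le_sum fun x _ => ?_
  rw [Finset.mul_sum]
  refine Finset.sum_le_sum fun w _ => ?_
  by_cases h : adj I S x w
  · rw [ind_true h, one_mul, one_mul]
    exact mul_le_mul_of_nonneg_right (gc_le hI h) (hφ S x w)
  · rw [ind_false h]; simp

theorem t_le (hI : Cx R I) (hz : 0 ≤ z) : z * bt I z ≤ (R - 1) * bb I z := by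
  have := T_mecke_le hI hz (fun _ _ _ => 1) (fun _ _ _ => zero_le_one)
  simp only [mul_one] at this
  exact this

/-- lower bound for the number of triples -/
theorem t_ge (hI : Cx R I) (hz : 0 ≤ z) :
    z * ((R - 1) * bb I z) - R * bD I z R ≤ z * (z * bt I z) := by
  have h0 := T_mecke hI (z := z) (fun _ _ _ => 1)
  simp only [mul_one] at h0
  have h0' : z * bt I z = br I z (fun S => ∑ x, ∑ w, ind (adj I S x w) * gc I S x w) := h0
  rw [h0']
  -- deficit
  have hd : z * ((R - 1) * bb I z) - z * br I z (fun S => ∑ x, ∑ w, ind (adj I S x w) * gc I S x w)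
      = z * br I z (fun S => ∑ x, ∑ w, ind (adj I S x w) * ((R - 1) - gc I S x w)) := by
    unfold bb
    rw [← br_smul (R - 1 : ℝ), ← mul_sub, ← br_sub]
    congr 1
    refine br_congr fun S hS => ?_
    rw [Finset.mul_sum, ← Finset.sum_sub_distrib]
    refine Finset.sum_congr rfl fun x _ => ?_
    unfold dg
    rw [Finset.mul_sum, ← Finset.sum_sub_distrib]
    exact Finset.sum_congr rfl fun w _ => by ring
  have hm := mecke hI (z := z) (fun S x => ∑ w,
    ind (w ∉ S ∧ ¬ I (insert w S) ∧ I (insert w (S.erase x))) * (R - fc I S w))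
  have hm1 : br I z (fun S => ∑ y, ind (al I S y) * ∑ w,
      ind (w ∉ insert y S ∧ ¬ I (insert w (insert y S)) ∧ I (insert w ((insert y S).erase y))) *
        (R - fc I (insert y S) w))
      = br I z (fun S => ∑ x, ∑ w, ind (adj I S x w) * ((R - 1) - gc I S x w)) := by
    refine br_congr fun S hS => Finset.sum_congr rfl fun y _ => ?_
    rw [Finset.mul_sum]
    refine Finset.sum_congr rfl fun w _ => ?_
    rw [← mul_assoc, ind_mul]
    by_cases ha : adj I S y w
    · have hc : al I S y ∧ w ∉ insert y S ∧ ¬ I (insert w (insert y S)) ∧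
          I (insert w ((insert y S).erase y)) := by
        obtain ⟨a, b, c, d⟩ := ha
        refine ⟨b, ?_, ?_, ?_⟩
        · rw [mem_insert, not_or]; exact ⟨fun h => a h.symm, c.1⟩
        · rw [Finset.insert_comm]; exact d
        · rw [erase_insert b.1]; exact c.2
      rw [ind_true ha, ind_true hc, one_mul, one_mul]
      -- fc (insert y S) w = 1 + gc S y w
      have hyS : y ∉ S := ha.2.1.1
      have e : fc I (insert y S) w = 1 + gc I S y w := by
        unfold fc gc
        have e1 : ∀ x, ind (x ∈ insert y S ∧ I (insert w ((insert y S).erase x)))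
            = ind (x = y) + ind (x ∈ S ∧ I (insert y (insert w (S.erase x)))) := by
          intro x
          by_cases hxy : x = y
          · subst hxy
            rw [ind_true (show x = x from rfl),
              show ind (x ∈ S ∧ I (insert x (insert w (S.erase x)))) = 0 from
                ind_false (fun h => hyS h.1), add_zero]
            apply ind_true
            exact ⟨mem_insert_self _ _, by rw [erase_insert hyS]; exact ha.2.2.1.2⟩
          · rw [ind_false hxy, zero_add]
            refine ind_congr ?_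
            rw [mem_insert, erase_insert_of_ne (fun h => hxy h.symm), Finset.insert_comm]
            constructor
            · rintro ⟨h1 | h1, h2⟩
              · exact absurd h1 hxy
              · exact ⟨h1, h2⟩
            · rintro ⟨h1, h2⟩; exact ⟨Or.inr h1, h2⟩
        rw [Finset.sum_congr rfl fun x _ => e1 x, Finset.sum_add_distrib]
        congr 1
        rw [Finset.sum_eq_single y]
        · exact ind_true rfl
        · intro b _ hb; exact ind_false hb
        · intro h; exact absurd (mem_univ y) h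
      rw [e]; ring
    · rw [ind_false ha, ind_false, zero_mul, zero_mul]
      rintro ⟨a, b, c, d⟩
      rw [erase_insert a.1] at d
      rw [mem_insert, not_or] at b
      exact ha ⟨fun h => b.1 h.symm, a, ⟨b.2, d⟩, by rw [Finset.insert_comm]; exact c⟩
  rw [hm1] at hm
  have hle : br I z (fun S => ∑ x, ind (x ∈ S) * ∑ w,
      ind (w ∉ S ∧ ¬ I (insert w S) ∧ I (insert w (S.erase x))) * (R - fc I S w))
      ≤ R * bD I z R := by
    unfold bD
    rw [← br_smul]
    refine br_mono hz fun S hS => ?_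
    have e1 : ∀ x, ind (x ∈ S) * ∑ w,
      ind (w ∉ S ∧ ¬ I (insert w S) ∧ I (insert w (S.erase x))) * (R - fc I S w)
      = ∑ w, ind (bl I S w) * (ind (x ∈ S ∧ I (insert w (S.erase x))) * (R - fc I S w)) := by
      intro x
      rw [Finset.mul_sum]
      refine Finset.sum_congr rfl fun w _ => ?_
      rw [← mul_assoc, ← mul_assoc, ind_mul, ind_mul]
      congr 1
      refine ind_congr ?_
      unfold bl
      tauto
    rw [Finset.sum_congr rfl fun x _ => e1 x, Finset.sum_comm, Finset.mul_sum]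
    refine Finset.sum_le_sum fun w _ => ?_
    rw [← Finset.mul_sum, ← Finset.sum_mul]
    by_cases hw : bl I S w
    · rw [ind_true hw, one_mul, one_mul]
      exact mul_le_mul_of_nonneg_right (fc_le hI hS hw) (by linarith [fc_le hI hS hw])
    · rw [ind_false hw]; linarith
  linarith

end

end Pool.Agent.J6H90.DC
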