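import Pool.Agent.J6H90.DC.Good

/-!
The second moment of the number of good triples at a point.
-/

set_option autoImplicit false
set_option linter.unusedSectionVars false
set_option linter.unusedVariables false

namespace Pool.Agent.J6H90.DC

open Finset

section
variable {V : Type} [Fintype V] [DecidableEq V]

variable (I : Finset V → Prop) (z : ℝ)

/-- the number of good triples at `x` -/
noncomputable def W (d : ℝ) (S : Finset V) (x : V) : ℝ := ∑ y, ∑ w, ind (VG I d S x y w)

/-- two good triples after the addition of both second points -/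
def E8 (d : ℝ) (S : Finset V) (x y y' w w' : V) : Prop :=
  al I S x ∧ y ∈ S ∧ y' ∈ S ∧ (adj I S x w ∧ I (insert x (insert w (S.erase y)))) ∧
    (adj I S x w' ∧ I (insert x (insert w' (S.erase y')))) ∧
    (dg I (S.erase y') x ≤ 5 / 4 * d ∧ adj I (S.erase y') x w) ∧
    (dg I (S.erase y) x ≤ 5 / 4 * d ∧ adj I (S.erase y) x w')

variable {I} {z} {R : ℕ}

theorem E8_count (hI : Cx R I) (hR : 1 ≤ R) {d : ℝ} (hd : 0 < d) {S : Finset V} {x : V}
    (hS : I S) :
    ∑ y, ∑ y', ∑ w, ∑ w', ind (E8 I d S x y y' w w') ≤ ind (al I S x) *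
      (16 * ((R : ℝ) - 1) ^ 2 * d ^ 2) := by
  classical
  have hR1 : (0 : ℝ) ≤ (R : ℝ) - 1 := by
    have : (1 : ℝ) ≤ R := by exact_mod_cast hR
    linarith
  by_cases hx : al I S x
  swap
  · rw [ind_false hx, zero_mul]
    refine le_of_eq ?_
    refine Finset.sum_eq_zero fun y _ => Finset.sum_eq_zero fun y' _ => Finset.sum_eq_zero fun w _ =>
      Finset.sum_eq_zero fun w' _ => ind_false fun h => hx h.1
  rw [ind_true hx, one_mul]
  set a : V → V → ℝ := fun y w => ind (y ∈ S ∧ adj I S x w ∧ I (insert x (insert w (S.erase y))))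
    with ha
  have ha0 : ∀ y w, 0 ≤ a y w := fun y w => ind_nonneg _
  have hsum : ∑ y, ∑ w, a y w ≤ ((R : ℝ) - 1) * dg I S x := by
    rw [Finset.sum_comm]
    unfold dg
    rw [Finset.mul_sum]
    refine Finset.sum_le_sum fun w _ => ?_
    by_cases hw : adj I S x w
    · rw [ind_true hw, mul_one]
      refine le_trans (le_of_eq ?_) (gc_le hI hw)
      unfold gc
      refine Finset.sum_congr rfl fun y _ => ?_
      simp only [ha]
      refine ind_congr ⟨fun h => ⟨h.1, h.2.2⟩, fun h => ⟨h.1, hw, h.2⟩⟩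
    · rw [ind_false hw, mul_zero]
      refine le_of_eq (Finset.sum_eq_zero fun y _ => ?_)
      simp only [ha]
      exact ind_false fun h => hw h.2.1
  have hsum0 : 0 ≤ ∑ y, ∑ w, a y w :=
    Finset.sum_nonneg fun y _ => Finset.sum_nonneg fun w _ => ha0 y w
  by_cases hD : dg I S x ≤ 4 * d
  · have h1 : ∑ y, ∑ y', ∑ w, ∑ w', ind (E8 I d S x y y' w w')
        ≤ (∑ y, ∑ w, a y w) * (∑ y', ∑ w', a y' w') := by
      rw [Finset.sum_mul]
      refine Finset.sum_le_sum fun y _ => ?_
      rw [Finset.mul_sum]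
      refine Finset.sum_le_sum fun y' _ => ?_
      rw [Finset.sum_mul]
      refine Finset.sum_le_sum fun w _ => ?_
      rw [Finset.mul_sum]
      refine Finset.sum_le_sum fun w' _ => ?_
      simp only [ha]
      rw [ind_mul]
      refine ind_mono fun h => ?_
      exact ⟨⟨h.2.1, h.2.2.2.1.1, h.2.2.2.1.2⟩, ⟨h.2.2.1, h.2.2.2.2.1.1, h.2.2.2.2.1.2⟩⟩
    have h2 : ∑ y, ∑ w, a y w ≤ ((R : ℝ) - 1) * (4 * d) :=
      le_trans hsum (mul_le_mul_of_nonneg_left hD hR1)
    calc _ ≤ (∑ y, ∑ w, a y w) * (∑ y', ∑ w', a y' w') := h1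
      _ ≤ (((R : ℝ) - 1) * (4 * d)) * (((R : ℝ) - 1) * (4 * d)) :=
          mul_le_mul h2 h2 hsum0 (by positivity)
      _ = 16 * ((R : ℝ) - 1) ^ 2 * d ^ 2 := by ring
  · rw [not_le] at hD
    set Y : ℝ := ∑ y, ind (y ∈ S ∧ dg I (S.erase y) x ≤ 5 / 4 * d) with hY
    have hY0 : 0 ≤ Y := Finset.sum_nonneg fun _ _ => ind_nonneg _
    -- each element of Y takes many
    have hloss : ∀ y, ind (y ∈ S ∧ dg I (S.erase y) x ≤ 5 / 4 * d) * (dg I S x - 5 / 4 * d)
        ≤ ∑ w, a y w := by
      intro y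
      by_cases hy : y ∈ S ∧ dg I (S.erase y) x ≤ 5 / 4 * d
      · rw [ind_true hy, one_mul]
        have h1 : dg I S x ≤ ∑ w, a y w + dg I (S.erase y) x := by
          unfold dg
          rw [← Finset.sum_add_distrib]
          refine Finset.sum_le_sum fun w _ => ?_
          by_cases hw : adj I S x w
          · by_cases hc : I (insert x (insert w (S.erase y)))
            · simp only [ha]
              rw [ind_true hw, ind_true (show y ∈ S ∧ adj I S x w ∧
                I (insert x (insert w (S.erase y))) from ⟨hy.1, hw, hc⟩)]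
              linarith [ind_nonneg (adj I (S.erase y) x w)]
            · have : adj I (S.erase y) x w := by
                refine ⟨hw.1, ⟨fun h => hw.2.1.1 (mem_of_mem_erase h), ?_⟩,
                  ⟨fun h => hw.2.2.1.1 (mem_of_mem_erase h), ?_⟩, hc⟩
                · exact hI.down (insert_subset_insert x (erase_subset y S)) hw.2.1.2
                · exact hI.down (insert_subset_insert w (erase_subset y S)) hw.2.2.1.2
              rw [ind_true this]
              linarith [ha0 y w, ind_le_one (adj I S x w)]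
          · rw [ind_false hw]
            linarith [ha0 y w, ind_nonneg (adj I (S.erase y) x w)]
        linarith [hy.2]
      · rw [ind_false hy, zero_mul]
        exact Finset.sum_nonneg fun w _ => ha0 y w
    have hYle : Y ≤ 2 * ((R : ℝ) - 1) := by
      have h1 : Y * (dg I S x - 5 / 4 * d) ≤ ((R : ℝ) - 1) * dg I S x := by
        refine le_trans ?_ hsum
        rw [hY, Finset.sum_mul]
        exact Finset.sum_le_sum fun y _ => hloss y
      have h2 : dg I S x / 2 ≤ dg I S x - 5 / 4 * d := by linarith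
      have h3 : Y * (dg I S x / 2) ≤ ((R : ℝ) - 1) * dg I S x :=
        le_trans (mul_le_mul_of_nonneg_left h2 hY0) h1
      have h4 : 0 < dg I S x := by linarith
      have h5 : (Y - 2 * ((R : ℝ) - 1)) * dg I S x ≤ 0 := by linarith
      by_contra hc
      rw [not_le] at hc
      have : 0 < (Y - 2 * ((R : ℝ) - 1)) * dg I S x := mul_pos (by linarith) h4
      linarith
    have h1 : ∑ y, ∑ y', ∑ w, ∑ w', ind (E8 I d S x y y' w w')
        ≤ ∑ y, ∑ y', ind (y ∈ S ∧ dg I (S.erase y) x ≤ 5 / 4 * d) *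
          (ind (y' ∈ S ∧ dg I (S.erase y') x ≤ 5 / 4 * d) * ((5 / 4 * d) * (5 / 4 * d))) := by
      refine Finset.sum_le_sum fun y _ => Finset.sum_le_sum fun y' _ => ?_
      by_cases hy : y ∈ S ∧ dg I (S.erase y) x ≤ 5 / 4 * d
      · by_cases hy' : y' ∈ S ∧ dg I (S.erase y') x ≤ 5 / 4 * d
        · rw [ind_true hy, ind_true hy', one_mul, one_mul]
          calc ∑ w, ∑ w', ind (E8 I d S x y y' w w')
              ≤ ∑ w, ∑ w', ind (adj I (S.erase y') x w) * ind (adj I (S.erase y) x w') := by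
                refine Finset.sum_le_sum fun w _ => Finset.sum_le_sum fun w' _ => ?_
                rw [ind_mul]
                exact ind_mono fun h => ⟨h.2.2.2.2.2.1.2, h.2.2.2.2.2.2.2⟩
            _ = dg I (S.erase y') x * dg I (S.erase y) x := by
                unfold dg; rw [Finset.sum_mul_sum]
            _ ≤ (5 / 4 * d) * (5 / 4 * d) :=
                mul_le_mul hy'.2 hy.2 (dg_nonneg _ _) (by linarith)
        · rw [ind_false hy', zero_mul, mul_zero]
          refine le_of_eq (Finset.sum_eq_zero fun w _ => Finset.sum_eq_zero fun w' _ =>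
            ind_false fun h => hy' ⟨h.2.2.1, h.2.2.2.2.2.1.1⟩)
      · rw [ind_false hy, zero_mul]
        refine le_of_eq (Finset.sum_eq_zero fun w _ => Finset.sum_eq_zero fun w' _ =>
            ind_false fun h => hy ⟨h.2.1, h.2.2.2.2.2.2.1⟩)
    have h2 : ∑ y, ∑ y', ind (y ∈ S ∧ dg I (S.erase y) x ≤ 5 / 4 * d) *
          (ind (y' ∈ S ∧ dg I (S.erase y') x ≤ 5 / 4 * d) * ((5 / 4 * d) * (5 / 4 * d)))
          = Y * (Y * ((5 / 4 * d) * (5 / 4 * d))) := by
      rw [hY, Finset.sum_mul]
      refine Finset.sum_congr rfl fun y _ => ?_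
      rw [← Finset.mul_sum, ← Finset.sum_mul]
    rw [h2] at h1
    have hdd : 0 ≤ (5 / 4 * d) * (5 / 4 * d) := by positivity
    calc _ ≤ Y * (Y * ((5 / 4 * d) * (5 / 4 * d))) := h1
      _ = (Y * Y) * ((5 / 4 * d) * (5 / 4 * d)) := by ring
      _ ≤ (2 * ((R : ℝ) - 1) * (2 * ((R : ℝ) - 1))) * ((5 / 4 * d) * (5 / 4 * d)) := by
          apply mul_le_mul_of_nonneg_right _ hdd
          exact mul_le_mul hYle hYle hY0 (by linarith)
      _ ≤ 16 * ((R : ℝ) - 1) ^ 2 * d ^ 2 := by
          have : 0 ≤ ((R : ℝ) - 1) ^ 2 * d ^ 2 := by positivity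
          nlinarith

theorem sum4_swap (g : V → V → V → V → ℝ) :
    ∑ a, ∑ b, ∑ c, ∑ e, g c e a b = ∑ a, ∑ b, ∑ c, ∑ e, g a b c e := by
  calc ∑ a, ∑ b, ∑ c, ∑ e, g c e a b = ∑ a, ∑ c, ∑ b, ∑ e, g c e a b :=
        Finset.sum_congr rfl fun a _ => Finset.sum_comm
    _ = ∑ c, ∑ a, ∑ b, ∑ e, g c e a b := Finset.sum_comm
    _ = ∑ c, ∑ a, ∑ e, ∑ b, g c e a b :=
        Finset.sum_congr rfl fun c _ => Finset.sum_congr rfl fun a _ => Finset.sum_comm
    _ = ∑ c, ∑ e, ∑ a, ∑ b, g c e a b :=
        Finset.sum_congr rfl fun c _ => Finset.sum_comm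

theorem pt_step (hI : Cx R I) {S : Finset V} {x p q v : V} (hT : T I S x p v)
    (hqp : q ≠ p) (hqS : q ∉ S) (hxq : x ≠ q) (alq : al I (insert x S) q)
    (hJ : I (insert p (insert q (insert x S)))) :
    KK I (insert p S) x v q ∨ KK I (insert x S) p v q ∨
      (v ∉ insert p (insert q S) ∧ I (insert v (insert p (insert q S))) ∧
        I (insert x (insert v (insert q S)))) := by
  have hT2 := (T_iff hI).1 hT
  have hTs := (T_iff hI).1 (T_swap hT)
  obtain ⟨c1, c2, c3, c4, c5, c6, c7, c8, c9, c10⟩ := hT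
  have exq : insert x (insert p (insert q S)) = insert p (insert q (insert x S)) := by
    rw [Finset.insert_comm x p, Finset.insert_comm x q]
  have hvq : v ≠ q := by
    intro h
    apply c10
    rw [h, exq]; exact hJ
  have alpq : al I (insert p S) q := by
    refine ⟨by rw [mem_insert, not_or]; exact ⟨hqp, hqS⟩, hI.down ?_ hJ⟩
    rw [Finset.insert_comm q p]
    exact insert_subset_insert p (insert_subset_insert q (subset_insert x S))
  by_cases f1 : I (insert v (insert p (insert q S)))
  · by_cases f2 : I (insert x (insert v (insert q S)))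
    · refine Or.inr (Or.inr ⟨?_, f1, f2⟩)
      rw [mem_insert, mem_insert, not_or, not_or]
      exact ⟨c6.symm, hvq, c3⟩
    · refine Or.inr (Or.inl ⟨hTs.2.1, ⟨hvq, hTs.2.1.2.2.1, alq, ?_⟩, fun h => hqp h.symm, ?_⟩)
      · intro h
        apply f2
        rw [Finset.insert_comm x v, Finset.insert_comm x q]; exact h
      · intro h; exact h.2.2.2 hJ
  · refine Or.inl ⟨hT2.2.1, ⟨hvq, hT2.2.1.2.2.1, alpq, ?_⟩, hxq, ?_⟩
    · intro h
      apply f1
      rw [Finset.insert_comm p q]; exact h
    · intro h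
      apply h.2.2.2
      rw [Finset.insert_comm q p, exq]; exact hJ

theorem pt_ineq (hI : Cx R I) {d : ℝ} {S : Finset V} {x y w y' w' : V}
    (h1 : VG I d S x y w) (h2 : VG I d S x y' w') :
    y' = y ∨ adj I (insert x S) y y' ∨ KK I (insert y S) x w y' ∨ KK I (insert x S) y w y' ∨
      KK I (insert y' S) x w' y ∨ KK I (insert x S) y' w' y ∨
      (pr I S y y' ∧ E8 I d (insert y (insert y' S)) x y y' w w') := by
  by_cases e1 : y' = y
  · exact Or.inl e1
  by_cases e2 : adj I (insert x S) y y'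
  · exact Or.inr (Or.inl e2)
  have hne : y ≠ y' := fun h => e1 h.symm
  have T1 := h1.1
  have T2 := h2.1
  obtain ⟨a1, a2, a3, a4, a5, a6, a7, a8, a9, a10⟩ := T1
  obtain ⟨b1, b2, b3, b4, b5, b6, b7, b8, b9, b10⟩ := T2
  have alxy : al I (insert x S) y := ⟨by rw [mem_insert, not_or]; exact ⟨a4.symm, a2⟩,
    by rw [Finset.insert_comm]; exact a7⟩
  have alxy' : al I (insert x S) y' := ⟨by rw [mem_insert, not_or]; exact ⟨b4.symm, b2⟩,
    by rw [Finset.insert_comm]; exact b7⟩
  have J : I (insert y (insert y' (insert x S))) := by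
    by_contra hc
    exact e2 ⟨hne, alxy, alxy', hc⟩
  have J2 : I (insert x (insert y (insert y' S))) := by
    rw [Finset.insert_comm x y, Finset.insert_comm x y']; exact J
  have J' : I (insert y' (insert y (insert x S))) := by
    rw [Finset.insert_comm]; exact J
  rcases pt_step hI h1.1 e1 b2 b4 alxy' J with k | k | ⟨k1, k2, k3⟩
  · exact Or.inr (Or.inr (Or.inl k))
  · exact Or.inr (Or.inr (Or.inr (Or.inl k)))
  rcases pt_step hI h2.1 hne a2 a4 alxy J' with l | l | ⟨l1, l2, l3⟩
  · exact Or.inr (Or.inr (Or.inr (Or.inr (Or.inl l))))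
  · exact Or.inr (Or.inr (Or.inr (Or.inr (Or.inr (Or.inl l)))))
  refine Or.inr (Or.inr (Or.inr (Or.inr (Or.inr (Or.inr ⟨?_, ?_⟩)))))
  · refine ⟨a2, b2, hne, hI.down ?_ J2⟩
    exact subset_insert _ _
  have hyins : y ∉ insert y' S := by rw [mem_insert, not_or]; exact ⟨hne, a2⟩
  have er1 : (insert y (insert y' S)).erase y = insert y' S := erase_insert hyins
  have er2 : (insert y (insert y' S)).erase y' = insert y S := by
    rw [erase_insert_of_ne hne, erase_insert b2]
  have hcomm : insert y' (insert y S) = insert y (insert y' S) := Finset.insert_comm _ _ _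
  rw [hcomm] at l1 l2
  have alx : al I (insert y (insert y' S)) x := by
    refine ⟨?_, J2⟩
    rw [mem_insert, mem_insert, not_or, not_or]
    exact ⟨a4, b4, a1⟩
  refine ⟨alx, mem_insert_self _ _, mem_insert_of_mem (mem_insert_self _ _),
    ⟨⟨a5, alx, ⟨k1, k2⟩, ?_⟩, ?_⟩, ⟨⟨b5, alx, ⟨l1, l2⟩, ?_⟩, ?_⟩, ⟨?_, ?_⟩, ⟨?_, ?_⟩⟩
  · intro h
    apply a10
    refine hI.down ?_ h
    rw [Finset.insert_comm y w]
    exact insert_subset_insert x (insert_subset_insert w (insert_subset_insert y (subset_insert _ _)))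
  · rw [er1]; exact k3
  · intro h
    apply b10
    refine hI.down ?_ h
    rw [Finset.insert_comm y' w']
    exact insert_subset_insert x (insert_subset_insert w' (subset_insert _ _))
  · rw [er2]; exact l3
  · rw [er2]; exact h1.2.1.1
  · rw [er2]; exact ((T_iff hI).1 h1.1).2.1
  · rw [er1]; exact h2.2.1.1
  · rw [er1]; exact ((T_iff hI).1 h2.1).2.1

theorem W_sq_le (hI : Cx R I) {d : ℝ} (hd : 0 < d) (S : Finset V) (x : V) :
    W I d S x ^ 2 ≤ (5 / 4 * d) * (1 + 129 / 100 * d) * W I d S x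
      + ∑ y, ∑ w, ∑ y', ∑ w', ind (pr I S y y') * ind (E8 I d (insert y (insert y' S)) x y y' w w') := by
  set v : V → V → ℝ := fun y w => ind (VG I d S x y w) with hv
  have hv0 : ∀ y w, 0 ≤ v y w := fun _ _ => ind_nonneg _
  set c : V → V → V → ℝ := fun y w y' => ind (KK I (insert y S) x w y') + ind (KK I (insert x S) y w y')
    with hc
  set b : V → V → ℝ := fun y y' => ind (y' = y) + ind (adj I (insert x S) y y') with hb
  have hc0 : ∀ y w y', 0 ≤ c y w y' := fun _ _ _ => add_nonneg (ind_nonneg _) (ind_nonneg _)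
  have hb0 : ∀ y y', 0 ≤ b y y' := fun _ _ => add_nonneg (ind_nonneg _) (ind_nonneg _)
  have e1 : W I d S x ^ 2 = ∑ y, ∑ w, ∑ y', ∑ w', v y w * v y' w' := by
    unfold W
    rw [pow_two, Finset.sum_mul]
    refine Finset.sum_congr rfl fun y _ => ?_
    rw [Finset.sum_mul]
    refine Finset.sum_congr rfl fun w _ => ?_
    rw [Finset.mul_sum]
    refine Finset.sum_congr rfl fun y' _ => ?_
    rw [Finset.mul_sum]
  have e2 : ∀ y w y' w', v y w * v y' w' ≤ v y w * ((b y y' + c y w y') * v y' w')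
      + v y' w' * (c y' w' y * v y w)
      + ind (pr I S y y') * ind (E8 I d (insert y (insert y' S)) x y y' w w') := by
    intro y w y' w'
    have p3 : 0 ≤ ind (pr I S y y') * ind (E8 I d (insert y (insert y' S)) x y y' w w') :=
      mul_nonneg (ind_nonneg _) (ind_nonneg _)
    by_cases h1 : VG I d S x y w
    · by_cases h2 : VG I d S x y' w'
      · have k1 : v y w = 1 := ind_true h1
        have k2 : v y' w' = 1 := ind_true h2
        rw [k1, k2]
        have n1 := hb0 y y'
        have n2 := hc0 y w y'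
        have n3 := hc0 y' w' y
        rcases pt_ineq hI h1 h2 with g | g | g | g | g | g | ⟨g, g'⟩
        · have : 1 ≤ b y y' := by
            simp only [hb]; rw [ind_true g]; linarith [ind_nonneg (adj I (insert x S) y y')]
          linarith
        · have : 1 ≤ b y y' := by
            simp only [hb]; rw [ind_true g]; linarith [ind_nonneg (y' = y)]
          linarith
        · have : 1 ≤ c y w y' := by
            simp only [hc]; rw [ind_true g]; linarith [ind_nonneg (KK I (insert x S) y w y')]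
          linarith
        · have : 1 ≤ c y w y' := by
            simp only [hc]; rw [ind_true g]; linarith [ind_nonneg (KK I (insert y S) x w y')]
          linarith
        · have : 1 ≤ c y' w' y := by
            simp only [hc]; rw [ind_true g]; linarith [ind_nonneg (KK I (insert x S) y' w' y)]
          linarith
        · have : 1 ≤ c y' w' y := by
            simp only [hc]; rw [ind_true g]; linarith [ind_nonneg (KK I (insert y' S) x w' y)]
          linarith
        · rw [ind_true g, ind_true g']; linarith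
      · have k2 : v y' w' = 0 := ind_false h2
        rw [k2]; simp only [mul_zero, zero_mul]; linarith
    · have k1 : v y w = 0 := ind_false h1
      rw [k1]; simp only [mul_zero, zero_mul]; linarith
  have rowv : ∀ y, ∑ w, v y w ≤ 5 / 4 * d := fun y => row_VG hI hd S x y
  -- first part
  have f1 : ∑ y, ∑ w, ∑ y', ∑ w', v y w * ((b y y' + c y w y') * v y' w')
      ≤ ∑ y, ∑ w, v y w * ((5 / 4 * d) * (1 + 127 / 100 * d)) := by
    refine Finset.sum_le_sum fun y _ => Finset.sum_le_sum fun w _ => ?_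
    by_cases h1 : VG I d S x y w
    swap
    · have k1 : v y w = 0 := ind_false h1
      rw [k1]; simp
    have k1 : v y w = 1 := ind_true h1
    rw [k1, one_mul]
    have s1 : ∑ y', ∑ w', 1 * ((b y y' + c y w y') * v y' w')
        ≤ ∑ y', (b y y' + c y w y') * (5 / 4 * d) := by
      refine Finset.sum_le_sum fun y' _ => ?_
      have : ∑ w', 1 * ((b y y' + c y w y') * v y' w') = (b y y' + c y w y') * ∑ w', v y' w' := by
        rw [Finset.mul_sum]; exact Finset.sum_congr rfl fun w' _ => by ring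
      rw [this]
      exact mul_le_mul_of_nonneg_left (rowv y') (add_nonneg (hb0 _ _) (hc0 _ _ _))
    refine le_trans s1 ?_
    rw [← Finset.sum_mul, mul_comm]
    refine mul_le_mul_of_nonneg_left ?_ (by linarith)
    simp only [hb, hc]
    rw [Finset.sum_add_distrib, Finset.sum_add_distrib, Finset.sum_add_distrib]
    have q1 : ∑ y', ind (y' = y) = 1 := by
      rw [Finset.sum_eq_single y]
      · exact ind_true rfl
      · intro t _ ht; exact ind_false ht
      · intro h; exact absurd (mem_univ y) h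
    have q2 : ∑ y', ind (adj I (insert x S) y y') ≤ 5 / 4 * d := h1.2.2.2.1.1
    have q3 : ∑ y', ind (KK I (insert y S) x w y') ≤ d / 100 := h1.2.1.2.2
    have q4 : ∑ y', ind (KK I (insert x S) y w y') ≤ d / 100 := h1.2.2.2.1.2.2
    linarith
  have f2 : ∑ y, ∑ w, ∑ y', ∑ w', v y' w' * (c y' w' y * v y w)
      ≤ ∑ y, ∑ w, v y w * ((5 / 4 * d) * (2 / 100 * d)) := by
    rw [sum4_swap (fun y w y' w' => v y w * (c y w y' * v y' w'))]
    refine Finset.sum_le_sum fun y _ => Finset.sum_le_sum fun w _ => ?_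
    by_cases h1 : VG I d S x y w
    swap
    · have k1 : v y w = 0 := ind_false h1
      rw [k1]; simp
    have k1 : v y w = 1 := ind_true h1
    rw [k1, one_mul]
    have s1 : ∑ y', ∑ w', 1 * (c y w y' * v y' w') ≤ ∑ y', c y w y' * (5 / 4 * d) := by
      refine Finset.sum_le_sum fun y' _ => ?_
      have : ∑ w', 1 * (c y w y' * v y' w') = c y w y' * ∑ w', v y' w' := by
        rw [Finset.mul_sum]; exact Finset.sum_congr rfl fun w' _ => by ring
      rw [this]
      exact mul_le_mul_of_nonneg_left (rowv y') (hc0 _ _ _)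
    refine le_trans s1 ?_
    rw [← Finset.sum_mul, mul_comm]
    refine mul_le_mul_of_nonneg_left ?_ (by linarith)
    simp only [hc]
    rw [Finset.sum_add_distrib]
    have q3 : ∑ y', ind (KK I (insert y S) x w y') ≤ d / 100 := h1.2.1.2.2
    have q4 : ∑ y', ind (KK I (insert x S) y w y') ≤ d / 100 := h1.2.2.2.1.2.2
    linarith
  have f3 : ∀ k : ℝ, ∑ y, ∑ w, v y w * k = k * W I d S x := by
    intro k
    unfold W
    rw [Finset.mul_sum]
    refine Finset.sum_congr rfl fun y _ => ?_
    rw [Finset.mul_sum]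
    exact Finset.sum_congr rfl fun w _ => by ring
  rw [f3] at f1 f2
  rw [e1]
  have e3 : ∑ y, ∑ w, ∑ y', ∑ w', v y w * v y' w' ≤
      ∑ y, ∑ w, ∑ y', ∑ w', (v y w * ((b y y' + c y w y') * v y' w')
      + v y' w' * (c y' w' y * v y w)
      + ind (pr I S y y') * ind (E8 I d (insert y (insert y' S)) x y y' w w')) :=
    Finset.sum_le_sum fun y _ => Finset.sum_le_sum fun w _ => Finset.sum_le_sum fun y' _ =>
      Finset.sum_le_sum fun w' _ => e2 y w y' w'
  simp only [Finset.sum_add_distrib] at e3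
  have e4 : (5 / 4 * d) * (1 + 129 / 100 * d) * W I d S x
      = 5 / 4 * d * (1 + 127 / 100 * d) * W I d S x + 5 / 4 * d * (2 / 100 * d) * W I d S x := by ring
  rw [e4]
  linarith

theorem W2_le (hI : Cx R I) (hz : 0 < z) (hR : 1 ≤ R) {d : ℝ} (hd : 0 < d) :
    z ^ 2 * br I z (fun S => ∑ x, W I d S x ^ 2)
      ≤ z ^ 2 * ((5 / 4 * d) * (1 + 129 / 100 * d) * br I z (fun S => ∑ x, W I d S x))
        + 16 * ((R : ℝ) - 1) ^ 2 * d ^ 2 * bA I z := by
  have h1 : br I z (fun S => ∑ x, W I d S x ^ 2)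
      ≤ (5 / 4 * d) * (1 + 129 / 100 * d) * br I z (fun S => ∑ x, W I d S x)
        + br I z (fun S => ∑ x, ∑ y, ∑ w, ∑ y', ∑ w',
            ind (pr I S y y') * ind (E8 I d (insert y (insert y' S)) x y y' w w')) := by
    rw [← br_smul, ← br_add]
    refine br_mono hz.le fun S hS => ?_
    rw [Finset.mul_sum, ← Finset.sum_add_distrib]
    exact Finset.sum_le_sum fun x _ => W_sq_le hI hd S x
  have h2 : z ^ 2 * br I z (fun S => ∑ x, ∑ y, ∑ w, ∑ y', ∑ w',
            ind (pr I S y y') * ind (E8 I d (insert y (insert y' S)) x y y' w w'))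
      ≤ 16 * ((R : ℝ) - 1) ^ 2 * d ^ 2 * bA I z := by
    have hm := mecke2 hI (z := z) (fun S y y' => ∑ x, ∑ w, ∑ w', ind (E8 I d S x y y' w w'))
    have e1 : br I z (fun S => ∑ x, ∑ y, ∑ w, ∑ y', ∑ w',
            ind (pr I S y y') * ind (E8 I d (insert y (insert y' S)) x y y' w w'))
        = br I z (fun S => ∑ y, ∑ y', ind (pr I S y y') *
            ∑ x, ∑ w, ∑ w', ind (E8 I d (insert y (insert y' S)) x y y' w w')) := by
      refine br_congr fun S hS => ?_
      rw [Finset.sum_comm]
      refine Finset.sum_congr rfl fun y _ => ?_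
      have : ∀ x, ∑ w, ∑ y', ∑ w',
            ind (pr I S y y') * ind (E8 I d (insert y (insert y' S)) x y y' w w')
            = ∑ y', ∑ w, ∑ w',
            ind (pr I S y y') * ind (E8 I d (insert y (insert y' S)) x y y' w w') :=
        fun x => Finset.sum_comm
      rw [Finset.sum_congr rfl fun x _ => this x, Finset.sum_comm]
      refine Finset.sum_congr rfl fun y' _ => ?_
      rw [Finset.mul_sum]
      refine Finset.sum_congr rfl fun x _ => ?_
      rw [Finset.mul_sum]
      refine Finset.sum_congr rfl fun w _ => ?_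
      rw [Finset.mul_sum]
    rw [e1, ← hm]
    unfold bA
    rw [← br_smul]
    refine br_mono hz.le fun S hS => ?_
    calc ∑ y, ∑ y', ind (y ∈ S ∧ y' ∈ S ∧ y ≠ y') * ∑ x, ∑ w, ∑ w', ind (E8 I d S x y y' w w')
        ≤ ∑ y, ∑ y', ∑ x, ∑ w, ∑ w', ind (E8 I d S x y y' w w') := by
          refine Finset.sum_le_sum fun y _ => Finset.sum_le_sum fun y' _ => ?_
          have h0 : 0 ≤ ∑ x, ∑ w, ∑ w', ind (E8 I d S x y y' w w') :=
            Finset.sum_nonneg fun _ _ => Finset.sum_nonneg fun _ _ =>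
              Finset.sum_nonneg fun _ _ => ind_nonneg _
          have := mul_le_mul_of_nonneg_right (ind_le_one (y ∈ S ∧ y' ∈ S ∧ y ≠ y')) h0
          linarith
      _ = ∑ x, ∑ y, ∑ y', ∑ w, ∑ w', ind (E8 I d S x y y' w w') := by
          have : ∀ y, ∑ y', ∑ x, ∑ w, ∑ w', ind (E8 I d S x y y' w w')
              = ∑ x, ∑ y', ∑ w, ∑ w', ind (E8 I d S x y y' w w') := fun y => Finset.sum_comm
          rw [Finset.sum_congr rfl fun y _ => this y, Finset.sum_comm]
      _ ≤ ∑ x, ind (al I S x) * (16 * ((R : ℝ) - 1) ^ 2 * d ^ 2) :=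
          Finset.sum_le_sum fun x _ => E8_count hI hR hd hS
      _ = 16 * ((R : ℝ) - 1) ^ 2 * d ^ 2 * ∑ x, ind (al I S x) := by
          rw [← Finset.sum_mul]; ring
  have h3 := mul_le_mul_of_nonneg_left h1 (sq_nonneg z)
  rw [mul_add] at h3
  linarith

end

end Pool.Agent.J6H90.DC
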