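import Pool.Agent.J6H90.DC.Final
import Pool.Agent.H120R2.CliqueDefs

/-!
Turán systems.
-/

set_option autoImplicit false
set_option linter.unusedSectionVars false
set_option linter.unusedVariables false

namespace Pool.Agent.J6H90.DC

open Finset Filter Topology

/-- `S` contains no block -/
def Ind {n : ℕ} (H : Finset (Finset (Fin n))) (S : Finset (Fin n)) : Prop := ∀ B ∈ H, ¬ B ⊆ S

theorem ind_cx {n r : ℕ} (hr : 1 ≤ r) {H : Finset (Finset (Fin n))} (hH : ∀ B ∈ H, B.card = r) :
    Cx (r - 1) (Ind H) where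
  emp := by
    intro B hB h
    rw [subset_empty] at h
    have := hH B hB
    rw [h, card_empty] at this
    omega
  down := by
    intro S T hST hT B hB h
    exact hT B hB (h.trans hST)
  blk := by
    intro S v hS hv h
    unfold Ind at h
    push Not at h
    obtain ⟨B, hB, hBS⟩ := h
    have hvB : v ∈ B := by
      by_contra hc
      apply hS B hB
      intro a ha
      have := hBS ha
      rw [mem_insert] at this
      rcases this with h1 | h1
      · exact absurd (h1 ▸ ha) hc
      · exact h1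
    refine ⟨B.erase v, ?_, ?_, ?_⟩
    · intro a ha
      rw [mem_erase] at ha
      have := hBS ha.2
      rw [mem_insert] at this
      exact this.resolve_left ha.1
    · rw [card_erase_of_mem hvB, hH B hB]
    · intro hc
      exact hc B hB (by rw [insert_erase hvB])

theorem hh_le {n r : ℕ} (hr : 1 ≤ r) {H : Finset (Finset (Fin n))} (hH : ∀ B ∈ H, B.card = r) :
    hh (Ind H) (r - 1) ≤ r * (H.card : ℝ) := by
  classical
  unfold hh
  have h1 : ∑ S : Finset (Fin n), ind (Ind H S ∧ S.card = r - 1) * ∑ v, ind (bl (Ind H) S v)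
      ≤ ∑ v : Fin n, ∑ S : Finset (Fin n), ind (v ∉ S) * ind (insert v S ∈ H) := by
    rw [Finset.sum_comm (s := (univ : Finset (Fin n)))]
    refine Finset.sum_le_sum fun S _ => ?_
    rw [Finset.mul_sum]
    refine Finset.sum_le_sum fun v _ => ?_
    rw [ind_mul, ind_mul]
    refine ind_mono ?_
    rintro ⟨⟨h1, h2⟩, h3, h4⟩
    refine ⟨h3, ?_⟩
    unfold Ind at h4
    push Not at h4
    obtain ⟨B, hB, hBS⟩ := h4
    have : B = insert v S := by
      apply eq_of_subset_of_card_le hBS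
      rw [card_insert_of_notMem h3, h2, hH B hB]
      omega
    rw [← this]; exact hB
  refine le_trans h1 ?_
  have h2 : ∀ v : Fin n, ∑ S : Finset (Fin n), ind (v ∉ S) * ind (insert v S ∈ H)
      = ∑ S : Finset (Fin n), ind (v ∈ S ∧ S ∈ H) := by
    intro v
    rw [sum_insert_eq v (fun S => ind (v ∈ S ∧ S ∈ H))]
    · refine Finset.sum_congr rfl fun S _ => ?_
      congr 1
      exact ind_congr ⟨fun h => ⟨mem_insert_self v S, h⟩, fun h => h.2⟩
    · intro S hv
      exact ind_false fun h => hv h.1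
  rw [Finset.sum_congr rfl fun v _ => h2 v, Finset.sum_comm]
  have h3 : ∀ S : Finset (Fin n), ∑ v, ind (v ∈ S ∧ S ∈ H) = ind (S ∈ H) * r := by
    intro S
    by_cases hS : S ∈ H
    · rw [ind_true hS, one_mul]
      have : ∑ v, ind (v ∈ S ∧ S ∈ H) = ∑ v, ind (v ∈ S) :=
        Finset.sum_congr rfl fun v _ => ind_congr ⟨fun h => h.1, fun h => ⟨h, hS⟩⟩
      rw [this, sum_ind_mem, hH S hS]
    · rw [ind_false hS, zero_mul]
      exact Finset.sum_eq_zero fun v _ => ind_false fun h => hS h.2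
  rw [Finset.sum_congr rfl fun S _ => h3 S, ← Finset.sum_mul, sum_ind_card (V := Finset (Fin n))]
  have : (univ.filter (fun S : Finset (Fin n) => S ∈ H)) = H := by ext; simp
  rw [this, mul_comm]

theorem blocks_ge {n r m : ℕ} (hr : 3 ≤ r) (hm : r < m) (hn : 8 * (m - 1) ≤ n)
    {H : Finset (Finset (Fin n))} (hH : ∀ B ∈ H, B.card = r)
    (hcov : ∀ A : Finset (Fin n), A.card = m → ∃ B ∈ H, B ⊆ A) :
    (1 + 8 / 10000000000) * ((n : ℝ) ^ (r - 1) * ((n : ℝ) - 2 * ((m : ℝ) - 1)))
      ≤ r * (H.card : ℝ) * ((m : ℝ) - 1) ^ (r - 1) := by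
  have hI := ind_cx (show 1 ≤ r by omega) hH
  -- a block
  obtain ⟨A, -, hA⟩ := Finset.exists_subset_card_eq (s := (univ : Finset (Fin n))) (n := m)
    (by rw [card_univ, Fintype.card_fin]; omega)
  obtain ⟨B, hB, -⟩ := hcov A hA
  have hBc := hH B hB
  obtain ⟨v, hv⟩ : B.Nonempty := by rw [← card_pos, hBc]; omega
  have hS : Ind H (B.erase v) := by
    intro C hC hCB
    have := card_le_card hCB
    rw [card_erase_of_mem hv, hBc, hH C hC] at this
    omega
  have hbl : bl (Ind H) (B.erase v) v := by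
    refine ⟨notMem_erase v B, fun h => h B hB (by rw [insert_erase hv])⟩
  have hmR : (1 : ℝ) ≤ m := by
    have : 1 ≤ m := by omega
    exact_mod_cast this
  have hα : ∀ S, Ind H S → (S.card : ℝ) ≤ (m : ℝ) - 1 := by
    intro S hSi
    by_contra hc
    rw [not_le] at hc
    have h2 : (m : ℝ) < S.card + 1 := by linarith
    have h1 : m ≤ S.card := by
      have : m < S.card + 1 := by exact_mod_cast h2
      omega
    obtain ⟨A, hAS, hA⟩ := Finset.exists_subset_card_eq h1
    obtain ⟨B, hB, hBA⟩ := hcov A hA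
    exact hSi B hB (hBA.trans hAS)
  have hm0 : (0 : ℝ) < (m : ℝ) - 1 := by
    have : 3 < m := by omega
    have : (3 : ℝ) < m := by exact_mod_cast this
    linarith
  have hn8 : 8 * ((m : ℝ) - 1) ≤ (Fintype.card (Fin n) : ℝ) := by
    rw [Fintype.card_fin]
    have h1 : ((8 * (m - 1) : ℕ) : ℝ) ≤ (n : ℝ) := by exact_mod_cast hn
    rw [Nat.cast_mul, Nat.cast_sub (by omega)] at h1
    push_cast at h1
    exact h1
  have h := main_cx hI (by omega) hS hbl hm0 hα hn8
  rw [Fintype.card_fin] at h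
  refine le_trans h ?_
  exact mul_le_mul_of_nonneg_right (hh_le (by omega) hH) (pow_nonneg hm0.le _)

open Pool.Agent.H120R2.Clique

/-- the bound for the Turán function -/
theorem ex_le {n r m : ℕ} (hr : 3 ≤ r) (hm : r < m) (hn : 8 * (m - 1) ≤ n) :
    (ex n r m : ℝ) ≤ (n.choose r : ℝ) - (1 + 8 / 10000000000) *
      ((n : ℝ) ^ (r - 1) * ((n : ℝ) - 2 * ((m : ℝ) - 1))) / (r * ((m : ℝ) - 1) ^ (r - 1)) := by
  classical
  have hm0 : (0 : ℝ) < (m : ℝ) - 1 := by
    have : 3 < m := by omega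
    have : (3 : ℝ) < m := by exact_mod_cast this
    linarith
  have hr0 : (0 : ℝ) < r := by
    have : 0 < r := by omega
    exact_mod_cast this
  obtain ⟨G, hG, hGc⟩ := exists_mem_eq_sup
    ((((univ : Finset (Fin n)).powersetCard r).powerset).filter (fun G => ¬ HasClique G r m))
    ⟨∅, by
      rw [mem_filter, mem_powerset]
      refine ⟨empty_subset _, ?_⟩
      rintro ⟨A, hA, hAH⟩
      have : (A.powersetCard r).card = 0 := by
        rw [subset_empty.1 hAH]; rfl
      rw [card_powersetCard, hA] at this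
      have h5 := Nat.choose_pos hm.le
      omega⟩ Finset.card
  rw [mem_filter, mem_powerset] at hG
  have hex : ex n r m = G.card := by
    unfold ex
    rw [← hGc]
  set H : Finset (Finset (Fin n)) := (univ : Finset (Fin n)).powersetCard r \ G with hHdef
  have hHc : (H.card : ℝ) = (n.choose r : ℝ) - G.card := by
    rw [hHdef, card_sdiff_of_subset hG.1, Nat.cast_sub (card_le_card hG.1), card_powersetCard,
      card_univ, Fintype.card_fin]
  have h := blocks_ge hr hm hn (H := H) (fun B hB => (mem_powersetCard.1 (mem_sdiff.1 hB).1).2) (by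
    intro A hA
    by_contra hc
    push Not at hc
    apply hG.2
    refine ⟨A, hA, fun B hB => ?_⟩
    rw [mem_powersetCard] at hB
    by_contra hBG
    exact hc B (mem_sdiff.2 ⟨mem_powersetCard.2 ⟨subset_univ _, hB.2⟩, hBG⟩) hB.1)
  rw [hex]
  have h2 : (1 + 8 / 10000000000) *
      ((n : ℝ) ^ (r - 1) * ((n : ℝ) - 2 * ((m : ℝ) - 1))) / (r * ((m : ℝ) - 1) ^ (r - 1))
      ≤ (H.card : ℝ) := by
    rw [div_le_iff₀ (by positivity)]
    linarith
  rw [hHc] at h2
  linarith

/-- the bound for the Turán density -/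
theorem density_le {r m : ℕ} (hr : 3 ≤ r) (hm : r < m) :
    turanDensity r m ≤ 1 - (1 + 8 / 10000000000) * ((r - 1).factorial : ℝ) /
      ((m : ℝ) - 1) ^ (r - 1) := by
  have hm0 : (0 : ℝ) < (m : ℝ) - 1 := by
    have : 3 < m := by omega
    have : (3 : ℝ) < m := by exact_mod_cast this
    linarith
  have hr0 : (0 : ℝ) < r := by
    have : 0 < r := by omega
    exact_mod_cast this
  have ht := ratio_tendsto r m
  have hlim : Tendsto (fun n : ℕ => 1 - (1 + 8 / 10000000000) * ((r - 1).factorial : ℝ) /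
      ((m : ℝ) - 1) ^ (r - 1) * (1 - 2 * ((m : ℝ) - 1) / (n : ℝ))) atTop
      (𝓝 (1 - (1 + 8 / 10000000000) * ((r - 1).factorial : ℝ) / ((m : ℝ) - 1) ^ (r - 1) * (1 - 0))) := by
    refine tendsto_const_nhds.sub (tendsto_const_nhds.mul (tendsto_const_nhds.sub ?_))
    exact tendsto_const_div_atTop_nhds_zero_nat _
  rw [sub_zero, mul_one] at hlim
  refine le_of_tendsto_of_tendsto ht hlim ?_
  filter_upwards [eventually_ge_atTop (8 * (m - 1) + r)] with n hn
  have h := ex_le hr hm (show 8 * (m - 1) ≤ n by omega)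
  have hch : 0 < (n.choose r : ℝ) := by
    have := Nat.choose_pos (show r ≤ n by omega)
    exact_mod_cast this
  have hn0 : (0 : ℝ) < n := by
    have : 0 < n := by omega
    exact_mod_cast this
  rw [div_le_iff₀ hch]
  refine le_trans h ?_
  -- n^r / r! ≥ choose
  have hfac : (n.choose r : ℝ) * ((r - 1).factorial : ℝ) * r ≤ (n : ℝ) ^ (r - 1) * n := by
    have h1 := Nat.choose_le_pow_div (α := ℝ) r n
    rw [le_div_iff₀ (by positivity)] at h1
    have h2 : (r.factorial : ℝ) = r * ((r - 1).factorial : ℝ) := by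
      rw [← Nat.mul_factorial_pred (by omega)]; push_cast; ring
    have h3 : (n : ℝ) ^ (r - 1) * n = (n : ℝ) ^ r := by
      rw [← pow_succ]; congr 1; omega
    rw [h3]
    rw [h2] at h1
    linarith
  have hfrac : 0 ≤ 1 - 2 * ((m : ℝ) - 1) / n := by
    have h1 : ((8 * (m - 1) : ℕ) : ℝ) ≤ (n : ℝ) := by
      have : 8 * (m - 1) ≤ n := by omega
      exact_mod_cast this
    rw [Nat.cast_mul, Nat.cast_sub (by omega)] at h1
    push_cast at h1
    rw [sub_nonneg, div_le_one hn0]
    linarith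
  have e1 : (1 + 8 / 10000000000) * ((n : ℝ) ^ (r - 1) * ((n : ℝ) - 2 * ((m : ℝ) - 1))) /
      (r * ((m : ℝ) - 1) ^ (r - 1))
      = ((1 + 8 / 10000000000) / (r * ((m : ℝ) - 1) ^ (r - 1)) * (1 - 2 * ((m : ℝ) - 1) / n)) *
        ((n : ℝ) ^ (r - 1) * n) := by
    field_simp
  have e2 : (1 + 8 / 10000000000) * ((r - 1).factorial : ℝ) /
      ((m : ℝ) - 1) ^ (r - 1) * (1 - 2 * ((m : ℝ) - 1) / (n : ℝ)) * (n.choose r : ℝ)
      = ((1 + 8 / 10000000000) / (r * ((m : ℝ) - 1) ^ (r - 1)) * (1 - 2 * ((m : ℝ) - 1) / n)) *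
        ((n.choose r : ℝ) * ((r - 1).factorial : ℝ) * r) := by
    field_simp
  have h4 := mul_le_mul_of_nonneg_left hfac (show 0 ≤ (1 + 8 / 10000000000) /
    (r * ((m : ℝ) - 1) ^ (r - 1)) * (1 - 2 * ((m : ℝ) - 1) / n) by positivity)
  rw [← e1, ← e2] at h4
  linarith

end Pool.Agent.J6H90.DC
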